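import Pool.Agent.TH117.PO.Dual
import Pool.Agent.TH117.BL.Main
import Pool.Agent.W495.TA.Main

/-!
# Abelian varieties all of whose Tate classes are in `Alg`
-/

set_option autoImplicit false
set_option linter.unusedSectionVars false
set_option linter.unusedVariables false

namespace Pool.Agent.TH117.PO

open NumberField Pool.Agent.H204R3.CM Pool.Agent.W547.KB Pool.Agent.W547.LD Pool.Agent.W547.HR
  Pool.Agent.W495.TA Module Equiv Pool.Agent.TH117.BL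
open scoped TensorProduct

variable {p : ℕ} [Fact p.Prime] {ν : PadicAlgCl p ≃+* ℂ} {Ω : Type} [Field Ω] [CharZero Ω]
  {C : (Y : RedAV p ν) → (κ : Type) → ((TM Ω Y) [⋀^κ]→ₗ[Ω] Ω) → Prop}

theorem alg_of_tate (hC : IsCycleSystem Ω C) (hT : AreTate Ω C) {Y : RedAV p ν} {r : ℕ}
    (h : ∀ (s : ℕ) (f : (TM Ω Y) [⋀^Fin (2 * r)]→ₗ[Ω] Ω), 0 < s → IsTateClass Ω Y s r f →
      Alg Ω Y (Fin (2 * r)) f)
    {z : (TM Ω Y) [⋀^Fin r × Fin 2]→ₗ[Ω] Ω} (hz : C Y (Fin r × Fin 2) z) :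
    Alg Ω Y (Fin r × Fin 2) z := by
  let e : Fin r × Fin 2 ≃ Fin (2 * r) := finProdFinEquiv.trans (finCongr (mul_comm r 2))
  obtain ⟨s, hs, h1⟩ := hT (z.domDomCongr e) (hC.reindex e z hz)
  have h2 := Alg.reindex e.symm _ (h s _ hs h1)
  have h3 : (z.domDomCongr e).domDomCongr e.symm = z := by
    refine AlternatingMap.ext fun v => ?_
    change z _ = z v
    congr 1
    funext k
    simp
  rwa [h3] at h2

/-- The conditions under which all Tate classes are known to be in `Alg`. -/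
theorem alg_of_cases [IsAlgClosed Ω] {Y : RedAV p ν}
    (hY : (∃ (A : CMPair) (b : ℕ) (ϖ : A.E), finrank ℚ A.E ≤ 10 ∧ 0 < b ∧
      IsFrobenius p ν A b ϖ ∧ IsPowerTimesSupersingular A b ϖ Y) ∨
      ∃ Z : RedAV p ν, HasElementaryRelations Z ∧ IsPowersTimesSupersingular Z Y) {r : ℕ} (s : ℕ)
    (f : (TM Ω Y) [⋀^Fin (2 * r)]→ₗ[Ω] Ω) (hs : 0 < s) (hf : IsTateClass Ω Y s r f) :
    Alg Ω Y (Fin (2 * r)) f := by
  rcases hY with ⟨A, b, ϖ, h1, h2, h3, h4⟩ | ⟨Z, h1, h2⟩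
  · exact Pool.Agent.W495.TA.main p ν A h1 b h2 ϖ h3 Ω Y h4 s r hs f hf
  · exact elementary Z h1 Ω Y h2 s r hs f hf

/-- Positivity of all primitive classes. -/
theorem positive_full [IsAlgClosed Ω] (hC : IsCycleSystem Ω C) (hR : IsRosatiPositive Ω C)
    (hT : AreTate Ω C) {Y : RedAV p ν}
    (hY : (∃ (A : CMPair) (b : ℕ) (ϖ : A.E), finrank ℚ A.E ≤ 10 ∧ 0 < b ∧
      IsFrobenius p ν A b ϖ ∧ IsPowerTimesSupersingular A b ϖ Y) ∨
      ∃ Z : RedAV p ν, HasElementaryRelations Z ∧ IsPowersTimesSupersingular Z Y)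
    {α : Y.X.H1} (hα : IsPolar Y.X α) {r m : ℕ} (hrm : 2 * (2 * r + m) = finrank ℚ Y.X.H1)
    {z : (TM Ω Y) [⋀^Fin r × Fin 2]→ₗ[Ω] Ω} (hz : C Y _ z) (hz0 : z ≠ 0)
    (hprim : IsPrim α m z) : IsPosClass α m z :=
  positive hC hR hα hrm hz (alg_of_tate hC hT (alg_of_cases hY) hz) hz0 hprim

end Pool.Agent.TH117.PO
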