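import Pool.Agent.TH117.PO.Two

/-!
# The coefficients of the classes give lines
-/

set_option autoImplicit false
set_option linter.unusedSectionVars false
set_option linter.unusedVariables false

namespace Pool.Agent.TH117.PO

open NumberField Pool.Agent.H204R3.CM Pool.Agent.W547.KB Pool.Agent.W547.LD Pool.Agent.W547.HR
  Pool.Agent.W495.TA Module Pool.Agent.W976.TA
open scoped TensorProduct

noncomputable section

variable {L : Type} [Field L] [NumberField L] [IsCMField L] [IsGalois ℚ L]

/-- An element on which the weights have different values. -/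
theorem exists_separating (X : CMAV) [Finite (Wt X L)] :
    ∃ x : X.H1, Function.Injective fun w : Wt X L => ev x w := by
  classical
  let _ : Fintype (Wt X L) := Fintype.ofFinite _
  let D : Wt X L × Wt X L → Submodule ℚ X.H1 := fun q => LinearMap.ker (evLin q.1 - evLin q.2)
  have hD : ∀ q : Wt X L × Wt X L, q.1 ≠ q.2 → D q ≠ ⊤ := by
    rintro ⟨⟨i, φ⟩, ⟨i', φ'⟩⟩ hne htop
    have h1 : ∀ x : X.H1, φ (x i) = φ' (x i') := by
      intro x
      have h2 : x ∈ D (⟨i, φ⟩, ⟨i', φ'⟩) := by
        rw [htop]
        trivial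
      have h3 := LinearMap.mem_ker.1 h2
      rw [LinearMap.sub_apply, sub_eq_zero] at h3
      exact h3
    by_cases hi : i = i'
    · subst hi
      apply hne
      refine Sigma.ext rfl (heq_of_eq ?_)
      ext y
      have h2 := h1 (Pi.single i y)
      rwa [Pi.single_eq_same] at h2
    · have h2 := h1 (Pi.single i 1)
      rw [Pi.single_eq_same, Pi.single_eq_of_ne (Ne.symm hi), map_one, map_zero] at h2
      exact one_ne_zero h2
  let s : Finset (Submodule ℚ X.H1) :=
    (Finset.univ.filter fun q : Wt X L × Wt X L => q.1 ≠ q.2).image D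
  have hs : ⊤ ∉ s := by
    intro h
    obtain ⟨q, hq, hq2⟩ := Finset.mem_image.1 h
    exact hD q (Finset.mem_filter.1 hq).2 hq2
  have h1 := Subspace.biUnion_ne_univ_of_top_notMem hs
  obtain ⟨x, hx⟩ := (Set.ne_univ_iff_exists_notMem _).1 h1
  refine ⟨x, fun w w' hw => ?_⟩
  by_contra hne
  apply hx
  simp only [Set.mem_iUnion]
  refine ⟨D (w, w'), Finset.mem_image.2 ⟨(w, w'), Finset.mem_filter.2 ⟨Finset.mem_univ _, hne⟩,
    rfl⟩, ?_⟩
  change x ∈ LinearMap.ker (evLin w - evLin w')
  rw [LinearMap.mem_ker, LinearMap.sub_apply, sub_eq_zero]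
  exact hw

/-- The character of a family of weights. -/
def chr {X : CMAV} {κ : Type} [Fintype κ] (I : κ → Wt X L) : X.H1 →* L where
  toFun a := ∏ k, ev a (I k)
  map_one' := Finset.prod_eq_one fun k _ => map_one (I k).2
  map_mul' a b := by
    rw [← Finset.prod_mul_distrib]
    exact Finset.prod_congr rfl fun k _ => map_mul (I k).2 _ _

theorem chr_apply {X : CMAV} {κ : Type} [Fintype κ] (I : κ → Wt X L) (a : X.H1) :
    chr I a = ∏ k, ev a (I k) := rfl

/-- Families of weights with the same character are permutations of each other. -/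
theorem exists_perm {X : CMAV} [Finite (Wt X L)] {κ : Type} [Fintype κ] [DecidableEq κ]
    {I J : κ → Wt X L} (hI : Function.Injective I) (h : chr J = chr I) :
    ∃ σ : Equiv.Perm κ, J = I ∘ σ := by
  classical
  obtain ⟨x, hx⟩ := exists_separating (L := L) X
  have hpoly : ∀ K : κ → Wt X L, (((Finset.univ : Finset κ).val.map fun k => ev x (K k)).map
      fun a => Polynomial.X - Polynomial.C a).prod = ∏ k, (Polynomial.X - Polynomial.C (ev x (K k))) := by
    intro K
    rw [Multiset.map_map]
    rfl
  have heq : (∏ k, (Polynomial.X - Polynomial.C (ev x (J k))) : Polynomial L) =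
      ∏ k, (Polynomial.X - Polynomial.C (ev x (I k))) := by
    refine Polynomial.eq_of_infinite_eval_eq _ _ ?_
    refine Set.Infinite.mono ?_ (Set.infinite_range_of_injective (Nat.cast_injective (R := L)))
    rintro _ ⟨n, rfl⟩
    have h1 := DFunLike.congr_fun h ((n : ℚ) • (1 : X.H1) - x)
    rw [chr_apply, chr_apply] at h1
    have h2 : ∀ w : Wt X L, ev ((n : ℚ) • (1 : X.H1) - x) w = (n : L) - ev x w := by
      intro w
      have h3 := (evLin w).map_sub ((n : ℚ) • (1 : X.H1)) x
      rw [LinearMap.map_smul] at h3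
      have h4 : evLin w (1 : X.H1) = 1 := map_one w.2
      rw [h4, Rat.smul_def, mul_one, Rat.cast_natCast] at h3
      exact h3
    simp only [h2] at h1
    simp only [Set.mem_ofPred_eq, Polynomial.eval_prod, Polynomial.eval_sub, Polynomial.eval_X,
      Polynomial.eval_C]
    exact h1
  have hm : ((Finset.univ : Finset κ).val.map fun k => ev x (J k)) =
      ((Finset.univ : Finset κ).val.map fun k => ev x (I k)) := by
    rw [← Polynomial.roots_multiset_prod_X_sub_C ((Finset.univ : Finset κ).val.map
      fun k => ev x (J k)), ← Polynomial.roots_multiset_prod_X_sub_C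
        ((Finset.univ : Finset κ).val.map fun k => ev x (I k)), hpoly, hpoly, heq]
  have hm2 : ((Finset.univ : Finset κ).val.map J) = ((Finset.univ : Finset κ).val.map I) := by
    have h1 : ∀ K : κ → Wt X L, ((Finset.univ : Finset κ).val.map fun k => ev x (K k)) =
        ((Finset.univ : Finset κ).val.map K).map fun w => ev x w := by
      intro K
      rw [Multiset.map_map]
      rfl
    rw [h1, h1] at hm
    exact Multiset.map_injective hx hm
  have hnodup : ((Finset.univ : Finset κ).val.map I).Nodup :=
    Multiset.Nodup.map hI Finset.univ.nodup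
  have hJ : Function.Injective J := by
    rw [← hm2] at hnodup
    intro k k' hk
    exact Multiset.inj_on_of_nodup_map hnodup k (Finset.mem_univ k) k' (Finset.mem_univ k') hk
  have hmem : ∀ k, ∃ k', I k' = J k := by
    intro k
    have h1 : J k ∈ ((Finset.univ : Finset κ).val.map J) :=
      Multiset.mem_map_of_mem _ (Finset.mem_univ k)
    rw [hm2] at h1
    obtain ⟨k', -, hk'⟩ := Multiset.mem_map.1 h1
    exact ⟨k', hk'⟩
  choose f hf using hmem
  have hfi : Function.Injective f := by
    intro k k' hk
    apply hJ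
    rw [← hf, ← hf, hk]
  refine ⟨Equiv.ofBijective f (Finite.injective_iff_bijective.1 hfi), ?_⟩
  funext k
  exact (hf k).symm

variable {p : ℕ} [Fact p.Prime] {ν : PadicAlgCl p ≃+* ℂ} {Ω : Type} [Field Ω] [CharZero Ω]
  {jO : L →+* Ω} {C : (Y : RedAV p ν) → (κ : Type) → ((TM Ω Y) [⋀^κ]→ₗ[Ω] Ω) → Prop}

/-- Multiplication by an element of the product of the fields. -/
def mulA {X : CMAV} (a : X.H1) : X.H1 →ₗ[ℚ] X.H1 where
  toFun x := fun i => a i * x i
  map_add' x y := by
    funext i
    exact mul_add _ _ _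
  map_smul' c x := by
    funext i
    exact mul_smul_comm c _ (x i)

theorem ev_mulA {X : CMAV} (a x : X.H1) (w : Wt X L) : ev (mulA a x) w = ev a w * ev x w :=
  map_mul w.2 _ _

theorem isHom_mulA {X : CMAV} (a : X.H1) : IsHom X X (mulA a) := by
  refine ⟨LinearMap.pi fun i => LinearMap.pi fun φ =>
    (φ.1 (a i)) • ((LinearMap.proj (R := ℂ) (φ := fun _ : (X.factor i).Φ => ℂ) φ).comp
      (LinearMap.proj (R := ℂ) (φ := fun i => (X.factor i).Φ → ℂ) i)), fun w => ?_⟩
  funext i φ
  exact (map_mul φ.1 (a i) (w i)).symm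

theorem mono_mulA {X : CMAV} {κ : Type} [Fintype κ] [DecidableEq κ] (I : κ → Wt X L) (a : X.H1)
    (v : κ → X.H1) : mono I (fun k => mulA a (v k)) = chr I a * mono I v := by
  rw [mono_apply, mono_apply, Finset.mul_sum]
  refine Finset.sum_congr rfl fun σ _ => ?_
  simp only [ev_mulA, Finset.prod_mul_distrib]
  rw [chr_apply]
  ring

theorem mono_perm {X : CMAV} {κ : Type} [Fintype κ] [DecidableEq κ] (I : κ → Wt X L)
    (σ : Equiv.Perm κ) (v : κ → X.H1) :
    mono (I ∘ σ) v = ((Equiv.Perm.sign σ : ℤ) : L) * mono I v := by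
  rw [mono_eq_det, mono_eq_det]
  exact Matrix.det_permute' σ (Matrix.of fun k l => ev (v k) (I l))

variable (hC : IsCycleSystem Ω C)
include hC

/-- The coefficients of a class. -/
theorem Ln_coef (j : L →+* ℂ) {Y : RedAV p ν} (hB : Big Y.X j)
    (e : Basis (Wt Y.X L) Ω (TM Ω Y)) (h1 : ∀ w, co jO w (e w) = 1)
    (h0 : ∀ w w', w ≠ w' → co jO w (e w') = 0) {κ : Type} [Fintype κ] [DecidableEq κ]
    {z : (TM Ω Y) [⋀^κ]→ₗ[Ω] Ω} (hz : C Y κ z) {I : κ → Wt Y.X L} (hI : Function.Injective I) :
    Ln jO C Y I (z fun k => e (I k)) (z fun k => e (bar (I k))) := by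
  classical
  have : Finite (Wt Y.X L) := Pool.Agent.W67.TA.finite_wt j hB
  let _ : Fintype (Wt Y.X L) := Fintype.ofFinite _
  let G : (κ → Wt Y.X L) → W jO Y κ := fun I =>
    semi jO Y κ (z fun k => e (I k)) (z fun k => e (bar (I k))) (mono I)
  -- the sum over all families
  have hsum : ∀ a : Y.X.H1, ∑ I, chr I a • G I ∈ V C jO Y κ := by
    intro a
    have h2 := V_of (jO := jO) (hC.pull (mulA a) (isHom_mulA a) z hz)
    have h3 : ∀ v : κ → Y.X.H1, ((Fintype.card (Equiv.Perm κ) : ℕ) : Ω) *
        res (z.compLinearMap ((mulA a).baseChange Ω)) v =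
        ∑ I : κ → Wt Y.X L, (z fun k => e (I k)) * jO (chr I a * mono I v) := by
      intro v
      rw [res_pull]
      have h4 := congrArg (fun f => res f (fun k => mulA a (v k)))
        (Pool.Agent.TH117.BL.expand_formula jO e h1 h0 z)
      have h5 : res (((Fintype.card (Equiv.Perm κ) : ℕ) : Ω) • z) (fun k => mulA a (v k)) =
          ((Fintype.card (Equiv.Perm κ) : ℕ) : Ω) * res z (fun k => mulA a (v k)) := rfl
      rw [← h5]
      refine h4.trans ?_
      unfold res
      rw [Pool.Agent.W351.TA.sum_alt]
      refine Finset.sum_congr rfl fun I _ => ?_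
      rw [AlternatingMap.smul_apply, smul_eq_mul, Pool.Agent.W417.TA.monoO_tmul, mono_mulA]
    have h4 : ∑ I, chr I a • G I = ((Fintype.card (Equiv.Perm κ) : ℕ) : L) •
        (⟨res (z.compLinearMap ((mulA a).baseChange Ω)),
          res (z.compLinearMap ((mulA a).baseChange Ω))⟩ : W jO Y κ) := by
      have hf : ∀ (s : Finset (κ → Wt Y.X L)) (T : (κ → Wt Y.X L) → W jO Y κ) v,
          (∑ I ∈ s, T I).fst v = ∑ I ∈ s, (T I).fst v := by
        intro s T v
        induction s using Finset.induction_on with
        | empty => rfl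
        | insert a s ha ih => rw [Finset.sum_insert ha, Finset.sum_insert ha, ← ih]; rfl
      have hg : ∀ (s : Finset (κ → Wt Y.X L)) (T : (κ → Wt Y.X L) → W jO Y κ) v,
          (∑ I ∈ s, T I).snd v = ∑ I ∈ s, (T I).snd v := by
        intro s T v
        induction s using Finset.induction_on with
        | empty => rfl
        | insert a s ha ih => rw [Finset.sum_insert ha, Finset.sum_insert ha, ← ih]; rfl
      ext v
      · rw [hf, W.smul_fst]
        dsimp only
        rw [map_natCast, h3]
        refine Finset.sum_congr rfl fun I _ => ?_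
        change jO (chr I a) * ((z fun k => e (I k)) * jO (mono I v)) = _
        rw [map_mul]
        ring
      · rw [hg, W.smul_snd]
        dsimp only
        rw [map_natCast, map_natCast, h3]
        refine Fintype.sum_equiv (Equiv.arrowCongr (Equiv.refl κ)
          (Function.Involutive.toPerm bar bar_bar)) _ _ fun I => ?_
        change jO (cc L (chr I a)) * ((z fun k => e (bar (I k))) * jO (cc L (mono I v))) =
          (z fun k => e (bar (I k))) * jO (chr (fun k => bar (I k)) a *
            mono (fun k => bar (I k)) v)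
        have h5 : chr (fun k => bar (I k)) a = cc L (chr I a) := by
          rw [chr_apply, chr_apply, map_prod]
          rfl
        rw [h5, mono_bar, map_mul]
        ring
    rw [h4]
    exact Submodule.smul_mem _ _ h2
  -- the sums over the families with the same character
  let S : Finset (Y.X.H1 →* L) := Finset.univ.image fun I : κ → Wt Y.X L => chr I
  have h2 := char_component (C := {ψ // ψ ∈ S}) (fun ψ => ψ.1)
    (fun ψ => ∑ I with chr I = ψ.1, G I) (V C jO Y κ) (fun a => by
      have h3 : ∑ ψ : {ψ // ψ ∈ S}, ψ.1 a • ∑ I with chr I = ψ.1, G I = ∑ I, chr I a • G I := by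
        rw [Finset.sum_coe_sort S fun ψ => ψ a • ∑ I with chr I = ψ, G I]
        rw [← Finset.sum_fiberwise_of_maps_to (t := S) (g := fun I : κ → Wt Y.X L => chr I)
          (fun I _ => Finset.mem_image_of_mem _ (Finset.mem_univ I))]
        refine Finset.sum_congr rfl fun ψ _ => ?_
        rw [Finset.smul_sum]
        refine Finset.sum_congr rfl fun I hI => ?_
        rw [(Finset.mem_filter.1 hI).2]
      rw [h3]
      exact hsum a)
    ⟨chr I, Finset.mem_image_of_mem _ (Finset.mem_univ I)⟩
    (fun ψ hψ => Or.inl (Subtype.ext hψ))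
  dsimp only at h2
  have h3 : ∑ K with chr K = chr I, G K = ((Fintype.card (Equiv.Perm κ) : ℕ) : L) • G I := by
    have h4 : ∑ K with chr K = chr I, G K = ∑ σ : Equiv.Perm κ, G (I ∘ σ) := by
      refine (Finset.sum_bij (fun σ _ => I ∘ (σ : Equiv.Perm κ)) ?_ ?_ ?_ ?_).symm
      · intro σ _
        refine Finset.mem_filter.2 ⟨Finset.mem_univ _, MonoidHom.ext fun a => ?_⟩
        rw [chr_apply, chr_apply]
        exact Fintype.prod_equiv σ _ _ fun k => rfl
      · intro σ _ τ _ h
        exact Equiv.ext fun k => hI (congrFun h k)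
      · intro K hK
        obtain ⟨σ, hσ⟩ := exists_perm hI (Finset.mem_filter.1 hK).2
        exact ⟨σ, Finset.mem_univ _, hσ.symm⟩
      · intro σ _
        rfl
    have h5 : ∀ σ : Equiv.Perm κ, G (I ∘ σ) = G I := by
      intro σ
      have hs : ((Equiv.Perm.sign σ : ℤ) : Ω) * ((Equiv.Perm.sign σ : ℤ) : Ω) = 1 := by
        rw [← Int.cast_mul, ← Units.val_mul, Int.units_mul_self, Units.val_one, Int.cast_one]
      have e1 : (z fun k => e ((I ∘ σ) k)) = ((Equiv.Perm.sign σ : ℤ) : Ω) * z fun k => e (I k) := by
        have := z.map_perm (fun k => e (I k)) σ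
        rw [Units.smul_def, zsmul_eq_mul] at this
        exact this
      have e2 : (z fun k => e (bar ((I ∘ σ) k))) = ((Equiv.Perm.sign σ : ℤ) : Ω) *
          z fun k => e (bar (I k)) := by
        have := z.map_perm (fun k => e (bar (I k))) σ
        rw [Units.smul_def, zsmul_eq_mul] at this
        exact this
      ext v
      · change (z fun k => e ((I ∘ σ) k)) * jO (mono (I ∘ σ) v) =
          (z fun k => e (I k)) * jO (mono I v)
        rw [e1, mono_perm, map_mul, map_intCast]
        linear_combination (z fun k => e (I k)) * jO (mono I v) * hs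
      · change (z fun k => e (bar ((I ∘ σ) k))) * jO (cc L (mono (I ∘ σ) v)) =
          (z fun k => e (bar (I k))) * jO (cc L (mono I v))
        rw [e2, mono_perm, map_mul, map_intCast, map_mul, map_intCast]
        linear_combination (z fun k => e (bar (I k))) * jO (cc L (mono I v)) * hs
    rw [h4, Finset.sum_congr rfl fun σ _ => h5 σ, Finset.sum_const, Finset.card_univ,
      Nat.cast_smul_eq_nsmul]
  rw [h3] at h2
  have h4 : ((Fintype.card (Equiv.Perm κ) : ℕ) : L) ≠ 0 := Nat.cast_ne_zero.2 Fintype.card_ne_zero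
  have h5 := Submodule.smul_mem _ (((Fintype.card (Equiv.Perm κ) : ℕ) : L))⁻¹ h2
  rwa [smul_smul, inv_mul_cancel₀ h4, one_smul] at h5

end

end Pool.Agent.TH117.PO
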