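import Pool.Agent.W495.TA.Defs
import Pool.Agent.W547.HR.Defs

/-!
# Systems of rational classes of cycles on abelian varieties over finite fields, compatible
polarizations, and positivity of primitive classes: definitions
-/

set_option autoImplicit false

namespace Pool.Agent.TH117.PO

open NumberField Pool.Agent.H204R3.CM Pool.Agent.W547.KB Pool.Agent.W547.LD Pool.Agent.W547.HR
  Pool.Agent.W495.TA Module
open scoped TensorProduct

/-- The form `E (x, y) = ∑ i, Tr (α i * conj (x i) * y i)` on the rational homology of an abelian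
variety of CM type. -/
noncomputable def riemannForm (X : CMAV) (α x y : X.H1) : ℚ :=
  ∑ i, Algebra.trace ℚ (X.factor i).E
    (α i * IsCMField.complexConj (X.factor i).E (x i) * y i)

/-- The form `riemannForm X α` is the Riemann form of a polarization of `X` (compatible with the complex
multiplications): for each embedding in the CM type the number `α i` is mapped to a positive multiple
of the imaginary unit. By theorems of Honda, Tate and Zink each polarized abelian variety over an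
algebraic closure of a finite field is isogenous to the reduction of such a polarized `X`. -/
def IsPolar (X : CMAV) (α : X.H1) : Prop :=
  ∀ i, ∀ φ ∈ (X.factor i).Φ, (φ (α i)).re = 0 ∧ 0 < (φ (α i)).im

variable {p : ℕ} [Fact p.Prime] {ν : PadicAlgCl p ≃+* ℂ} (Ω : Type) [Field Ω] [CharZero Ω]

/-- The restriction of a form on the Tate module `Ω ⊗ H_1(X, ℚ)` to `H_1(X, ℚ)` (it determines the
form). -/
def res {Ω : Type} [Field Ω] [CharZero Ω] {Y : RedAV p ν} {κ : Type} (z : (TM Ω Y) [⋀^κ]→ₗ[Ω] Ω)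
    (v : κ → Y.X.H1) : Ω :=
  z fun k => 1 ⊗ₜ[ℚ] v k

/-- First properties of the `ℚ`-vector spaces `C Y κ` of the classes of algebraic cycles with rational
coefficients on the abelian varieties `Y` over an algebraic closure of the field with `p` elements
(in the degree `card κ`; the Tate twists are trivialized): sums and cup products. -/
structure IsLinearSystem
    (C : (Y : RedAV p ν) → (κ : Type) → ((TM Ω Y) [⋀^κ]→ₗ[Ω] Ω) → Prop) : Prop where
  zero : ∀ Y κ, C Y κ 0
  add : ∀ {Y κ} (f g), C Y κ f → C Y κ g → C Y κ (f + g)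
  smul : ∀ {Y κ} (a : ℚ) (f), C Y κ f → C Y κ ((a : Ω) • f)
  /-- renaming of the variables -/
  reindex : ∀ {Y} {κ κ' : Type} (e : κ ≃ κ') (f), C Y κ f → C Y κ' (f.domDomCongr e)
  /-- rational classes of degree zero -/
  unit : ∀ {Y} {κ : Type} [IsEmpty κ] (f : (TM Ω Y) [⋀^κ]→ₗ[Ω] Ω), (∀ v, f v = 1) → C Y κ f
  /-- cup products (up to a factor) -/
  cup : ∀ {Y} {κ κ' : Type} [Fintype κ] [DecidableEq κ] [Fintype κ'] [DecidableEq κ']
    (f : (TM Ω Y) [⋀^κ]→ₗ[Ω] Ω) (g : (TM Ω Y) [⋀^κ']→ₗ[Ω] Ω), C Y κ f → C Y κ' g →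
    ∀ h : (TM Ω Y) [⋀^κ ⊕ κ']→ₗ[Ω] Ω, (∀ v, h v = altSum (times f g) v) → C Y (κ ⊕ κ') h

/-- Further properties of these `ℚ`-vector spaces: pull-backs, push-forwards and the degree. -/
structure IsStableSystem
    (C : (Y : RedAV p ν) → (κ : Type) → ((TM Ω Y) [⋀^κ]→ₗ[Ω] Ω) → Prop) : Prop where
  /-- pull-back along homomorphisms of the liftings -/
  pull : ∀ {Y Z : RedAV p ν} {κ : Type} (h : Y.X.H1 →ₗ[ℚ] Z.X.H1), IsHom Y.X Z.X h →
    ∀ f, C Z κ f → C Y κ (f.compLinearMap (h.baseChange Ω))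
  /-- push-forward along the projection to `Y` of a variety `Z` isogenous to `Y × Y'`, for the
  liftings: insert a rational basis of the homology of `Y'` -/
  push : ∀ {Y Y' Z : RedAV p ν} {κ κ' : Type} (h : Y.X.H1 →ₗ[ℚ] Z.X.H1)
    (h' : Y'.X.H1 →ₗ[ℚ] Z.X.H1), IsHom Y.X Z.X h → IsHom Y'.X Z.X h' →
    Function.Bijective (fun v : Y.X.H1 × Y'.X.H1 => h v.1 + h' v.2) →
    ∀ (b : Basis κ' ℚ Y'.X.H1) (f : (TM Ω Z) [⋀^κ ⊕ κ']→ₗ[Ω] Ω) (g : (TM Ω Y) [⋀^κ]→ₗ[Ω] Ω),
    C Z (κ ⊕ κ') f →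
    (∀ v, res g v = res f (Sum.elim (fun k => h (v k)) (fun k => h' (b k)))) → C Y κ g
  /-- in the top degree the classes are rational -/
  top : ∀ {Y κ} (f), Nat.card κ = finrank ℚ Y.X.H1 → C Y κ f → ∀ v, ∃ a : ℚ, res f v = a

/-- Properties of the `ℚ`-vector spaces `C Y κ` of the classes of algebraic cycles with rational
coefficients on the abelian varieties `Y` over an algebraic closure of the field with `p` elements
(in the degree `card κ`; the Tate twists are trivialized), for an algebraic closure `Ω` of the field of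
`ℓ`-adic numbers: the formal properties, and which classes are known to be classes of cycles. -/
structure IsCycleSystem
    (C : (Y : RedAV p ν) → (κ : Type) → ((TM Ω Y) [⋀^κ]→ₗ[Ω] Ω) → Prop) : Prop
    extends IsLinearSystem Ω C, IsStableSystem Ω C where
  /-- Tate classes of degree two are linear combinations of classes of divisors (Tate) -/
  divisor : ∀ {Y} {s : ℕ} (f : (TM Ω Y) [⋀^Fin 2]→ₗ[Ω] Ω), 0 < s → IsTateClass Ω Y s 1 f →
    f ∈ Submodule.span Ω {g | C Y (Fin 2) g}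
  /-- the rational Hodge classes of degree two of the lifting (Lefschetz) -/
  hodge : ∀ {Y} (f : Y.X.H1 [⋀^Fin 2]→ₗ[ℚ] ℚ), IsHodge Y.X.per f →
    ∀ g, (∀ v, res g v = (f v : Ω)) → C Y (Fin 2) g
  /-- the split Weil classes of the lifting, in the dimensions four and six (Markman) -/
  weil : ∀ {Y} {n : ℕ}, n = 4 ∨ n = 6 → ∀ f : Y.X.H1 [⋀^Fin n]→ₗ[ℚ] ℚ, IsSplitWeilClass Y.X n f →
    ∀ g, (∀ v, res g v = (f v : Ω)) → C Y (Fin n) g

/-- The classes of algebraic cycles are Tate classes over finite extensions. -/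
def AreTate (C : (Y : RedAV p ν) → (κ : Type) → ((TM Ω Y) [⋀^κ]→ₗ[Ω] Ω) → Prop) : Prop :=
  ∀ {Y} {m : ℕ} (f), C Y (Fin (2 * m)) f → ∃ s, 0 < s ∧ IsTateClass Ω Y s m f

/-- The positivity of the Rosati involution (Weil): the trace of the square of the endomorphism
belonging to a class `u` of degree two and to a compatible polarization is a rational number `≥ 0`. -/
def IsRosatiPositive (C : (Y : RedAV p ν) → (κ : Type) → ((TM Ω Y) [⋀^κ]→ₗ[Ω] Ω) → Prop) : Prop :=
  ∀ {Y} (α), IsPolar Y.X α → ∀ θ : (TM Ω Y) [⋀^Fin 2]→ₗ[Ω] Ω,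
    (∀ x y, res θ ![x, y] = (riemannForm Y.X α x y : Ω)) → ∀ u, C Y (Fin 2) u →
    ∀ T : TM Ω Y →ₗ[Ω] TM Ω Y, (∀ x y, θ ![T x, y] = u ![x, y]) →
    ∃ a : ℚ, 0 ≤ a ∧ LinearMap.trace Ω _ (T ∘ₗ T) = a

/-- The cycle `z` is numerically equivalent to zero. -/
def IsNumTrivial (C : (Y : RedAV p ν) → (κ : Type) → ((TM Ω Y) [⋀^κ]→ₗ[Ω] Ω) → Prop)
    {Y : RedAV p ν} {κ : Type} [Fintype κ] [DecidableEq κ] (z : (TM Ω Y) [⋀^κ]→ₗ[Ω] Ω) : Prop :=
  ∀ (κ' : Type) [Fintype κ'] [DecidableEq κ'] (y : (TM Ω Y) [⋀^κ']→ₗ[Ω] Ω), C Y κ' y →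
    Fintype.card κ + Fintype.card κ' = finrank ℚ Y.X.H1 →
      ∀ v : κ ⊕ κ' → Y.X.H1, altSum (times (res z) (res y)) v = 0

/-- `z ∈ H^{2r}(Y)` is primitive for the polarization given by `α`, `dim Y = 2 r + m`: the cup product of
`z` with the power `m + 1` of the class of the polarization is zero. -/
def IsPrim {Ω : Type} [Field Ω] [CharZero Ω] {Y : RedAV p ν} (α : Y.X.H1) {κ : Type} [Fintype κ]
    [DecidableEq κ] (m : ℕ) (z : (TM Ω Y) [⋀^κ]→ₗ[Ω] Ω) : Prop :=
  ∀ v, altSum (times (res z) (powE (castE Ω (riemannForm Y.X α)) (m + 1))) v = 0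

/-- The positivity of the standard conjecture of Hodge type for `z ∈ H^{2r}(Y)`, `dim Y = 2 r + m`:
`(-1)^r z ∪ z ∪ E^m` is a positive rational multiple of the top power `E^{2 r + m}` of the class `E` of
the polarization given by `α` (both up to positive factors that depend only on `r` and `m`). -/
def IsPosClass {Ω : Type} [Field Ω] [CharZero Ω] {Y : RedAV p ν} (α : Y.X.H1) {r : ℕ} (m : ℕ)
    (z : (TM Ω Y) [⋀^Fin r × Fin 2]→ₗ[Ω] Ω) : Prop :=
  ∃ c : ℚ, 0 < c ∧ ∀ v,
    (-1) ^ r * altSum (times (res z) (times (res z)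
        (powE (castE Ω (riemannForm Y.X α)) m))) v =
      (c : Ω) * altSum (times (powE (castE Ω (riemannForm Y.X α)) r)
        (times (powE (castE Ω (riemannForm Y.X α)) r)
          (powE (castE Ω (riemannForm Y.X α)) m))) v

end Pool.Agent.TH117.PO
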