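import Pool.Agent.TH117.PO.Polar

/-!
# Classes of degree two are positive
-/

set_option autoImplicit false
set_option linter.unusedSectionVars false
set_option linter.unusedVariables false

namespace Pool.Agent.TH117.PO

open NumberField Pool.Agent.H204R3.CM Pool.Agent.W547.KB Pool.Agent.W547.LD Pool.Agent.W547.HR
  Pool.Agent.W495.TA Module Pool.Agent.W976.TA
open scoped TensorProduct

noncomputable section

variable {L : Type} [Field L] [NumberField L] [IsCMField L] [IsGalois ℚ L]

section density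

/-- Conjugation-symmetric functions of the weights are limits of rational vectors. -/
theorem exists_near (j : L →+* ℂ) {X : CMAV} (hB : Big X j) (f : Wt X L → ℂ)
    (hf : ∀ w, f (bar w) = starRingEnd ℂ (f w)) {ε : ℝ} (hε : 0 < ε) :
    ∃ x : X.H1, ∀ w : Wt X L, ‖j (ev x w) - f w‖ < ε := by
  choose φ hφ using hB
  obtain ⟨x, hx⟩ := exists_approx X (fun i ψ => f ⟨i, φ i ψ.1⟩) hε
  have h1 : ∀ w : Wt X L, (1 : L ≃ₐ[ℚ] L) ∈ St j w → ‖j (ev x w) - f w‖ < ε := by
    intro w hw
    have h2 := hx w.1 ⟨j.comp w.2, (comp_mem_iff j w).1 hw⟩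
    have h3 : φ w.1 (j.comp w.2) = w.2 := by
      ext a
      exact j.injective (RingHom.congr_fun (hφ w.1 (j.comp w.2)) a)
    rw [h3] at h2
    exact h2
  refine ⟨x, fun w => ?_⟩
  by_cases hw : (1 : L ≃ₐ[ℚ] L) ∈ St j w
  · exact h1 w hw
  · have h2 := h1 (bar w) ((one_mem_bar j w).2 hw)
    have h3 : j (ev x (bar w)) - f (bar w) = starRingEnd ℂ (j (ev x w) - f w) := by
      rw [hf, map_sub, ← emb_cc]
      rfl
    rw [h3, RCLike.norm_conj] at h2
    exact h2

theorem exists_seq (j : L →+* ℂ) {X : CMAV} (hB : Big X j) (f : Wt X L → ℂ)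
    (hf : ∀ w, f (bar w) = starRingEnd ℂ (f w)) :
    ∃ x : ℕ → X.H1, ∀ w : Wt X L,
      Filter.Tendsto (fun n => j (ev (x n) w)) Filter.atTop (nhds (f w)) := by
  have h1 : ∀ n : ℕ, ∃ x : X.H1, ∀ w : Wt X L, ‖j (ev x w) - f w‖ < 1 / ((n : ℝ) + 1) :=
    fun n => exists_near j hB f hf (by positivity)
  choose x hx using h1
  refine ⟨x, fun w => ?_⟩
  rw [tendsto_iff_norm_sub_tendsto_zero]
  exact squeeze_zero (fun n => norm_nonneg _) (fun n => (hx n w).le)
    tendsto_one_div_add_atTop_nhds_zero_nat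

/-- The quadratic form is positive at each pair. -/
theorem nonneg_of_forms (j : L →+* ℂ) {X : CMAV} (hB : Big X j)
    (r : Wt X L → Wt X L → ℝ) (hr : ∀ w v, r v w = r w v) (hr' : ∀ w v, r (bar w) (bar v) = r w v)
    (h : ∀ a b c d : X.H1, 0 ≤ ∑ w : Wt X L, ∑ v : Wt X L,
      ‖j (ev a w * ev b v + ev b w * ev a v - ev c w * ev d v - ev d w * ev c v)‖ ^ 2 * r w v)
    (w0 v0 : Wt X L) (hne : w0 ≠ v0) : 0 ≤ r w0 v0 := by
  classical
  have hbar : ∀ w : Wt X L, bar w ≠ w := by
    intro w hw
    have h1 := sgn_bar j w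
    rw [hw] at h1
    have h2 := sgn_ne j w
    apply h2
    linear_combination h1 / 2
  -- the functions
  let A : Wt X L → Wt X L → ℂ := fun w0 w => if w = w0 then 1 else if w = bar w0 then 1 else 0
  let B : Wt X L → Wt X L → ℂ := fun w0 w =>
    if w = w0 then Complex.I else if w = bar w0 then -Complex.I else 0
  have hbb : ∀ w u : Wt X L, bar w = u ↔ w = bar u := by
    intro w u
    constructor
    · rintro rfl
      exact (bar_bar w).symm
    · rintro rfl
      exact bar_bar u
  have hA : ∀ u w, A u (bar w) = starRingEnd ℂ (A u w) := by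
    intro u w
    simp only [A]
    by_cases h1 : w = u
    · subst h1
      rw [if_neg (hbar w), if_pos rfl, if_pos rfl, map_one]
    · by_cases h2 : w = bar u
      · rw [if_pos ((hbb w u).2 h2), if_neg h1, if_pos h2, map_one]
      · rw [if_neg fun h3 => h2 ((hbb w u).1 h3), if_neg fun h3 => h1 (bar_injective h3), if_neg h1,
          if_neg h2, map_zero]
  have hB' : ∀ u w, B u (bar w) = starRingEnd ℂ (B u w) := by
    intro u w
    simp only [B]
    by_cases h1 : w = u
    · subst h1
      rw [if_neg (hbar w), if_pos rfl, if_pos rfl, Complex.conj_I]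
    · by_cases h2 : w = bar u
      · rw [if_pos ((hbb w u).2 h2), if_neg h1, if_pos h2, map_neg, Complex.conj_I, neg_neg]
      · rw [if_neg fun h3 => h2 ((hbb w u).1 h3), if_neg fun h3 => h1 (bar_injective h3), if_neg h1,
          if_neg h2, map_zero]
  let δ : Wt X L → Wt X L → ℝ := fun u w => if w = u then 1 else 0
  have hAB : ∀ u v w w' : Wt X L, A u w * A v w' - B u w * B v w' =
      ((2 * (δ u w * δ v w' + δ (bar u) w * δ (bar v) w') : ℝ) : ℂ) := by
    intro u v w w'
    simp only [A, B, δ]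
    by_cases h1 : w = u
    · subst h1
      have h2 : w ≠ bar w := fun h => hbar w h.symm
      rw [if_pos rfl, if_pos rfl, if_pos rfl, if_neg h2]
      by_cases h3 : w' = v
      · subst h3
        have h4 : w' ≠ bar w' := fun h => hbar w' h.symm
        rw [if_pos rfl, if_pos rfl, if_pos rfl, if_neg h4, Complex.I_mul_I]
        push_cast
        ring
      · rw [if_neg h3, if_neg h3, if_neg h3]
        by_cases h4 : w' = bar v
        · rw [if_pos h4, if_pos h4, if_pos h4, mul_neg, Complex.I_mul_I]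
          push_cast
          ring
        · rw [if_neg h4, if_neg h4, if_neg h4]
          push_cast
          ring
    · rw [if_neg h1, if_neg h1, if_neg h1]
      by_cases h2 : w = bar u
      · rw [if_pos h2, if_pos h2, if_pos h2]
        by_cases h3 : w' = v
        · subst h3
          have h4 : w' ≠ bar w' := fun h => hbar w' h.symm
          rw [if_pos rfl, if_pos rfl, if_pos rfl, if_neg h4, neg_mul, Complex.I_mul_I]
          push_cast
          ring
        · rw [if_neg h3, if_neg h3, if_neg h3]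
          by_cases h4 : w' = bar v
          · rw [if_pos h4, if_pos h4, if_pos h4, neg_mul_neg, Complex.I_mul_I]
            push_cast
            ring
          · rw [if_neg h4, if_neg h4, if_neg h4]
            push_cast
            ring
      · rw [if_neg h2, if_neg h2, if_neg h2]
        push_cast
        ring
  obtain ⟨a, ha⟩ := exists_seq j hB (A w0) (hA w0)
  obtain ⟨b, hb⟩ := exists_seq j hB (A v0) (hA v0)
  obtain ⟨c, hc⟩ := exists_seq j hB (B w0) (hB' w0)
  obtain ⟨d, hd⟩ := exists_seq j hB (B v0) (hB' v0)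
  let lam : Wt X L → Wt X L → ℝ := fun w w' =>
    2 * (δ w0 w * δ v0 w' + δ (bar w0) w * δ (bar v0) w') +
      2 * (δ v0 w * δ w0 w' + δ (bar v0) w * δ (bar w0) w')
  have hlim : ∀ w w' : Wt X L, Filter.Tendsto (fun n => ‖j (ev (a n) w * ev (b n) w' +
      ev (b n) w * ev (a n) w' - ev (c n) w * ev (d n) w' - ev (d n) w * ev (c n) w')‖ ^ 2 * r w w')
      Filter.atTop (nhds ((lam w w') ^ 2 * r w w')) := by
    intro w w'
    have h1 : Filter.Tendsto (fun n => j (ev (a n) w) * j (ev (b n) w') +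
        j (ev (b n) w) * j (ev (a n) w') - j (ev (c n) w) * j (ev (d n) w') -
        j (ev (d n) w) * j (ev (c n) w')) Filter.atTop (nhds (A w0 w * A v0 w' + A v0 w * A w0 w' -
        B w0 w * B v0 w' - B v0 w * B w0 w')) :=
      ((((ha w).mul (hb w')).add ((hb w).mul (ha w'))).sub ((hc w).mul (hd w'))).sub
        ((hd w).mul (hc w'))
    have h2 : A w0 w * A v0 w' + A v0 w * A w0 w' - B w0 w * B v0 w' - B v0 w * B w0 w' =
        ((lam w w' : ℝ) : ℂ) := by
      have e1 := hAB w0 v0 w w'
      have e2 := hAB v0 w0 w w'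
      simp only [lam]
      rw [Complex.ofReal_add, ← e1, ← e2]
      ring
    rw [h2] at h1
    have h3 := (h1.norm.pow 2).mul_const (r w w')
    rw [Complex.norm_real, Real.norm_eq_abs, sq_abs] at h3
    refine h3.congr fun n => ?_
    simp only [map_add, map_sub, map_mul]
  have hsum : Filter.Tendsto (fun n => ∑ w : Wt X L, ∑ w' : Wt X L, ‖j (ev (a n) w * ev (b n) w' +
      ev (b n) w * ev (a n) w' - ev (c n) w * ev (d n) w' - ev (d n) w * ev (c n) w')‖ ^ 2 * r w w')
      Filter.atTop (nhds (∑ w : Wt X L, ∑ w' : Wt X L, (lam w w') ^ 2 * r w w')) :=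
    tendsto_finsetSum _ fun w _ => tendsto_finsetSum _ fun w' _ => hlim w w'
  have h1 : 0 ≤ ∑ w : Wt X L, ∑ w' : Wt X L, (lam w w') ^ 2 * r w w' :=
    ge_of_tendsto' hsum fun n => h _ _ _ _
  have h2 : ∀ w w' : Wt X L, (lam w w') ^ 2 * r w w' = (lam w w') ^ 2 * r w0 v0 := by
    intro w w'
    by_cases e1 : w = w0 ∧ w' = v0
    · rw [e1.1, e1.2]
    by_cases e2 : w = bar w0 ∧ w' = bar v0
    · have e5 : r w w' = r w0 v0 := by rw [e2.1, e2.2, hr']
      rw [e5]
    by_cases e3 : w = v0 ∧ w' = w0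
    · have e5 : r w w' = r w0 v0 := by rw [e3.1, e3.2, hr]
      rw [e5]
    by_cases e4 : w = bar v0 ∧ w' = bar w0
    · have e5 : r w w' = r w0 v0 := by rw [e4.1, e4.2, hr', hr]
      rw [e5]
    · have h3 : ∀ u v : Wt X L, ¬ (w = u ∧ w' = v) → δ u w * δ v w' = 0 := by
        intro u v huv
        simp only [δ]
        by_cases h4 : w = u
        · rw [if_neg fun h5 => huv ⟨h4, h5⟩, mul_zero]
        · rw [if_neg h4, zero_mul]
      have h4 : lam w w' = 0 := by
        simp only [lam]
        rw [h3 _ _ e1, h3 _ _ e2, h3 _ _ e3, h3 _ _ e4]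
        ring
      rw [h4]
      ring
  rw [Finset.sum_congr rfl fun w _ => Finset.sum_congr rfl fun w' _ => h2 w w'] at h1
  simp only [← Finset.sum_mul] at h1
  have h3 : 0 < ∑ w : Wt X L, ∑ w' : Wt X L, (lam w w') ^ 2 := by
    refine Finset.sum_pos' (fun w _ => Finset.sum_nonneg fun w' _ => sq_nonneg _)
      ⟨w0, Finset.mem_univ _, Finset.sum_pos' (fun w' _ => sq_nonneg _)
        ⟨v0, Finset.mem_univ _, ?_⟩⟩
    have hδ : ∀ u w, 0 ≤ δ u w := by
      intro u w
      simp only [δ]
      split_ifs <;> norm_num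
    have h4 : δ w0 w0 * δ v0 v0 = 1 := by
      simp only [δ]
      simp
    have h5 := mul_nonneg (hδ (bar w0) w0) (hδ (bar v0) v0)
    have h6 := mul_nonneg (hδ v0 w0) (hδ w0 v0)
    have h7 := mul_nonneg (hδ (bar v0) w0) (hδ (bar w0) v0)
    have h8 : 0 < lam w0 v0 := by
      simp only [lam]
      rw [h4]
      linarith
    exact pow_pos h8 2
  by_contra hcon
  push Not at hcon
  have h4 := mul_neg_of_pos_of_neg h3 hcon
  linarith

end density

end

end Pool.Agent.TH117.PO
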