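import Pool.Agent.TH117.PO.Deg2

/-!
# Classes of degree two are positive: the trace form
-/

set_option autoImplicit false
set_option linter.unusedSectionVars false
set_option linter.unusedVariables false

namespace Pool.Agent.TH117.PO

open NumberField Pool.Agent.H204R3.CM Pool.Agent.W547.KB Pool.Agent.W547.LD Pool.Agent.W547.HR
  Pool.Agent.W495.TA Module Pool.Agent.W976.TA
open scoped TensorProduct

noncomputable section

variable {L : Type} [Field L] [NumberField L] [IsCMField L] [IsGalois ℚ L]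
  {p : ℕ} [Fact p.Prime] {ν : PadicAlgCl p ≃+* ℂ} {Ω : Type} [Field Ω] [CharZero Ω]
  {jO : L →+* Ω} {C : (Y : RedAV p ν) → (κ : Type) → ((TM Ω Y) [⋀^κ]→ₗ[Ω] Ω) → Prop}
  {j : L →+* ℂ} {Y : RedAV p ν}
  (e : Basis (Wt Y.X L) Ω (TM Ω Y)) (h1 : ∀ w, co jO w (e w) = 1)
  (h0 : ∀ w w', w ≠ w' → co jO w (e w') = 0)

include h1 h0

theorem apply_pair (u : (TM Ω Y) [⋀^Fin 2]→ₗ[Ω] Ω) (x y : TM Ω Y) :
    u ![x, y] = ∑ w : Wt Y.X L, ∑ v : Wt Y.X L, co jO w x * co jO v y * u ![e w, e v] := by
  classical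
  rw [Pool.Agent.TH117.BL.apply_sum jO e h1 h0 u ![x, y], ← Finset.sum_product']
  refine Fintype.sum_equiv (finTwoArrowEquiv (Wt Y.X L)) _ _ fun I => ?_
  rw [Fin.prod_univ_two]
  have h2 : (fun k => e (I k)) = ![e (I 0), e (I 1)] := by
    funext k
    fin_cases k <;> rfl
  rw [h2]
  rfl

theorem co_mulA (a : Y.X.H1) (w : Wt Y.X L) (x : TM Ω Y) :
    co jO w ((mulA a).baseChange Ω x) = jO (ev a w) * co jO w x := by
  induction x using TensorProduct.induction_on with
  | zero => simp
  | tmul c x =>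
    rw [LinearMap.baseChange_tmul, Pool.Agent.W67.TA.co_tmul, Pool.Agent.W67.TA.co_tmul]
    have h2 : w.2 ((mulA a x) w.1) = ev a w * w.2 (x w.1) := ev_mulA a x w
    rw [h2, map_mul]
    ring
  | add x y hx hy => rw [map_add, map_add, map_add, hx, hy, mul_add]

theorem mulA_e (a : Y.X.H1) (w : Wt Y.X L) :
    (mulA a).baseChange Ω (e w) = jO (ev a w) • e w := by
  refine e.ext_elem fun v => ?_
  rw [Pool.Agent.TH117.BL.repr_eq jO e h1 h0, Pool.Agent.TH117.BL.repr_eq jO e h1 h0,
    co_mulA e h1 h0, map_smul, smul_eq_mul]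
  by_cases hv : v = w
  · subst hv
    rfl
  · rw [h0 v w hv, mul_zero, mul_zero]

theorem apply_mulA (u : (TM Ω Y) [⋀^Fin 2]→ₗ[Ω] Ω) (a : Y.X.H1) (w v : Wt Y.X L) :
    (u.compLinearMap ((mulA a).baseChange Ω)) ![e w, e v] =
      jO (ev a w * ev a v) * u ![e w, e v] := by
  have h2 : (u.compLinearMap ((mulA a).baseChange Ω)) ![e w, e v] =
      u (fun k => (![jO (ev a w), jO (ev a v)] k) • (![e w, e v] k)) := by
    rw [AlternatingMap.compLinearMap_apply]
    congr 1
    funext k
    fin_cases k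
    · exact mulA_e e h1 h0 a w
    · exact mulA_e e h1 h0 a v
  rw [h2]
  have h3 := u.toMultilinearMap.map_smul_univ ![jO (ev a w), jO (ev a v)] ![e w, e v]
  rw [Fin.prod_univ_two, smul_eq_mul] at h3
  rw [map_mul]
  exact h3

omit h1 h0 in
theorem swap_pair (u : (TM Ω Y) [⋀^Fin 2]→ₗ[Ω] Ω) (x y : TM Ω Y) : u ![y, x] = -u ![x, y] := by
  have h2 := u.map_swap ![x, y] (i := 0) (j := 1) (by decide)
  rw [← h2]
  congr 1
  funext k
  fin_cases k <;> rfl

variable (hC : IsCycleSystem Ω C)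
include hC

theorem trace_form (hR : IsRosatiPositive Ω C) (hB : Big Y.X j) {α : Y.X.H1} (hα : IsPolar Y.X α)
    {u : (TM Ω Y) [⋀^Fin 2]→ₗ[Ω] Ω} (hu : C Y (Fin 2) u) :
    ∃ a : ℚ, 0 ≤ a ∧ ∑ w : Wt Y.X L, ∑ v : Wt Y.X L,
      u ![e w, e v] * u ![e (bar w), e (bar v)] /
        (jO (ev α (bar w)) * jO (ev α (bar v))) = (a : Ω) := by
  classical
  obtain ⟨θ, hθ⟩ := exists_theta (jO := jO) j hα
  let T : TM Ω Y →ₗ[Ω] TM Ω Y := e.constr Ω fun w =>
    ∑ v, (u ![e w, e (bar v)] / jO (ev α (bar v))) • e v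
  have ha0 : ∀ w : Wt Y.X L, jO (ev α w) ≠ 0 := fun w => (map_ne_zero jO).2 (ev_polar_ne j hα w)
  have hco : ∀ w v : Wt Y.X L, co jO v (T (e w)) = u ![e w, e (bar v)] / jO (ev α (bar v)) := by
    intro w v
    simp only [T]
    rw [Basis.constr_basis, map_sum, Finset.sum_eq_single v]
    · rw [map_smul, h1, smul_eq_mul, mul_one]
    · intro v' _ hne
      rw [map_smul, h0 v v' hne.symm, smul_zero]
    · intro h
      exact absurd (Finset.mem_univ v) h
  have hcoT : ∀ (x : TM Ω Y) (v : Wt Y.X L), co jO v (T x) =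
      ∑ w, co jO w x * (u ![e w, e (bar v)] / jO (ev α (bar v))) := by
    intro x v
    conv_lhs => rw [Pool.Agent.TH117.BL.rep_sum jO e h1 h0 x]
    rw [map_sum, map_sum]
    refine Finset.sum_congr rfl fun w _ => ?_
    rw [map_smul, map_smul, hco, smul_eq_mul]
  have hT : ∀ x y, θ ![T x, y] = u ![x, y] := by
    intro x y
    rw [hθ, apply_pair e h1 h0 u x y, Finset.sum_comm]
    refine Finset.sum_congr rfl fun v _ => ?_
    rw [hcoT, bar_bar, Finset.sum_mul, Finset.mul_sum]
    refine Finset.sum_congr rfl fun w _ => ?_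
    have := ha0 v
    field_simp
  obtain ⟨a, ha, ha2⟩ := hR α hα θ (res_theta j hB hθ) u hu T hT
  refine ⟨a, ha, ?_⟩
  rw [← ha2, LinearMap.trace_eq_matrix_trace Ω e, Matrix.trace]
  refine Finset.sum_congr rfl fun w _ => ?_
  rw [Matrix.diag_apply, LinearMap.toMatrix_apply, Pool.Agent.TH117.BL.repr_eq jO e h1 h0,
    LinearMap.comp_apply, hcoT]
  refine Fintype.sum_equiv (Function.Involutive.toPerm bar bar_bar) _ _ fun v => ?_
  change _ = co jO (bar v) (T (e w)) * (u ![e (bar v), e (bar w)] / jO (ev α (bar w)))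
  rw [hco, bar_bar, swap_pair u (e (bar w)) (e (bar v)), ev_bar_polar j hα v, map_neg]
  have := ha0 v
  have := ha0 (bar w)
  field_simp

/-- The coefficients of a class of degree two are positive. -/
theorem pos_pair (hB : Big Y.X j) {z : (TM Ω Y) [⋀^Fin 2]→ₗ[Ω] Ω} (hz : C Y (Fin 2) z)
    {w0 v0 : Wt Y.X L} (hne : w0 ≠ v0) (hz1 : z ![e w0, e v0] ≠ 0)
    (hz2 : z ![e (bar w0), e (bar v0)] ≠ 0) : IsPos jO C j Y ![w0, v0] := by
  classical
  obtain ⟨α, hα⟩ := exists_polar Y.X
  have hinj : ∀ {w v : Wt Y.X L}, w ≠ v → Function.Injective ![w, v] := by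
    intro w v h k k' hk
    fin_cases k <;> fin_cases k'
    · rfl
    · exact absurd hk h
    · exact absurd hk.symm h
    · rfl
  have hvec : ∀ w v : Wt Y.X L, (fun k => e (![w, v] k)) = ![e w, e v] := by
    intro w v
    funext k
    fin_cases k <;> rfl
  have hvec' : ∀ w v : Wt Y.X L, (fun k => e (bar (![w, v] k))) = ![e (bar w), e (bar v)] := by
    intro w v
    funext k
    fin_cases k <;> rfl
  have hline : ∀ {w v : Wt Y.X L}, w ≠ v →
      Ln jO C Y ![w, v] (z ![e w, e v]) (z ![e (bar w), e (bar v)]) := by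
    intro w v h
    have := Ln_coef hC j hB e h1 h0 hz (hinj h)
    rwa [hvec, hvec'] at this
  have hm : ∀ w v : Wt Y.X L, ∃ m : L, z ![e w, e v] * z ![e (bar w), e (bar v)] = jO m ∧
      cc L m = m := by
    intro w v
    by_cases h : w = v
    · subst h
      refine ⟨0, ?_, map_zero _⟩
      have h3 : z ![e w, e w] = 0 := z.map_eq_zero_of_eq _ (i := 0) (j := 1) rfl (by decide)
      rw [h3, zero_mul, map_zero]
    · obtain ⟨l, h3, h4⟩ := two_lines hC j hB (hinj h) (hline h) (hline h)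
      refine ⟨l, h3, jO.injective ?_⟩
      rw [← h4, ← h3, mul_comm]
  choose m hm1 hm2 using hm
  have hm0 : m w0 v0 ≠ 0 := by
    intro h
    have h3 := hm1 w0 v0
    rw [h, map_zero] at h3
    exact mul_ne_zero hz1 hz2 h3
  refine ⟨_, _, m w0 v0, hline hne, hm1 w0 v0, mul_ne_zero ((map_ne_zero j).2 hm0)
    (Finset.prod_ne_zero_iff.2 fun k _ => sgn_ne j (![w0, v0] k)), fun hR => ?_⟩
  have hmsym : ∀ w v, m v w = m w v := by
    intro w v
    apply jO.injective
    rw [← hm1, ← hm1, swap_pair z (e w) (e v), swap_pair z (e (bar w)) (e (bar v)), neg_mul_neg]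
  have hmbar : ∀ w v, m (bar w) (bar v) = m w v := by
    intro w v
    apply jO.injective
    rw [← hm1, ← hm1, bar_bar, bar_bar, mul_comm]
  let q : Wt Y.X L → Wt Y.X L → L := fun w v => m w v / (ev α (bar w) * ev α (bar v))
  have hq : ∀ w v, cc L (q w v) = q w v := by
    intro w v
    simp only [q]
    rw [map_div₀, hm2, map_mul, cc_ev j hα, cc_ev j hα, neg_mul_neg]
  have hqj : ∀ w v, j (q w v) = (((j (q w v)).re : ℝ) : ℂ) := by
    intro w v
    refine (Complex.conj_eq_iff_re.1 ?_).symm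
    rw [← emb_cc, hq]
  have hr := nonneg_of_forms j hB (fun w v => (j (q w v)).re)
    (by
      intro w v
      simp only [q]
      rw [hmsym, mul_comm (ev α (bar v))])
    (by
      intro w v
      simp only [q]
      rw [hmbar, bar_bar, bar_bar, ev_bar_polar j hα, ev_bar_polar j hα, neg_mul_neg])
    (by
      intro a b c d
      let tr : Y.X.H1 → (TM Ω Y) [⋀^Fin 2]→ₗ[Ω] Ω := fun a =>
        z.compLinearMap ((mulA a).baseChange Ω)
      have htr : ∀ a, C Y (Fin 2) (tr a) := fun a => hC.pull (mulA a) (isHom_mulA a) z hz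
      have hneg : ∀ f, C Y (Fin 2) f → C Y (Fin 2) (-f) := by
        intro f hf
        have h3 := hC.smul (-1) f hf
        have h4 : (((-1 : ℚ)) : Ω) • f = -f := by
          refine AlternatingMap.ext fun v => ?_
          rw [AlternatingMap.smul_apply, AlternatingMap.neg_apply, smul_eq_mul, Rat.cast_neg,
            Rat.cast_one, neg_one_mul]
        rwa [h4] at h3
      let u : (TM Ω Y) [⋀^Fin 2]→ₗ[Ω] Ω :=
        (tr (a + b) + (-tr a + -tr b)) + -(tr (c + d) + (-tr c + -tr d))
      have hu : C Y (Fin 2) u :=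
        hC.add _ _ (hC.add _ _ (htr _) (hC.add _ _ (hneg _ (htr _)) (hneg _ (htr _))))
          (hneg _ (hC.add _ _ (htr _) (hC.add _ _ (hneg _ (htr _)) (hneg _ (htr _)))))
      let lam : Wt Y.X L → Wt Y.X L → L := fun w v =>
        ev a w * ev b v + ev b w * ev a v - ev c w * ev d v - ev d w * ev c v
      have hev : ∀ (x y : Y.X.H1) (w : Wt Y.X L), ev (x + y) w = ev x w + ev y w := fun x y w =>
        (evLin w).map_add x y
      have hu2 : ∀ w v, u ![e w, e v] = jO (lam w v) * z ![e w, e v] := by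
        intro w v
        have h3 : u ![e w, e v] = (tr (a + b) ![e w, e v] + (-tr a ![e w, e v] +
          -tr b ![e w, e v])) + -(tr (c + d) ![e w, e v] + (-tr c ![e w, e v] +
            -tr d ![e w, e v])) := rfl
        rw [h3]
        simp only [tr]
        rw [apply_mulA e h1 h0, apply_mulA e h1 h0, apply_mulA e h1 h0, apply_mulA e h1 h0,
          apply_mulA e h1 h0, apply_mulA e h1 h0]
        simp only [lam, hev, map_add, map_sub, map_mul]
        ring
      have hlam : ∀ w v, lam (bar w) (bar v) = cc L (lam w v) := by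
        intro w v
        simp only [lam, ev_bar, map_add, map_sub, map_mul]
      obtain ⟨A, hA, hA2⟩ := trace_form e h1 h0 hC hR hB hα hu
      have h3 : ∑ w : Wt Y.X L, ∑ v : Wt Y.X L, lam w v * cc L (lam w v) * q w v = (A : L) := by
        apply jO.injective
        rw [map_ratCast, ← hA2, map_sum]
        refine Finset.sum_congr rfl fun w _ => ?_
        rw [map_sum]
        refine Finset.sum_congr rfl fun v _ => ?_
        rw [hu2, hu2, hlam, map_mul, map_mul]
        simp only [q]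
        rw [map_div₀, map_mul jO (ev α (bar w)), ← hm1]
        ring
      have h4 := congrArg (fun x => (j x).re) h3
      simp only [map_sum, Complex.re_sum] at h4
      have h5 : ∀ w v, (j (lam w v * cc L (lam w v) * q w v)).re =
          ‖j (lam w v)‖ ^ 2 * (j (q w v)).re := by
        intro w v
        rw [map_mul, map_mul, emb_cc, Complex.mul_conj, Complex.normSq_eq_norm_sq,
          Complex.re_ofReal_mul]
      simp only [h5] at h4
      rw [h4, map_ratCast, Complex.ratCast_re]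
      exact_mod_cast hA)
    w0 v0 hne
  have hq0 : q w0 v0 ≠ 0 :=
    div_ne_zero hm0 (mul_ne_zero (ev_polar_ne j hα _) (ev_polar_ne j hα _))
  have hpos : PosC (j (q w0 v0)) := by
    refine ⟨(j (q w0 v0)).re, lt_of_le_of_ne hr ?_, hqj _ _⟩
    intro h
    have h3 := hqj w0 v0
    rw [← h, Complex.ofReal_zero] at h3
    exact hq0 (j.injective (by rw [h3, map_zero]))
  have h3 := hpos.mul ((polar_sign j hα w0).mul (polar_sign j hα v0))
  have h4 : j (q w0 v0) * (j (ev α (bar w0)) * sgn j w0 * (j (ev α (bar v0)) * sgn j v0)) =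
      j (m w0 v0) * ∏ k, sgn j (![w0, v0] k) := by
    rw [Fin.prod_univ_two]
    simp only [q, Matrix.cons_val_zero, Matrix.cons_val_one]
    rw [map_div₀, map_mul]
    have e1 : j (ev α (bar w0)) ≠ 0 := (map_ne_zero j).2 (ev_polar_ne j hα _)
    have e2 : j (ev α (bar v0)) ≠ 0 := (map_ne_zero j).2 (ev_polar_ne j hα _)
    field_simp
  rwa [h4] at h3

end

end Pool.Agent.TH117.PO
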