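import Pool.Agent.TH117.PO.Final

/-!
# Nondegeneracy: classes in `Alg` that are numerically equivalent to zero are zero
-/

set_option autoImplicit false
set_option linter.unusedSectionVars false
set_option linter.unusedVariables false

namespace Pool.Agent.TH117.PO

open NumberField Pool.Agent.H204R3.CM Pool.Agent.W547.KB Pool.Agent.W547.LD Pool.Agent.W547.HR
  Pool.Agent.W495.TA Module Pool.Agent.W976.TA Equiv
open scoped TensorProduct

noncomputable section

variable {p : ℕ} [Fact p.Prime] {ν : PadicAlgCl p ≃+* ℂ} {Ω : Type} [Field Ω] [CharZero Ω]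
  {C : (Y : RedAV p ν) → (κ : Type) → ((TM Ω Y) [⋀^κ]→ₗ[Ω] Ω) → Prop}
  {L : Type} [Field L] [NumberField L] [IsCMField L] [IsGalois ℚ L]
  {jO : L →+* Ω} {j : L →+* ℂ}

/-- The first components of the elements of the twisted span. -/
theorem fst_mem {Y : RedAV p ν} {κ : Type} {F : W jO Y κ} (hF : F ∈ V C jO Y κ) :
    ∃ f ∈ Submodule.span Ω {y | C Y κ y}, ∀ v, res f v = F.fst v := by
  unfold V at hF
  induction hF using Submodule.span_induction with
  | mem F hF =>
    obtain ⟨z, hz, rfl⟩ := hF
    exact ⟨z, Submodule.subset_span hz, fun v => rfl⟩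
  | zero => exact ⟨0, Submodule.zero_mem _, fun v => rfl⟩
  | add F G _ _ hF hG =>
    obtain ⟨f, hf, hf2⟩ := hF
    obtain ⟨g, hg, hg2⟩ := hG
    refine ⟨f + g, Submodule.add_mem _ hf hg, fun v => ?_⟩
    rw [W.add_fst, Pi.add_apply, ← hf2, ← hg2]
    rfl
  | smul l F _ hF =>
    obtain ⟨f, hf, hf2⟩ := hF
    refine ⟨jO l • f, Submodule.smul_mem _ _ hf, fun v => ?_⟩
    rw [W.smul_fst]
    change jO l * res f v = jO l * F.fst v
    rw [hf2]

/-- Monomials on positive families are combinations of classes in the system. -/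
theorem mono_mem_span {Y : RedAV p ν} {κ : Type} [Fintype κ] [DecidableEq κ]
    {I : κ → Wt Y.X L} (h : IsPos jO C j Y I) :
    monoO jO I ∈ Submodule.span Ω {y | C Y κ y} := by
  obtain ⟨c, c', μ, h1, h2, h3⟩ := h
  obtain ⟨f, hf, hf2⟩ := fst_mem h1
  have hμ : μ ≠ 0 := by
    intro h
    have := h3.1
    rw [h, map_zero, zero_mul] at this
    exact this rfl
  have hc : c ≠ 0 := by
    intro h
    rw [h, zero_mul] at h2
    exact hμ (jO.injective (by rw [← h2, map_zero]))
  have h4 : f = c • monoO jO I := ext_res fun v => by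
    rw [hf2]
    change c * jO (mono I v) = c * monoO jO I (fun k => (1 : Ω) ⊗ₜ[ℚ] v k)
    rw [Pool.Agent.W417.TA.monoO_tmul]
  have h5 := Submodule.smul_mem _ c⁻¹ hf
  rwa [h4, smul_smul, inv_mul_cancel₀ hc, one_smul] at h5

variable (hC : IsCycleSystem Ω C)
include hC

/-- The conjugate family. -/
theorem IsPos.conj {Y : RedAV p ν} (hB : Big Y.X j) {κ : Type} [Fintype κ] [DecidableEq κ]
    {I : κ → Wt Y.X L} (hI : Function.Injective I) (h : IsPos jO C j Y I) :
    IsPos jO C j Y fun k => bar (I k) := by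
  obtain ⟨c, c', μ, h1, h2, h3⟩ := h
  obtain ⟨m, h6, h7⟩ := two_lines hC j hB hI h1 h1
  have hμ0 : μ ≠ 0 := by
    intro h
    have := h3.1
    rw [h, map_zero, zero_mul] at this
    exact this rfl
  have hμr : cc L μ = μ := by
    have e1 : m = μ := jO.injective (by rw [← h6, h2])
    have e2 : cc L m = μ := jO.injective (by rw [← h7, mul_comm, h2])
    rw [e1] at e2
    exact e2
  refine ⟨c', c, μ, h1.swap, by rw [mul_comm, h2], ?_, fun hR => ?_⟩
  · exact mul_ne_zero ((map_ne_zero j).2 hμ0)
      (Finset.prod_ne_zero_iff.2 fun k _ => sgn_ne j (bar (I k)))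
  obtain ⟨t, ht, h9⟩ := h3.2 hR
  refine ⟨t, ht, ?_⟩
  have h8 : ∀ w : Wt Y.X L, starRingEnd ℂ (sgn j w) = sgn j (bar w) := by
    intro w
    rw [sgn_bar]
    unfold sgn
    split_ifs <;> simp
  have h11 := congrArg (starRingEnd ℂ) h9
  rw [map_mul, ← emb_cc, hμr, Complex.conj_ofReal, map_prod,
    Finset.prod_congr rfl fun k _ => h8 (I k)] at h11
  exact h11

/-- The complementary family. -/
theorem IsPos.compl {Y : RedAV p ν} (hB : Big Y.X j) {κ : Type} [Fintype κ] [DecidableEq κ]
    {I : κ → Wt Y.X L} (hI : Function.Injective I) {κ' : Type} [Fintype κ'] [DecidableEq κ']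
    {I' : κ' → Wt Y.X L} (hb : Function.Bijective (Sum.elim I I')) (h : IsPos jO C j Y I) :
    IsPos jO C j Y I' := by
  classical
  let P := prodR Y Y
  let K1 : κ → Wt P.X L := fun k => inrW (bar (I k))
  have h1 : IsPos jO C j P K1 :=
    IsPos.types hC (Z := Y) (J := fun k => bar (I k)) (fun k k' hk => hI (bar_injective hk))
      (fun k => rfl) (h.conj hC hB hI)
  let K2 : κ' × Fin 2 → Wt P.X L := fun x =>
    ![inlW (I' x.1), inrW (bar (I' x.1))] x.2
  have h2 : IsPos jO C j P K2 := IsPos.pairs hC K2 fun k => IsPos.hodge hC rfl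
  have h3 := IsPos.cup hC h1 h2
  let f : κ ⊕ (κ' × Fin 2) ≃ κ' ⊕ (κ ⊕ κ') :=
    { toFun := fun x => match x with
        | Sum.inl k => Sum.inr (Sum.inl k)
        | Sum.inr (k, b) => if b = 0 then Sum.inl k else Sum.inr (Sum.inr k)
      invFun := fun x => match x with
        | Sum.inl k => Sum.inr (k, 0)
        | Sum.inr (Sum.inl k) => Sum.inl k
        | Sum.inr (Sum.inr k) => Sum.inr (k, 1)
      left_inv := by
        rintro (k | ⟨k, b⟩)
        · rfl
        · fin_cases b <;> rfl
      right_inv := by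
        rintro (k | (k | k)) <;> rfl }
  have h5 : IsPos jO C j P (Sum.elim (fun k => inlW (I' k)) fun x =>
      inrW (bar (Sum.elim I I' x))) := by
    refine IsPos.reindex hC f ?_ h3
    rintro (k | ⟨k, b⟩)
    · rfl
    · fin_cases b <;> rfl
  refine IsPos.push hC hB (B := fun x => bar (Sum.elim I I' x)) ?_ h5
  exact (Function.Involutive.bijective (f := (bar : Wt Y.X L → Wt Y.X L)) bar_bar).comp hb

omit hC in
/-- The value of a product. -/
theorem altSum_mono {Y : RedAV p ν} (e : Basis (Wt Y.X L) Ω (TM Ω Y)) (h1 : ∀ w, co jO w (e w) = 1)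
    (h0 : ∀ w w', w ≠ w' → co jO w (e w') = 0) (hB : Big Y.X j) {κ κ' : Type} [Fintype κ]
    [DecidableEq κ] [Fintype κ'] [DecidableEq κ'] (z : (TM Ω Y) [⋀^κ]→ₗ[Ω] Ω)
    {I : κ → Wt Y.X L} {I' : κ' → Wt Y.X L} (hb : Function.Injective (Sum.elim I I')) :
    altSum (times z (monoO jO I')) (fun x => e (Sum.elim I I' x)) =
      (Fintype.card (Perm κ) : Ω) * (Fintype.card (Perm κ') : Ω) * z fun k => e (I k) := by
  classical
  have : Finite (Wt Y.X L) := Pool.Agent.W67.TA.finite_wt j hB
  let _ : Fintype (Wt Y.X L) := Fintype.ofFinite _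
  have hexp := Pool.Agent.TH117.BL.expand_formula jO e h1 h0 z
  have hlin : ((Fintype.card (Perm κ) : ℕ) : Ω) *
      altSum (times z (monoO jO I')) (fun x => e (Sum.elim I I' x)) =
      ∑ J : κ → Wt Y.X L, (z fun k => e (J k)) *
        altSum (times (monoO jO J) (monoO jO I')) (fun x => e (Sum.elim I I' x)) := by
    have h2 : ∀ x, ((Fintype.card (Perm κ) : ℕ) : Ω) * z x =
        ∑ J : κ → Wt Y.X L, (z fun k => e (J k)) * monoO jO J x := by
      intro x
      have h3 := congrArg (fun f : (TM Ω Y) [⋀^κ]→ₗ[Ω] Ω => f x) hexp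
      simp only [AlternatingMap.smul_apply, smul_eq_mul, Pool.Agent.W351.TA.sum_alt] at h3
      exact h3
    unfold altSum times
    rw [Finset.mul_sum]
    simp only [Finset.mul_sum]
    rw [Finset.sum_comm]
    refine Finset.sum_congr rfl fun σ _ => ?_
    have h4 := h2 fun k => e (Sum.elim I I' (σ (Sum.inl k)))
    calc _ = ((Perm.sign σ : ℤ) : Ω) * ((((Fintype.card (Perm κ) : ℕ) : Ω) *
          z fun k => e (Sum.elim I I' (σ (Sum.inl k)))) *
            monoO jO I' fun k => e (Sum.elim I I' (σ (Sum.inr k)))) := by ring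
      _ = _ := by
        rw [h4, Finset.sum_mul, Finset.mul_sum]
        exact Finset.sum_congr rfl fun J _ => by ring
  have hcup : ∀ J : κ → Wt Y.X L,
      altSum (times (monoO jO J) (monoO jO I')) (fun x => e (Sum.elim I I' x)) =
        ((Fintype.card (Perm κ) : Ω) * (Fintype.card (Perm κ') : Ω)) *
          monoO jO J fun k => e (I k) := by
    intro J
    have h2 := Pool.Agent.W333.TA.monoO_cup jO J I' (fun x => e (Sum.elim I I' x))
    refine Eq.trans h2 ?_
    congr 1
    rw [monoO_det, monoO_det]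
    have h3 : (Matrix.of fun k l => co jO (Sum.elim J I' l) (e (Sum.elim I I' k))) =
        Matrix.fromBlocks (Matrix.of fun k l => co jO (J l) (e (I k))) 0
          (Matrix.of fun k l => co jO (J l) (e (I' k))) 1 := by
      ext a b
      rcases a with a | a <;> rcases b with b | b
      · rfl
      · simp only [Matrix.of_apply, Sum.elim_inl, Sum.elim_inr, Matrix.fromBlocks_apply₁₂,
          Matrix.zero_apply]
        refine h0 _ _ fun h => ?_
        have h4 : Sum.elim I I' (Sum.inr b) = Sum.elim I I' (Sum.inl a) := h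
        exact absurd (hb h4) (by simp)
      · rfl
      · simp only [Matrix.of_apply, Sum.elim_inr, Matrix.fromBlocks_apply₂₂]
        by_cases hab : a = b
        · subst hab
          rw [h1, Matrix.one_apply_eq]
        · rw [Matrix.one_apply_ne hab]
          refine h0 _ _ fun h => hab ?_
          have h4 : Sum.elim I I' (Sum.inr b) = Sum.elim I I' (Sum.inr a) := h
          exact (Sum.inr.inj (hb h4)).symm
    rw [h3, Matrix.det_fromBlocks_zero₁₂, Matrix.det_one, mul_one]
  have h5 : ((Fintype.card (Perm κ) : ℕ) : Ω) ≠ 0 := Nat.cast_ne_zero.2 Fintype.card_ne_zero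
  refine mul_left_cancel₀ h5 ?_
  rw [hlin]
  have h6 := congrArg (fun f : (TM Ω Y) [⋀^κ]→ₗ[Ω] Ω => f fun k => e (I k)) hexp
  simp only [AlternatingMap.smul_apply, smul_eq_mul, Pool.Agent.W351.TA.sum_alt] at h6
  calc ∑ J : κ → Wt Y.X L, (z fun k => e (J k)) *
        altSum (times (monoO jO J) (monoO jO I')) (fun x => e (Sum.elim I I' x))
      = ((Fintype.card (Perm κ) : Ω) * (Fintype.card (Perm κ') : Ω)) *
        ∑ J : κ → Wt Y.X L, (z fun k => e (J k)) * monoO jO J fun k => e (I k) := by
        rw [Finset.mul_sum]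
        refine Finset.sum_congr rfl fun J _ => ?_
        rw [hcup]
        ring
    _ = _ := by
        rw [← h6]
        ring

/-- Nondegeneracy on the combinations of positive monomials. -/
theorem zero_of_numTrivial {Y : RedAV p ν} (hB : Big Y.X j) {κ : Type} [Fintype κ] [DecidableEq κ]
    {z : (TM Ω Y) [⋀^κ]→ₗ[Ω] Ω} (hz : z ∈ SP jO C j Y κ) (hnum : IsNumTrivial Ω C z) : z = 0 := by
  classical
  obtain ⟨e, h1, h0⟩ := Pool.Agent.W67.TA.basis p ν Ω L j jO Y hB
  have : Finite (Wt Y.X L) := Pool.Agent.W67.TA.finite_wt j hB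
  let _ : Fintype (Wt Y.X L) := Fintype.ofFinite _
  by_contra hz0
  obtain ⟨s, hs⟩ : ∃ s : κ → Wt Y.X L, (z fun k => e (s k)) ≠ 0 := by
    by_contra hcon
    push Not at hcon
    exact hz0 (Basis.ext_alternating e fun v _ => hcon v)
  have hsi : Function.Injective s := by
    intro k k' hk
    by_contra hne
    refine hs (z.map_eq_zero_of_eq _ ?_ hne)
    rw [hk]
  obtain ⟨_, ⟨I, hI, rfl⟩, hg⟩ := exists_of_span hz hs
  obtain ⟨σ, hσ⟩ := exists_of_mono hg
  have h2 : ∀ k, I k = s (σ k) := by
    intro k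
    by_contra hne
    exact hσ k (h0 _ _ hne)
  have h3 : IsPos jO C j Y s := IsPos.reindex hC σ (fun k => (h2 k).symm) hI
  let κ' := {w : Wt Y.X L // w ∉ Set.range s}
  let t : κ' → Wt Y.X L := fun w => w.1
  have hb : Function.Bijective (Sum.elim s t) := by
    constructor
    · refine Function.Injective.sumElim hsi Subtype.val_injective fun k w h => ?_
      exact w.2 ⟨k, h⟩
    · intro w
      by_cases hw : w ∈ Set.range s
      · obtain ⟨k, hk⟩ := hw
        exact ⟨Sum.inl k, hk⟩
      · exact ⟨Sum.inr ⟨w, hw⟩, rfl⟩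
  have h4 : IsPos jO C j Y t := h3.compl hC hB hsi hb
  have h5 := mono_mem_span h4
  have hcard : Fintype.card κ + Fintype.card κ' = finrank ℚ Y.X.H1 := by
    rw [← Fintype.card_sum, ← Nat.card_eq_fintype_card, Nat.card_eq_of_bijective _ hb,
      Pool.Agent.W67.TA.card_wt j hB]
  have hzero : ∀ y ∈ Submodule.span Ω {y | C Y κ' y}, ∀ v, altSum (times z y) v = 0 := by
    intro y hy
    induction hy using Submodule.span_induction with
    | mem y hy =>
      have h6 : (times z y : _ → Ω) = RK.mulM z.toMultilinearMap y.toMultilinearMap := by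
        funext v
        rw [RK.mulM_apply]
        rfl
      intro v
      rw [h6]
      refine ext_altSum _ (fun v => ?_) v
      rw [← h6]
      exact hnum κ' y hy hcard v
    | zero =>
      intro v
      unfold altSum times
      simp
    | add y y' _ _ hy hy' =>
      intro v
      have h6 : altSum (times z ⇑(y + y')) v = altSum (times z y) v + altSum (times z y') v := by
        unfold altSum times
        simp only [AlternatingMap.add_apply, mul_add, Finset.sum_add_distrib]
      rw [h6, hy, hy', add_zero]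
    | smul c y _ hy =>
      intro v
      have h6 : altSum (times z ⇑(c • y)) v = c * altSum (times z y) v := by
        unfold altSum times
        simp only [AlternatingMap.smul_apply, smul_eq_mul, Finset.mul_sum]
        exact Finset.sum_congr rfl fun σ _ => by ring
      rw [h6, hy, mul_zero]
  have h6 := hzero _ h5 fun x => e (Sum.elim s t x)
  rw [altSum_mono e h1 h0 hB z hb.1] at h6
  exact mul_ne_zero (mul_ne_zero (Nat.cast_ne_zero.2 Fintype.card_ne_zero)
    (Nat.cast_ne_zero.2 Fintype.card_ne_zero)) hs h6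

omit [IsGalois ℚ L] [IsCMField L] [NumberField L] in
/-- Classes in `Alg` that are numerically equivalent to zero are zero. -/
theorem nondegenerate [IsAlgClosed Ω] {Y : RedAV p ν} {κ : Type} [Fintype κ] [DecidableEq κ]
    {z : (TM Ω Y) [⋀^κ]→ₗ[Ω] Ω} (hz : Alg Ω Y κ z) (hnum : IsNumTrivial Ω C z) : z = 0 := by
  classical
  obtain ⟨T, hT⟩ := alg_SP hC hz
  have hne : Nonempty ((T.prod Y.X).prod (single (Pool.Agent.TH117.BL.kp p))).I := ⟨Sum.inr ()⟩
  obtain ⟨L, _, _, _, _, j, hj⟩ :=
    exists_cm ((T.prod Y.X).prod (single (Pool.Agent.TH117.BL.kp p)))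
  have hTj : Big T j := fun i ψ => hj (Sum.inl (Sum.inl i)) ψ
  have hB : Big Y.X j := fun i ψ => hj (Sum.inl (Sum.inr i)) ψ
  let jO : L →+* Ω := ((IsAlgClosed.lift : L →ₐ[ℚ] Ω) : L →+* Ω)
  exact zero_of_numTrivial hC hB (hT L j jO hTj hB) hnum

end

end Pool.Agent.TH117.PO
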