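import Pool.Agent.TH117.PO.Defs
import Pool.Agent.W547.HR.Main

/-!
# Compatible polarizations are polarizations
-/

set_option autoImplicit false
set_option linter.unusedSectionVars false
set_option linter.unusedVariables false

namespace Pool.Agent.TH117.PO

open NumberField Pool.Agent.H204R3.CM Pool.Agent.W547.KB Pool.Agent.W547.LD Pool.Agent.W547.HR
  Pool.Agent.W495.TA Module
open scoped TensorProduct

noncomputable section

open Classical in
/-- The Hermitian form of a compatible polarization. -/
def hermForm (X : CMAV) (α : X.H1) (u u' : X.Tan) : ℂ :=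
  ∑ i, ∑ φ : (X.factor i).Φ, ((2 * (φ.1 (α i)).im : ℝ) : ℂ) * (u i φ * starRingEnd ℂ (u' i φ))

theorem isPolarization {X : CMAV} {α : X.H1} (hα : IsPolar X α) :
    IsPolarization X (riemannForm X α) := by
  classical
  refine ⟨hermForm X α, fun u' => ⟨fun u v => ?_, fun c u => ?_⟩, fun u u' => ?_, fun u hu => ?_,
    fun v w => ?_⟩
  · unfold hermForm
    rw [← Finset.sum_add_distrib]
    refine Finset.sum_congr rfl fun i _ => ?_
    rw [← Finset.sum_add_distrib]
    refine Finset.sum_congr rfl fun φ _ => ?_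
    change _ * ((u i φ + v i φ) * _) = _
    ring
  · unfold hermForm
    rw [smul_eq_mul, Finset.mul_sum]
    refine Finset.sum_congr rfl fun i _ => ?_
    rw [Finset.mul_sum]
    refine Finset.sum_congr rfl fun φ _ => ?_
    change _ * ((c * u i φ) * _) = _
    ring
  · unfold hermForm
    rw [map_sum]
    refine Finset.sum_congr rfl fun i _ => ?_
    rw [map_sum]
    refine Finset.sum_congr rfl fun φ _ => ?_
    rw [map_mul, map_mul, Complex.conj_ofReal, Complex.conj_conj]
    ring
  · have key : ∀ i (φ : (X.factor i).Φ), (((2 * (φ.1 (α i)).im : ℝ) : ℂ) *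
        (u i φ * starRingEnd ℂ (u i φ))).re = 2 * (φ.1 (α i)).im * Complex.normSq (u i φ) := by
      intro i φ
      rw [Complex.mul_conj, ← Complex.ofReal_mul, Complex.ofReal_re]
    have h1 : (hermForm X α u u).re = ∑ i, ∑ φ : (X.factor i).Φ,
        2 * (φ.1 (α i)).im * Complex.normSq (u i φ) := by
      unfold hermForm
      rw [Complex.re_sum]
      refine Finset.sum_congr rfl fun i _ => ?_
      rw [Complex.re_sum]
      exact Finset.sum_congr rfl fun φ _ => key i φ
    have h2 : ∀ i (φ : (X.factor i).Φ), 0 ≤ 2 * (φ.1 (α i)).im * Complex.normSq (u i φ) :=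
      fun i φ => mul_nonneg (mul_nonneg zero_le_two (hα i _ φ.2).2.le) (Complex.normSq_nonneg _)
    rw [h1]
    obtain ⟨i, hi⟩ := Function.ne_iff.1 hu
    obtain ⟨φ, hφ⟩ := Function.ne_iff.1 hi
    refine Finset.sum_pos' (fun i _ => Finset.sum_nonneg fun φ _ => h2 i φ)
      ⟨i, Finset.mem_univ i, Finset.sum_pos' (fun φ _ => h2 i φ) ⟨φ, Finset.mem_univ φ, ?_⟩⟩
    exact mul_pos (mul_pos two_pos (hα i _ φ.2).2) (Complex.normSq_pos.2 hφ)
  · unfold hermForm riemannForm
    rw [Complex.im_sum, Rat.cast_sum]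
    refine Finset.sum_congr rfl fun i _ => ?_
    rw [Complex.im_sum, trace_re (X.factor i).isCMType]
    refine Finset.sum_congr rfl fun φ _ => ?_
    change (((2 * (φ.1 (α i)).im : ℝ) : ℂ) * (φ.1 (v i) * starRingEnd ℂ (φ.1 (w i)))).im = _
    rw [map_mul, map_mul, IsCMField.complexEmbedding_complexConj]
    have h1 := (hα i _ φ.2).1
    simp only [Complex.mul_im, Complex.mul_re, Complex.ofReal_re, Complex.ofReal_im,
      Complex.conj_re, Complex.conj_im, h1]
    ring

end

end Pool.Agent.TH117.PO
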