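import Pool.Agent.W547.HR.Main

/-!
# The computation behind the Hodge-Riemann relations over a field of characteristic zero
-/

set_option autoImplicit false
set_option linter.unusedSectionVars false
set_option linter.unusedVariables false

namespace Pool.Agent.TH117.PO.RK

open ExteriorAlgebra Equiv
open Pool.Agent.W547.HR (altSum times powE addE len len_eq gE en)

noncomputable section

variable {K : Type} [Field K] [CharZero K] {ι : Type} [Fintype ι] [DecidableEq ι]



/-- The exterior algebra of the space of covectors, in coordinates. -/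
abbrev A (K : Type) [Field K] (ι : Type) : Type := ExteriorAlgebra K (ι → K)

/-- The functional `w ↦ ∑ v i * w i`. -/
def dp (v : ι → K) : Module.Dual K (ι → K) := ∑ i, v i • LinearMap.proj i

theorem dp_apply (v w : ι → K) : dp v w = ∑ i, v i * w i := by
  simp [dp, LinearMap.sum_apply]

theorem dp_single (v : ι → K) (i : ι) : dp v (Pi.single i 1) = v i := by
  simp [dp_apply, Pi.single_apply]

theorem dp_add (v w : ι → K) : dp (v + w) = dp v + dp w := by
  ext u
  simp [dp_apply, add_mul, Finset.sum_add_distrib]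

theorem dp_smul (a : K) (v : ι → K) : dp (a • v) = a • dp v := by
  ext u
  simp [dp_apply, mul_assoc, Finset.mul_sum]

/-- Contraction by the vector `v`. -/
def D (v : ι → K) : A K ι →ₗ[K] A K ι := CliffordAlgebra.contractLeft (Q := 0) (dp v)

theorem D_ι_mul (v a : ι → K) (b : A K ι) :
    D v (ExteriorAlgebra.ι K a * b) = dp v a • b - ExteriorAlgebra.ι K a * D v b :=
  CliffordAlgebra.contractLeft_ι_mul (Q := 0) _ a b

theorem D_one (v : ι → K) : D v 1 = 0 := CliffordAlgebra.contractLeft_one (Q := 0) _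

theorem D_ι (v a : ι → K) : D v (ExteriorAlgebra.ι K a) = algebraMap K (A K ι) (dp v a) :=
  CliffordAlgebra.contractLeft_ι (Q := 0) _ _

theorem D_algebraMap (v : ι → K) (r : K) : D v (algebraMap K (A K ι) r) = 0 :=
  CliffordAlgebra.contractLeft_algebraMap (Q := 0) _ _

theorem ι_anti (a b : ι → K) : ExteriorAlgebra.ι K a * ExteriorAlgebra.ι K b =
    -(ExteriorAlgebra.ι K b * ExteriorAlgebra.ι K a) :=
  eq_neg_of_add_eq_zero_left (ι_add_mul_swap a b)

/-- Even elements for which contractions are derivations. -/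
structure IsEven (x : A K ι) : Prop where
  comm : ∀ b : A K ι, x * b = b * x
  deriv : ∀ (v : ι → K) (b : A K ι), D v (x * b) = D v x * b + x * D v b

theorem comm_of_ι {x : A K ι} (h : ∀ a : ι → K, x * ExteriorAlgebra.ι K a =
    ExteriorAlgebra.ι K a * x) (b : A K ι) : x * b = b * x := by
  induction b using ExteriorAlgebra.induction with
  | algebraMap r => rw [Algebra.commutes]
  | ι a => exact h a
  | mul a b ha hb => rw [← mul_assoc, ha, mul_assoc, hb, mul_assoc]
  | add a b ha hb => rw [mul_add, add_mul, ha, hb]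

theorem isEven_pair (a c : ι → K) :
    IsEven (ExteriorAlgebra.ι K a * ExteriorAlgebra.ι K c : A K ι) where
  comm := comm_of_ι fun b => by
    rw [mul_assoc, ι_anti c b, mul_neg, ← mul_assoc, ι_anti a b, neg_mul, neg_neg, mul_assoc]
  deriv v b := by
    have h1 : D v (ExteriorAlgebra.ι K a * ExteriorAlgebra.ι K c : A K ι) =
        dp v a • ExteriorAlgebra.ι K c - dp v c • ExteriorAlgebra.ι K a := by
      rw [D_ι_mul, D_ι, ← Algebra.commutes, ← Algebra.smul_def]
    rw [h1, mul_assoc, D_ι_mul, D_ι_mul, mul_sub, sub_mul, mul_smul_comm, smul_mul_assoc,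
      smul_mul_assoc, mul_assoc]
    abel

theorem IsEven.zero : IsEven (0 : A K ι) where
  comm b := by rw [zero_mul, mul_zero]
  deriv v b := by simp

theorem IsEven.add {x y : A K ι} (hx : IsEven x) (hy : IsEven y) : IsEven (x + y) where
  comm b := by rw [add_mul, mul_add, hx.comm, hy.comm]
  deriv v b := by
    rw [add_mul, map_add, map_add, hx.deriv, hy.deriv, add_mul, add_mul]
    abel

theorem IsEven.smul {x : A K ι} (a : K) (hx : IsEven x) : IsEven (a • x) where
  comm b := by rw [smul_mul_assoc, hx.comm, mul_smul_comm]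
  deriv v b := by
    rw [smul_mul_assoc, map_smul, map_smul, hx.deriv, smul_add, smul_mul_assoc, smul_mul_assoc]

theorem IsEven.sum {J : Type} (s : Finset J) (x : J → A K ι) (hx : ∀ j ∈ s, IsEven (x j)) :
    IsEven (∑ j ∈ s, x j) := by
  classical
  induction s using Finset.induction_on with
  | empty => rw [Finset.sum_empty]; exact IsEven.zero
  | insert j s hj ih =>
    rw [Finset.sum_insert hj]
    exact (hx j (Finset.mem_insert_self j s)).add
      (ih fun k hk => hx k (Finset.mem_insert_of_mem hk))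

theorem IsEven.D_pow_mul {x : A K ι} (hx : IsEven x) (v : ι → K) (j : ℕ) (b : A K ι) :
    D v (x ^ (j + 1) * b) = ((j : K) + 1) • (D v x * (x ^ j * b)) + x ^ (j + 1) * D v b := by
  induction j with
  | zero => simp [hx.deriv]
  | succ j ih =>
    rw [pow_succ' x (j + 1), mul_assoc, hx.deriv, ih, mul_add, mul_smul_comm, ← mul_assoc x (D v x),
      hx.comm (D v x), mul_assoc (D v x) x, ← mul_assoc x (x ^ j), ← pow_succ', ← mul_assoc x,
      ← add_assoc]
    congr 1
    push_cast
    rw [add_smul ((j : K) + 1) 1, one_smul, add_comm]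

/-- One step. -/
theorem step {x : A K ι} (hx : IsEven x) (v : ι → K) (m : ℕ) (y : A K ι)
    (hy : x ^ (m + 1) * y = 0) : ((m : K) + 1) • (D v x * (x ^ m * y)) =
      -(x ^ (m + 1) * D v y) ∧ x ^ (m + 1 + 1) * D v y = 0 := by
  constructor
  · have h1 := hx.D_pow_mul v m y
    rw [hy, map_zero] at h1
    exact eq_neg_of_add_eq_zero_left h1.symm
  · have h1 := hx.D_pow_mul v (m + 1) y
    have h2 : x ^ (m + 1 + 1) * y = 0 := by rw [pow_succ', mul_assoc, hy, mul_zero]
    rw [h2, map_zero, hy, mul_zero, smul_zero, zero_add] at h1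
    exact h1.symm

/-- Iterated contraction, `v 0` being applied first. -/
def Dm : (k : ℕ) → (Fin k → ι → K) → A K ι →ₗ[K] A K ι
  | 0, _ => LinearMap.id
  | k + 1, v => Dm k (Fin.tail v) ∘ₗ D (v 0)

theorem Dm_succ (k : ℕ) (v : Fin (k + 1) → ι → K) (y : A K ι) :
    Dm (k + 1) v y = Dm k (Fin.tail v) (D (v 0) y) := rfl

/-- The sign `(-1) ^ (k (k + 1) / 2)`. -/
def sg (K : Type) [Field K] : ℕ → K
  | 0 => 1
  | k + 1 => (-1) ^ (k + 1) * sg K k

theorem sg_two (r : ℕ) : sg K (2 * r) = (-1) ^ r := by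
  induction r with
  | zero => rw [mul_zero, pow_zero]; rfl
  | succ r ih =>
    change (-1) ^ (2 * r + 1 + 1) * ((-1) ^ (2 * r + 1) * sg K (2 * r)) = _
    rw [ih, pow_succ (-1 : K) r]
    have h1 : ((-1 : K)) ^ (2 * r) = 1 := by rw [pow_mul]; norm_num
    rw [pow_succ, pow_succ, h1]
    ring

theorem ι_mul_ιMulti (k : ℕ) (a : ι → K) (u : Fin k → ι → K) :
    ExteriorAlgebra.ι K a * ιMulti K k u = ((-1 : K) ^ k) • (ιMulti K k u * ExteriorAlgebra.ι K a) := by
  induction k with
  | zero => simp
  | succ k ih =>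
    rw [ιMulti_succ_apply, ← mul_assoc, ι_anti, neg_mul, mul_assoc, ih, mul_smul_comm, ← mul_assoc,
      pow_succ, mul_neg_one, neg_smul]

/-- The main computation. -/
theorem main_step {x : A K ι} (hx : IsEven x) (k : ℕ) : ∀ (m : ℕ) (y : A K ι)
    (_ : x ^ (m + 1) * y = 0) (v u : Fin k → ι → K)
    (_ : ∀ i, D (v i) x = ExteriorAlgebra.ι K (u i)),
    ((m + k).factorial : K) • (ιMulti K k u * (x ^ m * y)) =
      (sg K k * m.factorial) • (x ^ (m + k) * Dm k v y) := by
  induction k with
  | zero =>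
    intro m y hy v u hu
    simp [sg, Dm]
  | succ k ih =>
    intro m y hy v u hu
    obtain ⟨h1, h2⟩ := step hx (v 0) m y hy
    have h3 := ih (m + 1) (D (v 0) y) h2 (Fin.tail v) (Fin.tail u) fun i => hu i.succ
    have h4 : ιMulti K (k + 1) u =
        ((-1 : K) ^ k) • (ιMulti K k (Fin.tail u) * ExteriorAlgebra.ι K (u 0)) := by
      rw [ιMulti_succ_apply]
      exact ι_mul_ιMulti k (u 0) (Fin.tail u)
    have h5 : ((m : K) + 1) • (ιMulti K k (Fin.tail u) * (ExteriorAlgebra.ι K (u 0) *
        (x ^ m * y))) = -(ιMulti K k (Fin.tail u) * (x ^ (m + 1) * D (v 0) y)) := by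
      rw [← mul_smul_comm, ← hu 0, h1, mul_neg]
    rw [Dm_succ, h4, smul_mul_assoc, mul_assoc]
    have h6 : ((m : K) + 1) ≠ 0 := Nat.cast_add_one_ne_zero m
    have h7 : m + (k + 1) = m + 1 + k := by ring
    rw [h7]
    refine smul_right_injective (A K ι) h6 ?_
    change ((m : K) + 1) • _ = ((m : K) + 1) • _
    rw [smul_comm ((m : K) + 1), smul_comm ((m : K) + 1) ((-1 : K) ^ k), h5, smul_neg, smul_neg,
      smul_comm _ ((-1 : K) ^ k), h3, smul_smul, smul_smul, ← neg_smul]
    congr 1
    simp only [sg, Nat.factorial_succ]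
    push_cast
    ring




theorem D_ιMulti (k : ℕ) (v : ι → K) (φ : Fin (k + 1) → ι → K) :
    D v (ιMulti K (k + 1) φ) =
      ∑ i : Fin (k + 1), ((-1 : K) ^ (i : ℕ) * dp v (φ i)) • ιMulti K k (φ ∘ i.succAbove) := by
  induction k with
  | zero =>
    rw [ιMulti_succ_apply, ιMulti_zero_apply, D_ι_mul, D_one]
    simp
  | succ k ih =>
    conv_rhs => rw [Fin.sum_univ_succ]
    rw [ιMulti_succ_apply, D_ι_mul, ih, Finset.mul_sum, sub_eq_add_neg, ← Finset.sum_neg_distrib]
    congr 1
    · simp only [Fin.val_zero, pow_zero, one_mul]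
      rfl
    · refine Finset.sum_congr rfl fun i _ => ?_
      have h1 : ιMulti K (k + 1) (φ ∘ i.succ.succAbove) =
          ExteriorAlgebra.ι K (φ 0) * ιMulti K k (Matrix.vecTail φ ∘ i.succAbove) := by
        rw [ιMulti_succ_apply]
        congr 2
        funext j
        simp only [Matrix.vecTail, Function.comp_apply, Fin.succ_succAbove_succ]
      rw [h1, mul_smul_comm, ← neg_smul, Fin.val_succ, pow_succ]
      congr 1
      change -((-1) ^ (i : ℕ) * dp v (φ i.succ)) = _
      ring

theorem Dm_ιMulti (k : ℕ) (v φ : Fin k → ι → K) :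
    Dm k v (ιMulti K k φ) =
      algebraMap K (A K ι) (Matrix.det (Matrix.of fun i j => dp (v i) (φ j))) := by
  induction k with
  | zero => simp [Dm]
  | succ k ih =>
    rw [Dm_succ, D_ιMulti, map_sum, Matrix.det_succ_row_zero, map_sum]
    refine Finset.sum_congr rfl fun i _ => ?_
    rw [map_smul, ih, Algebra.smul_def, ← map_mul]
    rfl

/-- The class of a function on `P → ι` with respect to an enumeration of `P`. -/
def cls {P : Type} [Fintype P] [DecidableEq P] {N : ℕ} (e : Fin N ≃ P) (G : (P → ι) → K) : A K ι :=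
  ∑ s : P → ι, G s • ιMulti K N (fun i => Pi.single (s (e i)) 1)

/-- The coefficients of a multilinear form. -/
def coef {P : Type} (g : MultilinearMap K (fun _ : P => ι → K) K) (s : P → ι) : K :=
  g (fun p => Pi.single (s p) 1)

theorem apply_eq_sum {P : Type} [Fintype P] [DecidableEq P] (g : MultilinearMap K (fun _ : P => ι → K) K)
    (v : P → ι → K) : g v = ∑ s : P → ι, coef g s * ∏ p, v p (s p) := by
  classical
  have h1 : v = fun p => ∑ i, v p i • (Pi.single i (1 : K) : ι → K) := by
    funext p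
    exact pi_eq_sum_univ' (v p)
  conv_lhs => rw [h1]
  rw [g.map_sum]
  refine Finset.sum_congr rfl fun s _ => ?_
  rw [g.map_smul_univ (fun p => v p (s p)) (fun p => Pi.single (s p) 1), smul_eq_mul, mul_comm]
  rfl

/-- Evaluation of the class of a multilinear form. -/
theorem Dm_cls {P : Type} [Fintype P] [DecidableEq P] {N : ℕ} (e : Fin N ≃ P)
    (g : MultilinearMap K (fun _ : P => ι → K) K) (v : P → ι → K) :
    Dm N (fun i => v (e i)) (cls e (coef g)) = algebraMap K (A K ι) (altSum g v) := by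
  have h1 : ∀ s : P → ι, Dm N (fun i => v (e i))
      (ιMulti K N (fun i => (Pi.single (s (e i)) 1 : ι → K))) =
      algebraMap K (A K ι) (∑ σ : Perm P, ((Perm.sign σ : ℤ) : K) * ∏ p, v (σ p) (s p)) := by
    intro s
    rw [Dm_ιMulti]
    congr 1
    have h2 : ∑ σ : Perm P, ((Perm.sign σ : ℤ) : K) * ∏ p, v (σ p) (s p) =
        Matrix.det (Matrix.of fun p q => v p (s q)) :=
      (Matrix.det_apply' (Matrix.of fun p q => v p (s q))).symm
    rw [h2, ← Matrix.det_submatrix_equiv_self e]
    congr 1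
    ext i j
    simp [dp_single]
  have h2 : ∀ s : P → ι, Dm N (fun i => v (e i))
      (coef g s • ιMulti K N (fun i => (Pi.single (s (e i)) 1 : ι → K))) =
      algebraMap K (A K ι) (coef g s *
        ∑ σ : Perm P, ((Perm.sign σ : ℤ) : K) * ∏ p, v (σ p) (s p)) := by
    intro s
    rw [map_smul, h1, Algebra.smul_def, ← map_mul]
  rw [cls, map_sum, Finset.sum_congr rfl fun s _ => h2 s, ← map_sum]
  congr 1
  unfold altSum
  simp only [apply_eq_sum g, Finset.mul_sum]
  rw [Finset.sum_comm]
  refine Finset.sum_congr rfl fun σ _ => Finset.sum_congr rfl fun s _ => ?_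
  ring

/-- A form whose alternating sum vanishes has class zero. -/
theorem cls_eq_zero {P : Type} [Fintype P] [DecidableEq P] {N : ℕ} (e : Fin N ≃ P)
    (g : MultilinearMap K (fun _ : P => ι → K) K)
    (h : ∀ s : P → ι, altSum g (fun p => (Pi.single (s p) 1 : ι → K)) = 0) :
    cls e (coef g) = 0 := by
  have key : ∀ σ : Perm P, cls e (coef g) = ∑ s : P → ι,
      (((Perm.sign σ : ℤ) : K) * coef g (fun p => s (σ p))) •
        ιMulti K N (fun i => (Pi.single (s (e i)) 1 : ι → K)) := by
    intro σ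
    rw [cls]
    refine Fintype.sum_equiv (Equiv.arrowCongr σ (Equiv.refl ι)) _ _ fun s => ?_
    have h1 : ∀ p, (Equiv.arrowCongr σ (Equiv.refl ι)) s p = s (σ.symm p) := fun p => rfl
    simp only [h1, Equiv.symm_apply_apply]
    have h2 : ιMulti K N (fun i => (Pi.single (s (e i)) 1 : ι → K)) =
        ((Perm.sign σ : ℤ) : K) •
          ιMulti K N (fun i => (Pi.single (s (σ.symm (e i))) 1 : ι → K)) := by
      have h3 := (ιMulti K N (M := ι → K)).map_perm
        (fun i => (Pi.single (s (σ.symm (e i))) 1 : ι → K)) (e.symm.permCongr σ)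
      rw [Perm.sign_permCongr] at h3
      have h4 : (fun i => (Pi.single (s (σ.symm (e i))) 1 : ι → K)) ∘ (e.symm.permCongr σ) =
          fun i => (Pi.single (s (e i)) 1 : ι → K) := by
        funext i
        simp [Equiv.permCongr_apply]
      rw [h4] at h3
      rw [h3, Units.smul_def, ← Int.cast_smul_eq_zsmul K]
    rw [h2, smul_smul, mul_comm]
  have h5 : (Fintype.card (Perm P) : K) • cls e (coef g) = 0 := by
    have h6 : ∑ σ : Perm P, cls e (coef g) = ∑ s : P → ι, (∑ σ : Perm P,
        ((Perm.sign σ : ℤ) : K) * coef g (fun p => s (σ p))) •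
          ιMulti K N (fun i => (Pi.single (s (e i)) 1 : ι → K)) := by
      rw [Finset.sum_congr rfl fun σ _ => key σ, Finset.sum_comm]
      exact Finset.sum_congr rfl fun s _ => (Finset.sum_smul).symm
    rw [Finset.sum_const, Finset.card_univ, ← Nat.cast_smul_eq_nsmul K] at h6
    rw [h6]
    refine Finset.sum_eq_zero fun s _ => ?_
    have h7 : ∑ σ : Perm P, ((Perm.sign σ : ℤ) : K) * coef g (fun p => s (σ p)) = 0 := h s
    rw [h7, zero_smul]
  exact (smul_eq_zero.1 h5).resolve_left (Nat.cast_ne_zero.2 Fintype.card_ne_zero)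

/-- The product of two multilinear forms. -/
def mulM {P Q : Type} {H : Type} [AddCommGroup H] [Module K H]
    (g : MultilinearMap K (fun _ : P => H) K) (h : MultilinearMap K (fun _ : Q => H) K) :
    MultilinearMap K (fun _ : P ⊕ Q => H) K :=
  (LinearMap.mul' K K).compMultilinearMap (g.domCoprod h)

theorem mulM_apply {P Q : Type} {H : Type} [AddCommGroup H] [Module K H]
    (g : MultilinearMap K (fun _ : P => H) K) (h : MultilinearMap K (fun _ : Q => H) K)
    (v : P ⊕ Q → H) : mulM g h v = g (fun p => v (Sum.inl p)) * h (fun q => v (Sum.inr q)) := rfl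

theorem cls_mul {P Q : Type} [Fintype P] [DecidableEq P] [Fintype Q] [DecidableEq Q] {N M : ℕ} (e : Fin N ≃ P) (f : Fin M ≃ Q)
    (G : (P → ι) → K) (H : (Q → ι) → K) :
    cls e G * cls f H = cls (addE e f)
      (fun s : P ⊕ Q → ι => G (fun p => s (Sum.inl p)) * H (fun q => s (Sum.inr q))) := by
  classical
  rw [cls, cls, cls, Finset.sum_mul_sum, ← Finset.sum_product']
  refine (Fintype.sum_equiv (Equiv.sumArrowEquivProdArrow P Q ι) _ _ fun s => ?_).symm
  have h1 : (Equiv.sumArrowEquivProdArrow P Q ι) s =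
    ((fun p => s (Sum.inl p)), (fun q => s (Sum.inr q))) := rfl
  rw [h1]
  simp only
  rw [smul_mul_smul_comm, ιMulti_mul_ιMulti]
  congr 2
  funext i
  refine Fin.addCases (fun j => ?_) (fun j => ?_) i
  · rw [Fin.append_left]
    simp [addE]
  · rw [Fin.append_right]
    simp [addE]

theorem cls_reindex {P P' : Type} [Fintype P] [DecidableEq P] [Fintype P'] [DecidableEq P'] {N : ℕ} (e : Fin N ≃ P) (g : P ≃ P') (G : (P → ι) → K) :
    cls (e.trans g) (fun s : P' → ι => G (fun p => s (g p))) = cls e G := by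
  classical
  rw [cls, cls]
  refine (Fintype.sum_equiv (Equiv.arrowCongr g (Equiv.refl ι)) _ _ fun s => ?_).symm
  have h1 : ∀ p, (Equiv.arrowCongr g (Equiv.refl ι)) s p = s (g.symm p) := fun p => rfl
  simp only [h1, Equiv.trans_apply, Equiv.symm_apply_apply]



section pw

variable {H : Type} [AddCommGroup H] [Module K H]

/-- The form `∏ k, L (v (k, 0), v (k, 1))`. -/
def pw (L : MultilinearMap K (fun _ : Fin 2 => H) K) :
    (m : ℕ) → MultilinearMap K (fun _ : Fin m × Fin 2 => H) K
  | 0 => MultilinearMap.constOfIsEmpty K _ 1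
  | m + 1 => (mulM L (pw L m)).domDomCongr (gE m)

theorem pw_apply (L : MultilinearMap K (fun _ : Fin 2 => H) K) (m : ℕ) (v : Fin m × Fin 2 → H) :
    pw L m v = ∏ k : Fin m, L (fun j => v (k, j)) := by
  induction m with
  | zero => simp [pw]
  | succ m ih =>
    rw [Fin.prod_univ_succ]
    change mulM L (pw L m) (fun i => v (gE m i)) = _
    rw [mulM_apply, ih]
    rfl

end pw


theorem coef_mulM {P Q : Type} (g : MultilinearMap K (fun _ : P => ι → K) K)
    (h : MultilinearMap K (fun _ : Q => ι → K) K) : coef (mulM g h) = fun s =>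
      coef g (fun p => s (Sum.inl p)) * coef h (fun q => s (Sum.inr q)) := rfl

theorem cls_mulM {P Q : Type} [Fintype P] [DecidableEq P] [Fintype Q] [DecidableEq Q] {N M : ℕ}
    (e : Fin N ≃ P) (f : Fin M ≃ Q) (g : MultilinearMap K (fun _ : P => ι → K) K)
    (h : MultilinearMap K (fun _ : Q => ι → K) K) :
    cls (addE e f) (coef (mulM g h)) = cls e (coef g) * cls f (coef h) := by
  rw [cls_mul, coef_mulM]

/-- Twice the element of degree two defined by a form. -/
def E2 (L : MultilinearMap K (fun _ : Fin 2 => ι → K) K) : A K ι := cls (Equiv.refl (Fin 2)) (coef L)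

theorem cls_pw (L : MultilinearMap K (fun _ : Fin 2 => ι → K) K) (m : ℕ) :
    cls (en m) (coef (pw L m)) = E2 L ^ m := by
  induction m with
  | zero =>
    rw [pow_zero, cls]
    have h1 : ∀ s : Fin 0 × Fin 2 → ι, coef (pw L 0) s • ιMulti K (len 0)
        (fun i => (Pi.single (s (en 0 i)) 1 : ι → K)) = 1 := by
      intro s
      have h2 : coef (pw L 0) s = 1 := rfl
      rw [h2, one_smul]
      exact ιMulti_zero_apply _
    rw [Finset.sum_congr rfl fun s _ => h1 s, Finset.sum_const, Finset.card_univ]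
    simp
  | succ m ih =>
    rw [pow_succ', ← ih, E2, ← cls_mulM]
    exact cls_reindex (addE (Equiv.refl (Fin 2)) (en m)) (gE m) (coef (mulM L (pw L m)))

/-- The element of degree two defined by a form. -/
def om (L : MultilinearMap K (fun _ : Fin 2 => ι → K) K) : A K ι := (1 / 2 : K) • E2 L

theorem E2_eq (L : MultilinearMap K (fun _ : Fin 2 => ι → K) K) : E2 L = (2 : K) • om L := by
  rw [om, smul_smul]
  norm_num

theorem E2_sum (L : MultilinearMap K (fun _ : Fin 2 => ι → K) K) : E2 L =
    ∑ s : Fin 2 → ι, coef L s • (ExteriorAlgebra.ι K (Pi.single (s 0) 1 : ι → K) *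
      ExteriorAlgebra.ι K (Pi.single (s 1) 1 : ι → K)) := by
  rw [E2, cls]
  refine Finset.sum_congr rfl fun s _ => ?_
  congr 1
  rw [ιMulti_succ_apply, ιMulti_succ_apply, ιMulti_zero_apply, mul_one]
  rfl

theorem isEven_E2 (L : MultilinearMap K (fun _ : Fin 2 => ι → K) K) : IsEven (E2 L) := by
  rw [E2_sum]
  exact IsEven.sum _ _ fun s _ => (isEven_pair _ _).smul _

theorem isEven_om (L : MultilinearMap K (fun _ : Fin 2 => ι → K) K) : IsEven (om L) :=
  (isEven_E2 L).smul _

theorem D_E2 (L : MultilinearMap K (fun _ : Fin 2 => ι → K) K) (v : ι → K) : D v (E2 L) =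
    ∑ s : Fin 2 → ι, coef L s • (v (s 0) • ExteriorAlgebra.ι K (Pi.single (s 1) 1 : ι → K) -
      v (s 1) • ExteriorAlgebra.ι K (Pi.single (s 0) 1 : ι → K)) := by
  rw [E2_sum, map_sum]
  refine Finset.sum_congr rfl fun s _ => ?_
  rw [map_smul, D_ι_mul, D_ι, ← Algebra.commutes, ← Algebra.smul_def, dp_single, dp_single]

/-- `D (J u) ω = u` if `L (J u, w) = ∑ u i * w i`. -/
theorem D_om (L : MultilinearMap K (fun _ : Fin 2 => ι → K) K) (hL : ∀ a b, L ![a, b] = -L ![b, a])
    (u v : ι → K) (h : ∀ w, L ![v, w] = ∑ i, u i * w i) : D v (om L) = ExteriorAlgebra.ι K u := by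
  have h0 : ∀ s : Fin 2 → ι, coef L s = L ![Pi.single (s 0) 1, Pi.single (s 1) 1] := by
    intro s
    unfold coef
    congr 1
    funext p
    fin_cases p <;> rfl
  have hv : v = ∑ i, v i • (Pi.single i (1 : K) : ι → K) := pi_eq_sum_univ' v
  have hu : ∀ i, L ![v, Pi.single i 1] = u i := by
    intro i
    rw [h]
    simp [Pi.single_apply]
  have hlin : ∀ b : ι → K, L ![v, b] = ∑ i, v i * L ![Pi.single i 1, b] := by
    intro b
    have h1 : ∀ a : ι → K, L ![a, b] = L (Function.update ![0, b] 0 a) := by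
      intro a
      congr 1
      funext p
      fin_cases p <;> simp
    have h2 : L (Function.update ![0, b] 0 v) = ∑ i, v i * L (Function.update ![0, b] 0
        (Pi.single i 1)) := by
      conv_lhs => rw [hv]
      rw [L.map_update_sum]
      refine Finset.sum_congr rfl fun i _ => ?_
      rw [L.map_update_smul, smul_eq_mul]
    rw [h1, h2]
    refine Finset.sum_congr rfl fun i _ => ?_
    rw [h1]
  have hsum : ∀ F : (Fin 2 → ι) → A K ι, ∑ s : Fin 2 → ι, F s = ∑ i : ι, ∑ j : ι, F ![i, j] := by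
    intro F
    rw [← Finset.sum_product']
    refine Fintype.sum_equiv (finTwoArrowEquiv ι) _ _ fun s => ?_
    congr 1
    funext p
    fin_cases p <;> rfl
  have key : D v (E2 L) = (2 : K) • ExteriorAlgebra.ι K u := by
    rw [D_E2, hsum]
    have h3 : ∀ i j : ι, coef L ![i, j] • (v (![i, j] 0) •
        ExteriorAlgebra.ι K (Pi.single (![i, j] 1) 1 : ι → K) - v (![i, j] 1) •
        ExteriorAlgebra.ι K (Pi.single (![i, j] 0) 1 : ι → K)) =
        (v i * L ![Pi.single i 1, Pi.single j 1]) •
          ExteriorAlgebra.ι K (Pi.single j 1 : ι → K) +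
        (v j * L ![Pi.single j 1, Pi.single i 1]) •
          ExteriorAlgebra.ι K (Pi.single i 1 : ι → K) := by
      intro i j
      rw [h0]
      change L ![Pi.single i 1, Pi.single j 1] • (v i • _ - v j • _) = _
      rw [smul_sub, smul_smul, smul_smul, sub_eq_add_neg, ← neg_smul, mul_comm (v i), mul_comm (v j),
        hL (Pi.single j 1) (Pi.single i 1), neg_mul]
      rfl
    simp only [h3, Finset.sum_add_distrib]
    have h4 : ∑ i : ι, ∑ j : ι, (v i * L ![Pi.single i 1, Pi.single j 1]) •
        ExteriorAlgebra.ι K (Pi.single j 1 : ι → K) = ExteriorAlgebra.ι K u := by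
      rw [Finset.sum_comm]
      conv_rhs => rw [show u = ∑ j, u j • (Pi.single j (1 : K) : ι → K) from pi_eq_sum_univ' u]
      rw [map_sum]
      refine Finset.sum_congr rfl fun j _ => ?_
      rw [← Finset.sum_smul, ← hlin, hu, map_smul]
    have h5 : ∑ i : ι, ∑ j : ι, (v j * L ![Pi.single j 1, Pi.single i 1]) •
        ExteriorAlgebra.ι K (Pi.single i 1 : ι → K) = ExteriorAlgebra.ι K u := by
      rw [← h4, Finset.sum_comm]
    rw [h4, h5, two_smul]
  rw [om, map_smul, key, smul_smul]
  norm_num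

/-- The sum of the products of the coefficients of `x` and of `x ∘ J`. -/
def normSq {P : Type} [Fintype P] [DecidableEq P] (J : (ι → K) → (ι → K))
    (x : MultilinearMap K (fun _ : P => ι → K) K) :
    K := ∑ s : P → ι, coef x s * x fun p => J (Pi.single (s p) 1)

/-- The alternating sum of an alternating form. -/
theorem altSum_alternating {P H : Type} [Fintype P] [DecidableEq P] [AddCommGroup H] [Module K H]
    (x : H [⋀^P]→ₗ[K] K) (v : P → H) :
    altSum x.toMultilinearMap v = (Fintype.card (Perm P) : K) * x v := by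
  unfold altSum
  have h1 : ∀ σ : Perm P, ((Perm.sign σ : ℤ) : K) * x.toMultilinearMap (fun p => v (σ p)) = x v := by
    intro σ
    have h2 := x.map_perm v σ
    change ((Perm.sign σ : ℤ) : K) * x (v ∘ σ) = x v
    rw [h2, Units.smul_def, zsmul_eq_mul, ← mul_assoc, ← Int.cast_mul, ← Units.val_mul,
      Int.units_mul_self, Units.val_one, Int.cast_one, one_mul]
  rw [Finset.sum_congr rfl fun σ _ => h1 σ, Finset.sum_const, Finset.card_univ, nsmul_eq_mul]

theorem commute_E2 (L : MultilinearMap K (fun _ : Fin 2 => ι → K) K) (m : ℕ) (b : A K ι) :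
    om L ^ m * b = b * om L ^ m :=
  ((show Commute (om L) b from (isEven_om L).comm b).pow_left m).eq

theorem E2_pow (L : MultilinearMap K (fun _ : Fin 2 => ι → K) K) (m : ℕ) :
    E2 L ^ m = (2 : K) ^ m • om L ^ m := by
  rw [E2_eq, smul_pow]

/-- The constant in the Hodge-Riemann relations. -/
def cst (r m : ℕ) (n : K) : K :=
  (m.factorial : K) * Fintype.card (Perm (Fin r × Fin 2)) * n /
    ((m + len r).factorial * 2 ^ (len r))

/-- The Hodge-Riemann relations in coordinates. -/
theorem hodgeRiemann (L : MultilinearMap K (fun _ : Fin 2 => ι → K) K)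
    (hL : ∀ a b, L ![a, b] = -L ![b, a]) (J : (ι → K) → (ι → K))
    (hJ : ∀ u w, L ![J u, w] = ∑ i, u i * w i) (r m : ℕ)
    (x : (ι → K) [⋀^Fin r × Fin 2]→ₗ[K] K)
    (hprim : ∀ v, altSum (mulM x.toMultilinearMap (pw L (m + 1))) v = 0)
    (v : (Fin r × Fin 2) ⊕ ((Fin r × Fin 2) ⊕ (Fin m × Fin 2)) → ι → K) :
    (-1) ^ r * altSum (mulM x.toMultilinearMap (mulM x.toMultilinearMap (pw L m))) v =
      cst r m (normSq J x.toMultilinearMap) * altSum (mulM (pw L r) (mulM (pw L r) (pw L m))) v := by
  set X := x.toMultilinearMap with hX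
  set y : A K ι := cls (en r) (coef X) with hy
  set w : A K ι := om L with hw
  have hw1 : IsEven w := isEven_om L
  -- primitivity
  have h1 : w ^ (m + 1) * y = 0 := by
    have h2 : cls (addE (en r) (en (m + 1))) (coef (mulM X (pw L (m + 1)))) = 0 :=
      cls_eq_zero _ _ fun s => hprim _
    rw [cls_mulM, cls_pw, E2_pow, mul_smul_comm, ← commute_E2] at h2
    exact (smul_eq_zero.1 h2).resolve_left (pow_ne_zero _ two_ne_zero)
  -- the product
  have h2 : ((m + len r).factorial : K) • (y * (w ^ m * y)) =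
      ((-1) ^ r * m.factorial * Fintype.card (Perm (Fin r × Fin 2)) * normSq J X) •
        w ^ (m + len r) := by
    have h3 : ∀ s : Fin r × Fin 2 → ι, ((m + len r).factorial : K) •
        (ιMulti K (len r) (fun i => (Pi.single (s (en r i)) 1 : ι → K)) * (w ^ m * y)) =
        ((-1) ^ r * m.factorial * (Fintype.card (Perm (Fin r × Fin 2)) *
          X fun p => J (Pi.single (s p) 1))) • w ^ (m + len r) := by
      intro s
      have h4 := main_step hw1 (len r) m y h1 (fun i => J (Pi.single (s (en r i)) 1))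
        (fun i => Pi.single (s (en r i)) 1) (fun i => D_om L hL _ _ (hJ _))
      have h5 : Dm (len r) (fun i => J (Pi.single (s (en r i)) 1)) y =
          algebraMap K (A K ι) (Fintype.card (Perm (Fin r × Fin 2)) *
            X fun p => J (Pi.single (s p) 1)) := by
        have h6 := Dm_cls (en r) X (fun p => J (Pi.single (s p) 1))
        rw [hX, altSum_alternating] at h6
        exact h6
      rw [h4, h5, ← Algebra.commutes, ← Algebra.smul_def, smul_smul, len_eq, sg_two]
    have h6 : ∀ z : A K ι, y * z = ∑ s : Fin r × Fin 2 → ι, coef X s •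
        (ιMulti K (len r) (fun i => (Pi.single (s (en r i)) 1 : ι → K)) * z) := by
      intro z
      rw [hy, cls, Finset.sum_mul]
      refine Finset.sum_congr rfl fun s _ => ?_
      rw [smul_mul_assoc]
    rw [h6 (w ^ m * y), Finset.smul_sum]
    simp only [smul_comm ((m + len r).factorial : K), h3, smul_smul]
    rw [← Finset.sum_smul, normSq, Finset.mul_sum]
    congr 1
    refine Finset.sum_congr rfl fun s _ => ?_
    ring
  -- evaluation
  have h3 : cls (addE (en r) (addE (en r) (en m))) (coef (mulM X (mulM X (pw L m)))) =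
      (2 : K) ^ m • (y * (w ^ m * y)) := by
    rw [cls_mulM, cls_mulM, cls_pw, E2_pow, mul_smul_comm, mul_smul_comm, ← commute_E2]
  have h4 : cls (addE (en r) (addE (en r) (en m))) (coef (mulM (pw L r) (mulM (pw L r) (pw L m)))) =
      (2 : K) ^ (m + len r) • w ^ (m + len r) := by
    rw [cls_mulM, cls_mulM, cls_pw, cls_pw, ← pow_add, ← pow_add, E2_pow, len_eq]
    congr 2 <;> ring
  have h5 := Dm_cls (addE (en r) (addE (en r) (en m))) (mulM X (mulM X (pw L m))) v
  have h6 := Dm_cls (addE (en r) (addE (en r) (en m))) (mulM (pw L r) (mulM (pw L r) (pw L m))) v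
  rw [h3] at h5
  rw [h4] at h6
  have h7 : ((m + len r).factorial : K) ≠ 0 := Nat.cast_ne_zero.2 (Nat.factorial_ne_zero _)
  have h8 : (2 : K) ^ (len r) ≠ 0 := pow_ne_zero _ two_ne_zero
  have h9 : ((m + len r).factorial * 2 ^ (len r) : K) • ((2 : K) ^ m • (y * (w ^ m * y))) =
      ((-1) ^ r * m.factorial * Fintype.card (Perm (Fin r × Fin 2)) * normSq J X) •
        ((2 : K) ^ (m + len r) • w ^ (m + len r)) := by
    rw [smul_smul, smul_smul]
    have h10 : ((m + len r).factorial * 2 ^ (len r) * 2 ^ m : K) =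
        2 ^ (m + len r) * (m + len r).factorial := by
      rw [pow_add]
      ring
    rw [h10, ← smul_smul, h2, smul_smul]
    congr 1
    ring
  have h10 := congrArg (Dm _ (fun i => v (addE (en r) (addE (en r) (en m)) i))) h9
  rw [LinearMap.map_smul _ ((m + len r).factorial * 2 ^ (len r) : K), h5,
    LinearMap.map_smul _ ((-1) ^ r * m.factorial * Fintype.card (Perm (Fin r × Fin 2)) * normSq J X),
    h6, Algebra.smul_def, Algebra.smul_def, ← map_mul, ← map_mul] at h10
  have h11 := (algebraMap K (A K ι)).injective h10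
  rw [cst]
  field_simp
  have h12 : ((-1 : K) ^ r) * (-1) ^ r = 1 := by rw [← mul_pow]; norm_num
  linear_combination (-1) ^ r * h11 + m.factorial * Fintype.card (Perm (Fin r × Fin 2)) *
    normSq J X * altSum (mulM (pw L r) (mulM (pw L r) (pw L m))) v * h12

/-- The Hodge-Riemann relations for a space with a basis. -/
theorem hr_basis {M : Type} [AddCommGroup M] [Module K M] (e : Module.Basis ι K M)
    (θ : M [⋀^Fin 2]→ₗ[K] K) (J : M → M)
    (hJ : ∀ u w, θ ![J u, w] = ∑ i, e.repr u i * e.repr w i) (r m : ℕ)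
    (x : M [⋀^Fin r × Fin 2]→ₗ[K] K)
    (hprim : ∀ v, altSum (times x (powE (fun a b => θ ![a, b]) (m + 1))) v = 0)
    (v : (Fin r × Fin 2) ⊕ ((Fin r × Fin 2) ⊕ (Fin m × Fin 2)) → M) :
    (-1) ^ r * altSum (times x (times x (powE (fun a b => θ ![a, b]) m))) v =
      cst r m (∑ s : Fin r × Fin 2 → ι, (x fun p => e (s p)) * x fun p => J (e (s p))) *
        altSum (times (powE (fun a b => θ ![a, b]) r)
          (times (powE (fun a b => θ ![a, b]) r) (powE (fun a b => θ ![a, b]) m))) v := by
  classical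
  let Ψ : (ι → K) ≃ₗ[K] M := e.equivFun.symm
  let L : MultilinearMap K (fun _ : Fin 2 => ι → K) K :=
    θ.toMultilinearMap.compLinearMap fun _ => Ψ.toLinearMap
  let J' : (ι → K) → (ι → K) := fun u => Ψ.symm (J (Ψ u))
  have hLapp : ∀ v : Fin 2 → ι → K, L v = θ ![Ψ (v 0), Ψ (v 1)] := by
    intro v
    change θ (fun k => Ψ (v k)) = _
    congr 1
    funext k
    fin_cases k <;> rfl
  have hΨJ : ∀ u, Ψ (J' u) = J (Ψ u) := fun u => Ψ.apply_symm_apply _
  have hL : ∀ a b, L ![a, b] = -L ![b, a] := by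
    intro a b
    rw [hLapp, hLapp]
    have h := θ.map_swap ![Ψ b, Ψ a] (show (0 : Fin 2) ≠ 1 by decide)
    refine Eq.trans ?_ h
    congr 1
    funext k
    fin_cases k <;> rfl
  have hΨr : ∀ (u : ι → K) i, e.repr (Ψ u) i = u i := by
    intro u i
    change e.repr (e.equivFun.symm u) i = u i
    rw [← e.equivFun_apply, LinearEquiv.apply_symm_apply]
  have hΨe : ∀ i, Ψ (Pi.single i 1) = e i := by
    intro i
    change e.equivFun.symm (Pi.single i 1) = e i
    rw [LinearEquiv.symm_apply_eq]
    funext k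
    rw [e.equivFun_self, Pi.single_apply]
    simp only [eq_comm]
  have hJ' : ∀ u w, L ![J' u, w] = ∑ i, u i * w i := by
    intro u w
    rw [hLapp]
    change θ ![Ψ (J' u), Ψ w] = _
    rw [hΨJ, hJ]
    exact Finset.sum_congr rfl fun i _ => by rw [hΨr, hΨr]
  let y : (ι → K) [⋀^Fin r × Fin 2]→ₗ[K] K := x.compLinearMap Ψ.toLinearMap
  have hy : ∀ v, y v = x (fun p => Ψ (v p)) := fun v => rfl
  have hpw : ∀ k : ℕ, (pw L k : (Fin k × Fin 2 → _) → K) = fun w =>
      powE (fun a b => θ ![a, b]) k (fun p => Ψ (w p)) := by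
    intro k
    funext w
    rw [pw_apply]
    unfold powE
    exact Finset.prod_congr rfl fun k _ => hLapp _
  have h1 : ∀ v, altSum (mulM y.toMultilinearMap (pw L (m + 1))) v = 0 := by
    intro v
    have h2 := hprim (fun p => Ψ (v p))
    rw [Pool.Agent.W547.HR.altSum_comp] at h2
    rw [← h2]
    congr 1
    funext w
    rw [mulM_apply, hpw]
    rfl
  have h3 := hodgeRiemann L hL J' hJ' r m y h1 (fun p => Ψ.symm (v p))
  have hn : normSq J' y.toMultilinearMap =
      ∑ s : Fin r × Fin 2 → ι, (x fun p => e (s p)) * x fun p => J (e (s p)) := by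
    unfold normSq
    refine Finset.sum_congr rfl fun s _ => ?_
    have e1 : coef y.toMultilinearMap s = x fun p => e (s p) := by
      change x (fun p => Ψ (Pi.single (s p) 1)) = _
      simp only [hΨe]
    have e2 : y.toMultilinearMap (fun p => J' (Pi.single (s p) 1)) = x fun p => J (e (s p)) := by
      change x (fun p => Ψ (J' (Pi.single (s p) 1))) = _
      simp only [hΨJ, hΨe]
    rw [e1, e2]
  have h4 : v = fun p => Ψ (Ψ.symm (v p)) := by
    funext p
    rw [Ψ.apply_symm_apply]
  rw [hn] at h3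
  rw [h4, Pool.Agent.W547.HR.altSum_comp, Pool.Agent.W547.HR.altSum_comp]
  have h5 : (mulM y.toMultilinearMap (mulM y.toMultilinearMap (pw L m)) : (_ → _) → K) =
      fun w => times x (times x (powE (fun a b => θ ![a, b]) m)) (fun p => Ψ (w p)) := by
    funext w
    rw [mulM_apply, mulM_apply, hpw]
    rfl
  have h6 : (mulM (pw L r) (mulM (pw L r) (pw L m)) : (_ → _) → K) =
      fun w => times (powE (fun a b => θ ![a, b]) r)
          (times (powE (fun a b => θ ![a, b]) r) (powE (fun a b => θ ![a, b]) m))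
            (fun p => Ψ (w p)) := by
    funext w
    rw [mulM_apply, mulM_apply, hpw, hpw]
    rfl
  rw [h5, h6] at h3
  exact h3

end

end Pool.Agent.TH117.PO.RK
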