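import Pool.Agent.TH117.PO.Ind
import Pool.Agent.TH117.PO.Herm
import Pool.Agent.TH117.PO.RK
import Pool.Agent.TH117.BL.Kp

/-!
# Positivity of primitive classes
-/

set_option autoImplicit false
set_option linter.unusedSectionVars false
set_option linter.unusedVariables false

namespace Pool.Agent.TH117.PO

open NumberField Pool.Agent.H204R3.CM Pool.Agent.W547.KB Pool.Agent.W547.LD Pool.Agent.W547.HR
  Pool.Agent.W495.TA Module Pool.Agent.W976.TA Equiv
open scoped TensorProduct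

noncomputable section

variable {p : ℕ} [Fact p.Prime] {ν : PadicAlgCl p ≃+* ℂ} {Ω : Type} [Field Ω] [CharZero Ω]
  {C : (Y : RedAV p ν) → (κ : Type) → ((TM Ω Y) [⋀^κ]→ₗ[Ω] Ω) → Prop}

/-- Alternating sums of multilinear forms which vanish on rational vectors. -/
theorem ext_altSum {Y : RedAV p ν} {P : Type} [Fintype P] [DecidableEq P]
    (g : MultilinearMap Ω (fun _ : P => TM Ω Y) Ω)
    (h : ∀ v : P → Y.X.H1, altSum g (fun k => (1 : Ω) ⊗ₜ[ℚ] v k) = 0) (v : P → TM Ω Y) :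
    altSum g v = 0 := by
  have h0 : ∀ u, altSum g u = MultilinearMap.alternatization g u := by
    intro u
    rw [MultilinearMap.alternatization_apply]
    refine Finset.sum_congr rfl fun σ _ => ?_
    rw [Units.smul_def, zsmul_eq_mul]
    rfl
  have h1 : MultilinearMap.alternatization g = 0 := ext_res fun v => by
    change MultilinearMap.alternatization g (fun k => (1 : Ω) ⊗ₜ[ℚ] v k) = 0
    rw [← h0]
    exact h v
  rw [h0, h1]
  rfl

section

variable {L : Type} [Field L] [NumberField L] [IsCMField L] [IsGalois ℚ L]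
  {jO : L →+* Ω} {j : L →+* ℂ}

/-- The form of the polarization is the class of a divisor. -/
theorem theta_mem (hC : IsCycleSystem Ω C) {Y : RedAV p ν} {α : Y.X.H1} (hα : IsPolar Y.X α)
    {θ : (TM Ω Y) [⋀^Fin 2]→ₗ[Ω] Ω}
    (hθ : ∀ x y, res θ ![x, y] = (riemannForm Y.X α x y : Ω)) : C Y (Fin 2) θ := by
  obtain ⟨f, hf, hfv⟩ := exists_divisor (isPolarization hα)
  refine hC.hodge f (isHodge_of_ring hf) θ fun v => ?_
  rw [hfv, ← hθ]
  congr 1
  funext k
  fin_cases k <;> rfl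

/-- The powers of the class of the polarization. -/
theorem power_mem (hC : IsCycleSystem Ω C) {Y : RedAV p ν} {θ : (TM Ω Y) [⋀^Fin 2]→ₗ[Ω] Ω}
    (hθ : C Y (Fin 2) θ) (m : ℕ) :
    ∃ (f : (TM Ω Y) [⋀^Fin m × Fin 2]→ₗ[Ω] Ω) (a : ℚ), a ≠ 0 ∧ C Y (Fin m × Fin 2) f ∧
      ∀ v, f v = (a : Ω) * altSum (powE (fun x y => θ ![x, y]) m) v := by
  classical
  induction m with
  | zero =>
    refine ⟨AlternatingMap.constOfIsEmpty Ω _ _ 1, 1, one_ne_zero, hC.unit _ fun v => rfl,
      fun v => ?_⟩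
    unfold altSum powE
    simp
  | succ m ih =>
    obtain ⟨f, a, ha, hf, hfv⟩ := ih
    refine ⟨(cupO θ f).domDomCongr (gE m), Fintype.card (Perm (Fin m × Fin 2)) * a,
      mul_ne_zero (Nat.cast_ne_zero.2 Fintype.card_ne_zero) ha,
      hC.reindex _ _ (hC.cup θ f hθ hf _ fun v => cupO_apply θ f v), fun v => ?_⟩
    have h1 : ((cupO θ f).domDomCongr (gE m)) v = cupO θ f (fun p => v (gE m p)) := rfl
    have h2 : ∀ w : Fin 2 ⊕ (Fin m × Fin 2) → TM Ω Y, cupO θ f w =
        altSum (times (fun u : Fin 2 → TM Ω Y => θ ![u 0, u 1])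
          (fun u => (a : Ω) * altSum (powE (fun x y => θ ![x, y]) m) u)) w := by
      intro w
      rw [cupO_apply]
      unfold altSum times
      refine Finset.sum_congr rfl fun σ _ => ?_
      rw [hfv]
      congr 2
      change θ _ = θ _
      congr 1
      funext k
      fin_cases k <;> rfl
    have h3 : altSum (times (fun u : Fin 2 → TM Ω Y => θ ![u 0, u 1])
        (fun u => (a : Ω) * altSum (powE (fun x y => θ ![x, y]) m) u)) (fun p => v (gE m p)) =
        (a : Ω) * altSum (times (fun u : Fin 2 → TM Ω Y => θ ![u 0, u 1])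
          (altSum (powE (fun x y => θ ![x, y]) m))) (fun p => v (gE m p)) := by
      rw [← altSum_const_mul]
      congr 1
      funext w
      unfold times
      ring
    have h4 : altSum (powE (fun x y => θ ![x, y]) (m + 1)) v =
        altSum (times (fun u : Fin 2 → TM Ω Y => θ ![u 0, u 1])
          (powE (fun x y => θ ![x, y]) m)) (fun p => v (gE m p)) := by
      rw [← altSum_reindex (gE m)]
      congr 1
      funext w
      unfold powE times
      rw [Fin.prod_univ_succ]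
      rfl
    rw [h1, h2, h3, altSum_absorb, h4]
    push_cast
    ring

variable {Y : RedAV p ν} (e : Basis (Wt Y.X L) Ω (TM Ω Y)) (h1 : ∀ w, co jO w (e w) = 1)
  (h0 : ∀ w w', w ≠ w' → co jO w (e w') = 0)

variable (jO) in
/-- The map with `θ (J u, w) = ∑ u_i w_i`. -/
def JJ (α : Y.X.H1) (u : TM Ω Y) : TM Ω Y := ∑ w : Wt Y.X L, (co jO w u / jO (ev α w)) • e (bar w)

include h1 h0

theorem JJ_spec {α : Y.X.H1} (hα : IsPolar Y.X α) (hj : ∀ w : Wt Y.X L, ev α w ≠ 0)
    {θ : (TM Ω Y) [⋀^Fin 2]→ₗ[Ω] Ω} (hθ : ∀ x y, θ ![x, y] =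
      ∑ w : Wt Y.X L, jO (ev α w) * (co jO (bar w) x * co jO w y)) (u y : TM Ω Y) :
    θ ![JJ jO e α u, y] = ∑ w : Wt Y.X L, e.repr u w * e.repr y w := by
  classical
  rw [hθ]
  refine Finset.sum_congr rfl fun w _ => ?_
  have h2 : co jO (bar w) (JJ jO e α u) = co jO w u / jO (ev α w) := by
    unfold JJ
    rw [map_sum, Finset.sum_eq_single w]
    · rw [map_smul, h1, smul_eq_mul, mul_one]
    · intro v _ hv
      rw [map_smul, h0 _ _ fun h => hv (bar_injective h).symm, smul_zero]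
    · intro h
      exact absurd (Finset.mem_univ w) h
  rw [h2, Pool.Agent.TH117.BL.repr_eq jO e h1 h0, Pool.Agent.TH117.BL.repr_eq jO e h1 h0]
  have h3 : jO (ev α w) ≠ 0 := (map_ne_zero jO).2 (hj w)
  field_simp

theorem JJ_e (α : Y.X.H1) (w : Wt Y.X L) :
    JJ jO e α (e w) = (jO (ev α w))⁻¹ • e (bar w) := by
  classical
  unfold JJ
  rw [Finset.sum_eq_single w]
  · rw [h1, one_div]
  · intro v _ hv
    rw [h0 _ _ hv, zero_div, zero_smul]
  · intro h
    exact absurd (Finset.mem_univ w) h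

theorem x_JJ (α : Y.X.H1) {κ : Type} [Fintype κ] [DecidableEq κ] (z : (TM Ω Y) [⋀^κ]→ₗ[Ω] Ω)
    (s : κ → Wt Y.X L) : (z fun k => JJ jO e α (e (s k))) =
      (∏ k, jO (ev α (s k)))⁻¹ * z fun k => e (bar (s k)) := by
  have h2 : (fun k => JJ jO e α (e (s k))) = fun k => (jO (ev α (s k)))⁻¹ • e (bar (s k)) :=
    funext fun k => JJ_e e h1 h0 α (s k)
  have h3 := z.toMultilinearMap.map_smul_univ (fun k => (jO (ev α (s k)))⁻¹)
    fun k => e (bar (s k))
  rw [h2]
  rw [Finset.prod_inv_distrib, smul_eq_mul] at h3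
  exact h3

/-- The terms of the sum. -/
theorem term_pos (hC : IsCycleSystem Ω C) (hR : IsRosatiPositive Ω C) (hB : Big Y.X j) {α : Y.X.H1} (hα : IsPolar Y.X α)
    {r : ℕ} {z : (TM Ω Y) [⋀^Fin r × Fin 2]→ₗ[Ω] Ω} (hz : C Y _ z)
    (hzS : z ∈ SP jO C j Y (Fin r × Fin 2)) {s : Fin r × Fin 2 → Wt Y.X L}
    (hs : (z fun k => e (s k)) ≠ 0) :
    ∃ μ : L, (z fun k => e (s k)) * (z fun k => JJ jO e α (e (s k))) = jO μ ∧ PosC (j μ) := by
  classical
  have hsi : Function.Injective s := by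
    intro k k' hk
    by_contra hne
    refine hs (z.map_eq_zero_of_eq _ ?_ hne)
    rw [hk]
  obtain ⟨_, ⟨I, hI, rfl⟩, hg⟩ := exists_of_span hzS hs
  obtain ⟨σ, hσ⟩ := exists_of_mono hg
  have h2 : ∀ k, I k = s (σ k) := by
    intro k
    by_contra hne
    exact hσ k (h0 _ _ hne)
  have h3 : IsPos jO C j Y s := IsPos.reindex hC σ (fun k => (h2 k).symm) hI
  obtain ⟨μ, h4, h5⟩ := h3.line hC hB hsi (Ln_coef hC j hB e h1 h0 hz hsi) hs
  refine ⟨μ * (∏ k, ev α (s k))⁻¹, ?_, ?_⟩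
  · rw [x_JJ e h1 h0, map_mul, ← h4, map_inv₀, map_prod]
    ring
  · have h6 : PosC (∏ k, (j (ev α (bar (s k))) * sgn j (s k))) :=
      PosC.prod _ _ fun k _ => polar_sign j hα (s k)
    rw [Finset.prod_mul_distrib] at h6
    have h7 : ∏ k, j (ev α (bar (s k))) = ∏ k, j (ev α (s k)) := by
      rw [Fintype.prod_prod_type, Fintype.prod_prod_type]
      refine Finset.prod_congr rfl fun i _ => ?_
      rw [Fin.prod_univ_two, Fin.prod_univ_two, ev_bar_polar j hα, ev_bar_polar j hα, map_neg,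
        map_neg]
      ring
    rw [h7] at h6
    have h8 := (h5.2 hR).mul h6.inv
    have h9 : j (μ * (∏ k, ev α (s k))⁻¹) = (j μ * ∏ k, sgn j (s k)) *
        ((∏ k, j (ev α (s k))) * ∏ k, sgn j (s k))⁻¹ := by
      have e1 : ∏ k, sgn j (s k) ≠ 0 := Finset.prod_ne_zero_iff.2 fun k _ => sgn_ne j (s k)
      rw [map_mul, map_inv₀, map_prod, mul_inv]
      field_simp
    rw [h9]
    exact h8

/-- The sum. -/
theorem sum_pos (hC : IsCycleSystem Ω C) (hR : IsRosatiPositive Ω C) (hB : Big Y.X j) {α : Y.X.H1} (hα : IsPolar Y.X α)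
    {r : ℕ} {z : (TM Ω Y) [⋀^Fin r × Fin 2]→ₗ[Ω] Ω} (hz : C Y _ z)
    (hzS : z ∈ SP jO C j Y (Fin r × Fin 2)) (hz0 : z ≠ 0) :
    ∃ γ : L, ∑ s : Fin r × Fin 2 → Wt Y.X L, (z fun k => e (s k)) *
      (z fun k => JJ jO e α (e (s k))) = jO γ ∧ PosC (j γ) := by
  classical
  have key : ∀ s : Fin r × Fin 2 → Wt Y.X L, ∃ μ : L,
      (z fun k => e (s k)) * (z fun k => JJ jO e α (e (s k))) = jO μ ∧
        (((z fun k => e (s k)) ≠ 0 → PosC (j μ)) ∧ ∃ t : ℝ, 0 ≤ t ∧ j μ = t) := by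
    intro s
    by_cases hs : (z fun k => e (s k)) = 0
    · exact ⟨0, by rw [hs, zero_mul, map_zero], fun h => absurd hs h, 0, le_rfl, by simp⟩
    · obtain ⟨μ, h2, h3⟩ := term_pos e h1 h0 hC hR hB hα hz hzS hs
      obtain ⟨t, ht, ht2⟩ := h3
      exact ⟨μ, h2, fun _ => ⟨t, ht, ht2⟩, t, ht.le, ht2⟩
  choose μ h2 h3 t ht h4 using key
  refine ⟨∑ s, μ s, ?_, ∑ s, t s, ?_, ?_⟩
  · rw [map_sum]
    exact Finset.sum_congr rfl fun s _ => h2 s
  · obtain ⟨s, hs⟩ : ∃ s : Fin r × Fin 2 → Wt Y.X L, (z fun k => e (s k)) ≠ 0 := by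
      by_contra hcon
      push Not at hcon
      exact hz0 (Basis.ext_alternating e fun v _ => hcon v)
    refine Finset.sum_pos' (fun s _ => ht s) ⟨s, Finset.mem_univ s, ?_⟩
    obtain ⟨t', ht', h5⟩ := h3 s hs
    rw [h4] at h5
    have h6 : t s = t' := by exact_mod_cast h5
    rw [h6]
    exact ht'
  · rw [map_sum]
    push_cast
    exact Finset.sum_congr rfl fun s _ => h4 s

end

/-- A complex number which is a rational number and positive. -/
theorem rat_of_pos {L : Type} [Field L] [CharZero L] (j : L →+* ℂ) (jO : L →+* Ω) {γ : L}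
    (hγ : PosC (j γ)) {q : ℚ} (hq : jO γ = (q : Ω)) : 0 < q := by
  have h1 : γ = (q : L) := jO.injective (by rw [hq, map_ratCast])
  obtain ⟨t, ht, h2⟩ := hγ
  rw [h1, map_ratCast] at h2
  have h3 : ((q : ℚ) : ℝ) = t := by exact_mod_cast h2
  rw [← h3] at ht
  exact_mod_cast ht

/-- Positivity of primitive classes. -/
theorem positive [IsAlgClosed Ω] (hC : IsCycleSystem Ω C) (hR : IsRosatiPositive Ω C) {Y : RedAV p ν} {α : Y.X.H1}
    (hα : IsPolar Y.X α) {r m : ℕ} (hrm : 2 * (2 * r + m) = finrank ℚ Y.X.H1)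
    {z : (TM Ω Y) [⋀^Fin r × Fin 2]→ₗ[Ω] Ω} (hz : C Y _ z) (hA : Alg Ω Y _ z) (hz0 : z ≠ 0)
    (hprim : IsPrim α m z) : IsPosClass α m z := by
  classical
  obtain ⟨T, hT⟩ := alg_SP hC hA
  have hne : Nonempty ((T.prod Y.X).prod (single (Pool.Agent.TH117.BL.kp p))).I := ⟨Sum.inr ()⟩
  obtain ⟨L, _, _, _, _, j, hj⟩ :=
    exists_cm ((T.prod Y.X).prod (single (Pool.Agent.TH117.BL.kp p)))
  have hTj : Big T j := fun i ψ => hj (Sum.inl (Sum.inl i)) ψ
  have hB : Big Y.X j := fun i ψ => hj (Sum.inl (Sum.inr i)) ψ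
  let jO : L →+* Ω := ((IsAlgClosed.lift : L →ₐ[ℚ] Ω) : L →+* Ω)
  obtain ⟨e, h1, h0⟩ := Pool.Agent.W67.TA.basis p ν Ω L j jO Y hB
  have hzS : z ∈ SP jO C j Y (Fin r × Fin 2) := hT L j jO hTj hB
  obtain ⟨θ, hθ⟩ := exists_theta (jO := jO) j hα
  have hθr := res_theta j hB hθ
  have hCθ : C Y (Fin 2) θ := theta_mem hC hα hθr
  have hθ1 : ∀ x y : Y.X.H1, θ ![(1 : Ω) ⊗ₜ[ℚ] x, (1 : Ω) ⊗ₜ[ℚ] y] =
      castE Ω (riemannForm Y.X α) x y := by
    intro x y
    rw [castE, ← hθr]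
    unfold res
    congr 1
    funext k
    fin_cases k <;> rfl
  have hpow : ∀ (k : ℕ) (v : Fin k × Fin 2 → Y.X.H1),
      powE (fun x y => θ ![x, y]) k (fun i => (1 : Ω) ⊗ₜ[ℚ] v i) =
        powE (castE Ω (riemannForm Y.X α)) k v := by
    intro k v
    unfold powE
    exact Finset.prod_congr rfl fun i _ => hθ1 _ _
  -- the primitivity over `Ω`
  have hprim' : ∀ v, altSum (times z (powE (fun x y => θ ![x, y]) (m + 1))) v = 0 := by
    have h2 : (times z (powE (fun x y => θ ![x, y]) (m + 1)) : _ → Ω) =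
        RK.mulM z.toMultilinearMap (RK.pw θ.toMultilinearMap (m + 1)) := by
      funext v
      rw [RK.mulM_apply, RK.pw_apply]
      unfold times powE
      congr 1
      refine Finset.prod_congr rfl fun i _ => ?_
      change θ _ = θ _
      congr 1
      funext k
      fin_cases k <;> rfl
    rw [h2]
    refine ext_altSum _ fun v => ?_
    rw [← h2, ← hprim v]
    unfold altSum
    refine Finset.sum_congr rfl fun σ _ => ?_
    congr 1
    unfold times
    rw [hpow]
    rfl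
  obtain ⟨γ, hγ, hpos⟩ := sum_pos e h1 h0 hC hR hB hα hz hzS hz0
  have hmain := RK.hr_basis e θ (JJ jO e α)
    (fun u w => JJ_spec e h1 h0 hα (fun w => ev_polar_ne j hα w) hθ u w) r m z hprim'
  rw [hγ] at hmain
  have hmain' : ∀ v : (Fin r × Fin 2) ⊕ ((Fin r × Fin 2) ⊕ (Fin m × Fin 2)) → Y.X.H1,
      (-1) ^ r * altSum (times (res z) (times (res z)
        (powE (castE Ω (riemannForm Y.X α)) m))) v =
      RK.cst r m (jO γ) * altSum (times (powE (castE Ω (riemannForm Y.X α)) r)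
        (times (powE (castE Ω (riemannForm Y.X α)) r)
          (powE (castE Ω (riemannForm Y.X α)) m))) v := by
    intro v
    have h2 := hmain fun i => (1 : Ω) ⊗ₜ[ℚ] v i
    have e1 : altSum (times z (times z (powE (fun a b => θ ![a, b]) m)))
        (fun i => (1 : Ω) ⊗ₜ[ℚ] v i) = altSum (times (res z) (times (res z)
        (powE (castE Ω (riemannForm Y.X α)) m))) v := by
      unfold altSum
      refine Finset.sum_congr rfl fun σ _ => ?_
      congr 1
      unfold times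
      rw [hpow]
      rfl
    have e2 : altSum (times (powE (fun a b => θ ![a, b]) r)
          (times (powE (fun a b => θ ![a, b]) r) (powE (fun a b => θ ![a, b]) m)))
        (fun i => (1 : Ω) ⊗ₜ[ℚ] v i) = altSum (times (powE (castE Ω (riemannForm Y.X α)) r)
        (times (powE (castE Ω (riemannForm Y.X α)) r)
          (powE (castE Ω (riemannForm Y.X α)) m))) v := by
      unfold altSum
      refine Finset.sum_congr rfl fun σ _ => ?_
      congr 1
      unfold times
      rw [hpow, hpow, hpow]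
    rw [e1, e2] at h2
    exact h2
  -- the constant is rational
  obtain ⟨v0, hv0⟩ := exists_vol_rat (isPolarization hα) r m hrm
  obtain ⟨Θ, a, ha, hΘ, hΘv⟩ := power_mem hC hCθ m
  have hW : C Y _ (cupO z (cupO z Θ)) :=
    hC.cup z _ hz (hC.cup z Θ hz hΘ _ fun v => cupO_apply z Θ v) _ fun v =>
      cupO_apply z (cupO z Θ) v
  obtain ⟨b, hb⟩ := hC.top (cupO z (cupO z Θ)) (by
    rw [← hrm, Nat.card_eq_fintype_card]
    simp only [Fintype.card_prod, Fintype.card_fin, Fintype.card_sum]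
    ring) hW v0
  have hWv : ∀ w : (Fin r × Fin 2) ⊕ ((Fin r × Fin 2) ⊕ (Fin m × Fin 2)) → TM Ω Y,
      cupO z (cupO z Θ) w = ((Fintype.card (Perm ((Fin r × Fin 2) ⊕ (Fin m × Fin 2))) : ℕ) : Ω) *
        ((a : Ω) * ((Fintype.card (Perm (Fin m × Fin 2)) : ℕ) : Ω)) *
          altSum (times z (times z (powE (fun a b => θ ![a, b]) m))) w := by
    intro w
    have h2 : ∀ u, cupO z Θ u = (a : Ω) * ((Fintype.card (Perm (Fin m × Fin 2)) : ℕ) : Ω) *
        altSum (times z (powE (fun a b => θ ![a, b]) m)) u := by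
      intro u
      rw [cupO_apply, mul_assoc, ← altSum_absorb, ← altSum_const_mul]
      congr 1
      funext x
      unfold times
      rw [hΘv]
      ring
    rw [cupO_apply, mul_comm ((Fintype.card (Perm ((Fin r × Fin 2) ⊕ (Fin m × Fin 2))) : ℕ) : Ω),
      mul_assoc, ← altSum_absorb, ← altSum_const_mul]
    congr 1
    funext x
    unfold times
    rw [h2]
    unfold times
    ring
  have e0 : res (cupO z (cupO z Θ)) v0 =
      ((Fintype.card (Perm ((Fin r × Fin 2) ⊕ (Fin m × Fin 2))) : ℕ) : Ω) *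
        ((a : Ω) * ((Fintype.card (Perm (Fin m × Fin 2)) : ℕ) : Ω)) *
          altSum (times (res z) (times (res z)
        (powE (castE Ω (riemannForm Y.X α)) m))) v0 := by
    change cupO z (cupO z Θ) (fun i => (1 : Ω) ⊗ₜ[ℚ] v0 i) = _
    rw [hWv]
    congr 1
    unfold altSum
    refine Finset.sum_congr rfl fun σ _ => ?_
    congr 1
    unfold times
    rw [hpow]
    rfl
  have hvol : altSum (times (powE (castE Ω (riemannForm Y.X α)) r)
        (times (powE (castE Ω (riemannForm Y.X α)) r)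
          (powE (castE Ω (riemannForm Y.X α)) m))) v0 =
      ((altSum (times (powE (riemannForm Y.X α) r) (times (powE (riemannForm Y.X α) r)
        (powE (riemannForm Y.X α) m))) v0 : ℚ) : Ω) := by
    have h2 := altSum_cast (Q := Unit) (Rat.castHom Ω) (times (powE (riemannForm Y.X α) r)
      (times (powE (riemannForm Y.X α) r) (powE (riemannForm Y.X α) m))) v0
    rw [Rat.coe_castHom] at h2
    rw [h2]
    congr 1
    funext w
    have h3 : ∀ (k : ℕ) (u : Fin k × Fin 2 → Y.X.H1),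
        powE (castE Ω (riemannForm Y.X α)) k u = ((powE (riemannForm Y.X α) k u : ℚ) : Ω) :=
      fun k u => (powE_cast (Rat.castHom Ω) (riemannForm Y.X α) k u).symm
    unfold times
    rw [h3, h3, h3, Rat.cast_mul, Rat.cast_mul]
  set V0 : ℚ := altSum (times (powE (riemannForm Y.X α) r) (times (powE (riemannForm Y.X α) r)
        (powE (riemannForm Y.X α) m))) v0 with hV0
  set N : ℚ := (Fintype.card (Perm ((Fin r × Fin 2) ⊕ (Fin m × Fin 2))) : ℕ) *
    (a * (Fintype.card (Perm (Fin m × Fin 2)) : ℕ)) with hN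
  have hN0 : N ≠ 0 := mul_ne_zero (Nat.cast_ne_zero.2 Fintype.card_ne_zero)
    (mul_ne_zero ha (Nat.cast_ne_zero.2 Fintype.card_ne_zero))
  have hf1 : ((m.factorial : ℕ) : ℚ) ≠ 0 := Nat.cast_ne_zero.2 (Nat.factorial_ne_zero _)
  have hf2 : ((Fintype.card (Perm (Fin r × Fin 2)) : ℕ) : ℚ) ≠ 0 :=
    Nat.cast_ne_zero.2 Fintype.card_ne_zero
  have hf3 : (((m + len r).factorial : ℕ) : ℚ) ≠ 0 :=
    Nat.cast_ne_zero.2 (Nat.factorial_ne_zero _)
  set D : ℚ := (m.factorial : ℕ) * (Fintype.card (Perm (Fin r × Fin 2)) : ℕ) /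
    (((m + len r).factorial : ℕ) * 2 ^ (len r)) with hD
  have hD0 : 0 < D := by
    rw [hD]
    have e1 : 0 < ((m.factorial : ℕ) : ℚ) := Nat.cast_pos.2 (Nat.factorial_pos _)
    have e2 : 0 < ((Fintype.card (Perm (Fin r × Fin 2)) : ℕ) : ℚ) :=
      Nat.cast_pos.2 Fintype.card_pos
    have e3 : 0 < (((m + len r).factorial : ℕ) : ℚ) := Nat.cast_pos.2 (Nat.factorial_pos _)
    positivity
  have hcst : RK.cst r m (jO γ) = (D : Ω) * jO γ := by
    unfold RK.cst
    rw [hD]
    push_cast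
    ring
  have hmm := hmain' v0
  rw [hvol, hcst] at hmm
  have hq : jO γ = (((-1) ^ r * b / (N * D * V0) : ℚ) : Ω) := by
    have e1 : ((N : ℚ) : Ω) ≠ 0 := Rat.cast_ne_zero.2 hN0
    have e2 : ((D : ℚ) : Ω) ≠ 0 := Rat.cast_ne_zero.2 hD0.ne'
    have e3 : ((V0 : ℚ) : Ω) ≠ 0 := Rat.cast_ne_zero.2 hv0
    rw [hb] at e0
    have e4 : (b : Ω) = (N : Ω) * altSum (times (res z) (times (res z)
        (powE (castE Ω (riemannForm Y.X α)) m))) v0 := by
      rw [e0, hN]
      push_cast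
      ring
    push_cast
    rw [e4]
    field_simp
    linear_combination (-1 : Ω) * hmm
  have hq0 := rat_of_pos j jO hpos hq
  refine ⟨D * ((-1) ^ r * b / (N * D * V0)), mul_pos hD0 hq0, fun v => ?_⟩
  rw [hmain' v, hcst, hq, Rat.cast_mul]

end

end Pool.Agent.TH117.PO
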