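import Pool.Agent.TH117.PO.Trans

/-!
# The classes in `Alg` are combinations of positive monomials
-/

set_option autoImplicit false
set_option linter.unusedSectionVars false
set_option linter.unusedVariables false

namespace Pool.Agent.TH117.PO

open NumberField Pool.Agent.H204R3.CM Pool.Agent.W547.KB Pool.Agent.W547.LD Pool.Agent.W547.HR
  Pool.Agent.W495.TA Module Pool.Agent.W976.TA
open scoped TensorProduct

noncomputable section

variable {L : Type} [Field L] [NumberField L] [IsCMField L] [IsGalois ℚ L]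
  {p : ℕ} [Fact p.Prime] {ν : PadicAlgCl p ≃+* ℂ} {Ω : Type} [Field Ω] [CharZero Ω]
  {jO : L →+* Ω} {C : (Y : RedAV p ν) → (κ : Type) → ((TM Ω Y) [⋀^κ]→ₗ[Ω] Ω) → Prop}
  {j : L →+* ℂ}

variable (jO C j) in
/-- The span of the positive monomials. -/
def SP (Y : RedAV p ν) (κ : Type) [Fintype κ] [DecidableEq κ] :
    Submodule Ω ((TM Ω Y) [⋀^κ]→ₗ[Ω] Ω) :=
  Submodule.span Ω {g | ∃ I : κ → Wt Y.X L, IsPos jO C j Y I ∧ g = monoO jO I}

/-- If an element of a span does not vanish on a vector, this holds for one of the generators. -/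
theorem exists_of_span {Y : RedAV p ν} {κ : Type} {S : Set ((TM Ω Y) [⋀^κ]→ₗ[Ω] Ω)}
    {f : (TM Ω Y) [⋀^κ]→ₗ[Ω] Ω} (hf : f ∈ Submodule.span Ω S) {x : κ → TM Ω Y} (hx : f x ≠ 0) :
    ∃ g ∈ S, g x ≠ 0 := by
  by_contra hcon
  push Not at hcon
  let ℓ : ((TM Ω Y) [⋀^κ]→ₗ[Ω] Ω) →ₗ[Ω] Ω :=
    { toFun := fun f => f x, map_add' := fun _ _ => rfl, map_smul' := fun _ _ => rfl }
  have h4 : Submodule.span Ω S ≤ LinearMap.ker ℓ := Submodule.span_le.2 fun g hg => hcon g hg
  exact hx (h4 hf)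

/-- A monomial that does not vanish on a vector. -/
theorem exists_of_mono {Y : RedAV p ν} {κ : Type} [Fintype κ] [DecidableEq κ]
    {J : κ → Wt Y.X L} {x : κ → TM Ω Y} (hx : monoO jO J x ≠ 0) :
    ∃ σ : Equiv.Perm κ, ∀ k, co jO (J k) (x (σ k)) ≠ 0 := by
  rw [Pool.Agent.W333.TA.monoO_apply] at hx
  obtain ⟨σ, -, hσ⟩ := Finset.exists_ne_zero_of_sum_ne_zero hx
  exact ⟨σ, fun k => Finset.prod_ne_zero_iff.1 (right_ne_zero_of_mul hσ) k (Finset.mem_univ k)⟩

section

variable {Y : RedAV p ν} {κ : Type} [Fintype κ] [DecidableEq κ]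
  (e : Basis (Wt Y.X L) Ω (TM Ω Y)) (h1 : ∀ w, co jO w (e w) = 1)
  (h0 : ∀ w w', w ≠ w' → co jO w (e w') = 0)

include h1 h0

theorem mem_SP (hB : Big Y.X j) {f : (TM Ω Y) [⋀^κ]→ₗ[Ω] Ω}
    (hf : ∀ I : κ → Wt Y.X L, Function.Injective I → (f fun k => e (I k)) ≠ 0 →
      IsPos jO C j Y I) : f ∈ SP jO C j Y κ := by
  classical
  have : Finite (Wt Y.X L) := Pool.Agent.W67.TA.finite_wt j hB
  let _ : Fintype (Wt Y.X L) := Fintype.ofFinite _
  have h2 : ((Fintype.card (Equiv.Perm κ) : ℕ) : Ω) • f ∈ SP jO C j Y κ := by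
    rw [Pool.Agent.TH117.BL.expand_formula jO e h1 h0 f]
    refine Submodule.sum_mem _ fun I _ => ?_
    by_cases h3 : (f fun k => e (I k)) = 0
    · rw [h3, zero_smul]
      exact Submodule.zero_mem _
    · refine Submodule.smul_mem _ _ (Submodule.subset_span ⟨I, hf I ?_ h3, rfl⟩)
      intro k k' hk
      by_contra hne
      refine h3 (f.map_eq_zero_of_eq _ ?_ hne)
      rw [hk]
  have h3 := Submodule.smul_mem _ (((Fintype.card (Equiv.Perm κ) : ℕ) : Ω))⁻¹ h2
  rwa [smul_smul, inv_mul_cancel₀ (Nat.cast_ne_zero.2 Fintype.card_ne_zero), one_smul] at h3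

theorem F_e (w : Wt Y.X L) (s : ℕ) : (F Ω Y ^ s) (e w) = jO (ev Y.π w) ^ s • e w := by
  refine e.ext_elem fun v => ?_
  rw [Pool.Agent.TH117.BL.repr_eq jO e h1 h0, Pool.Agent.TH117.BL.repr_eq jO e h1 h0,
    Pool.Agent.W333.TA.co_F_pow, map_smul, smul_eq_mul]
  by_cases hv : v = w
  · subst hv
    rfl
  · rw [h0 v w hv, mul_zero, mul_zero]

/-- Matching of eigenvalues. -/
theorem eqv_of_hom {Z : RedAV p ν} {h : TM Ω Y →ₗ[Ω] TM Ω Z} (hh : IsFrobHom Ω Y Z h)
    {w : Wt Y.X L} {w' : Wt Z.X L} (hw : co jO w' (h (e w)) ≠ 0) : Eqv Y Z w w' := by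
  obtain ⟨s, t, hs, ht, hst, hF⟩ := hh
  refine ⟨s, t, hs, ht, hst, jO.injective ?_⟩
  have h2 := congrArg (co jO w') (hF (e w))
  rw [F_e e h1 h0, map_smul, map_smul, smul_eq_mul, Pool.Agent.W333.TA.co_F_pow] at h2
  have h3 := mul_right_cancel₀ hw h2
  rw [map_pow, map_pow]
  exact h3

/-- The coefficients of the extension of a rational form. -/
theorem coef_of_rat {f : Y.X.H1 [⋀^κ]→ₗ[ℚ] ℚ} {g : (TM Ω Y) [⋀^κ]→ₗ[Ω] Ω}
    (hg : ∀ v, res g v = ((f v : ℚ) : Ω)) [Fintype (Wt Y.X L)] {c : (κ → Wt Y.X L) → L}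
    (hc : ∀ v : κ → Y.X.H1, ((f v : ℚ) : L) = ∑ I, c I * ∏ k, ev (v k) (I k))
    (I : κ → Wt Y.X L) : (g fun k => e (I k)) = jO (c I) := by
  classical
  let G : MultilinearMap Ω (fun _ : κ => TM Ω Y) Ω := ∑ J : κ → Wt Y.X L, jO (c J) •
    (MultilinearMap.mkPiAlgebra Ω κ Ω).compLinearMap fun k => co jO (J k)
  have hG : ∀ x, G x = ∑ J : κ → Wt Y.X L, jO (c J) * ∏ k, co jO (J k) (x k) := by
    intro x
    simp only [G, sum_apply, smul_apply,
      MultilinearMap.compLinearMap_apply, MultilinearMap.mkPiAlgebra_apply, smul_eq_mul]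
  have h2 : g.toMultilinearMap = G := by
    let b := Module.Free.chooseBasis ℚ Y.X.H1
    refine Basis.ext_multilinear (fun _ => Algebra.TensorProduct.basis Ω b) fun v => ?_
    rw [hG]
    have h3 : ∀ i, Algebra.TensorProduct.basis Ω b i = (1 : Ω) ⊗ₜ[ℚ] b i := fun i =>
      Algebra.TensorProduct.basis_apply b i
    simp only [h3]
    have h4 := hg fun k => b (v k)
    have h5 := congrArg jO (hc fun k => b (v k))
    rw [map_ratCast] at h5
    refine (h4.trans h5).trans ?_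
    rw [map_sum]
    refine Finset.sum_congr rfl fun J _ => ?_
    rw [map_mul, map_prod]
    congr 1
    refine Finset.prod_congr rfl fun k _ => ?_
    rw [Pool.Agent.W417.TA.co_tmul]
  have h3 : (g fun k => e (I k)) = G fun k => e (I k) := by
    rw [← h2]
    rfl
  rw [h3, hG, Finset.sum_eq_single I]
  · rw [Finset.prod_eq_one fun k _ => h1 (I k), mul_one]
  · intro J _ hJ
    obtain ⟨k, hk⟩ := Function.ne_iff.1 hJ
    rw [Finset.prod_eq_zero (Finset.mem_univ k) (h0 _ _ hk), mul_zero]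
  · intro h
    exact absurd (Finset.mem_univ I) h

end

variable (hC : IsCycleSystem Ω C)
include hC

/-- Rational Hodge classes that belong to the system are positive. -/
theorem pos_hodge {Y : RedAV p ν} (hB : Big Y.X j) {κ : Type} [Fintype κ] [DecidableEq κ]
    {f : Y.X.H1 [⋀^κ]→ₗ[ℚ] ℚ} (hf : IsHodge Y.X.per f) {g : (TM Ω Y) [⋀^κ]→ₗ[Ω] Ω}
    (hg : ∀ v, res g v = ((f v : ℚ) : Ω)) (hCg : C Y κ g) : g ∈ SP jO C j Y κ := by
  classical
  obtain ⟨e, h1, h0⟩ := Pool.Agent.W67.TA.basis p ν Ω L j jO Y hB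
  refine mem_SP e h1 h0 hB fun I hI hne => ?_
  obtain ⟨c, hc⟩ := form_coeff (E := fun i : Y.X.I => (Y.X.factor i).E) (fun i : Y.X.I => i) j hB
    f.toMultilinearMap
  have hc' : ∀ v : κ → Y.X.H1, ((f v : ℚ) : L) = ∑ I : κ → Wt Y.X L, c I * ∏ k, ev (v k) (I k) :=
    hc
  have e1 := coef_of_rat (jO := jO) e h1 h0 hg hc' I
  have hc2 : ∀ v : κ → Y.X.H1, ((f v : ℚ) : L) =
      ∑ I : κ → Wt Y.X L, cc L (c fun k => bar (I k)) * ∏ k, ev (v k) (I k) := by
    intro v
    have h2 := congrArg (cc L) (hc' v)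
    rw [map_ratCast, map_sum] at h2
    rw [h2]
    refine Fintype.sum_equiv (Equiv.arrowCongr (Equiv.refl κ)
      (Function.Involutive.toPerm bar bar_bar)) _ _ fun I => ?_
    change _ = cc L (c fun k => bar (bar (I k))) * ∏ k, ev (v k) (bar (I k))
    have h3 : (fun k => bar (bar (I k))) = I := funext fun k => bar_bar _
    rw [h3, map_mul, map_prod]
    rfl
  have e2 := coef_of_rat (jO := jO) e h1 h0 hg hc2 fun k => bar (I k)
  have h3 : (fun k => bar (bar (I k))) = I := funext fun k => bar_bar _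
  rw [h3] at e2
  have hc0 : c I ≠ 0 := by
    intro h
    rw [e1, h, map_zero] at hne
    exact hne rfl
  have hbal := balanced_of_hodge (E := fun i : Y.X.I => (Y.X.factor i).E)
    (Φ := fun i : Y.X.I => (Y.X.factor i).Φ) (fun i : Y.X.I => i) j
    (fun i => (Y.X.factor i).isCMType) hB f hf c hc I hc0 1
  refine ⟨_, _, c I * cc L (c I), Ln_coef hC j hB e h1 h0 hCg hI, ?_, ?_⟩
  · rw [e1, e2, map_mul]
  · have h4 : ∏ k, sgn j (I k) = 1 := by
      have h5 := prod_unit (z := Complex.I) (by simp)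
        (fun k => j.comp ((1 : L ≃ₐ[ℚ] L) • (I k).2) ∈ (Y.X.factor (I k).1).Φ) hbal
      rw [Complex.conj_I] at h5
      rw [← h5]
      refine Finset.prod_congr rfl fun k _ => ?_
      unfold sgn
      rfl
    rw [h4, mul_one]
    exact (PosC.norm j hc0).posR

/-- Tate classes of degree two. -/
theorem SP_divisor {Y : RedAV p ν} (hB : Big Y.X j) {κ : Type} [Fintype κ] [DecidableEq κ]
    (hκ : Nat.card κ = 2) {f : (TM Ω Y) [⋀^κ]→ₗ[Ω] Ω} {s : ℕ} (hs : 0 < s)
    (hf : IsTateClass Ω Y s 1 f) : f ∈ SP jO C j Y κ := by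
  classical
  obtain ⟨e, h1, h0⟩ := Pool.Agent.W67.TA.basis p ν Ω L j jO Y hB
  refine mem_SP e h1 h0 hB fun I hI hne => ?_
  let ε : Fin 2 ≃ κ := (Finite.equivFinOfCardEq hκ).symm
  have h2 := hf fun k => e (I k)
  have h3 : (f fun k => (F Ω Y ^ s) (e (I k))) = (∏ k, jO (ev Y.π (I k)) ^ s) *
      f fun k => e (I k) := by
    have h4 := f.toMultilinearMap.map_smul_univ (fun k => jO (ev Y.π (I k)) ^ s)
      fun k => e (I k)
    rw [smul_eq_mul] at h4
    refine Eq.trans ?_ h4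
    change f _ = f _
    congr 1
    funext k
    exact F_e e h1 h0 (I k) s
  rw [h3] at h2
  have h4 := mul_right_cancel₀ hne h2
  have h5 : (ev Y.π (I (ε 0)) * ev Y.π (I (ε 1))) ^ s = ((p : L) ^ Y.a) ^ s := by
    apply jO.injective
    rw [map_pow, map_mul, map_pow, map_pow, map_natCast, mul_pow]
    rw [one_mul] at h4
    rw [← h4, ← Fin.prod_univ_two (fun b => jO (ev Y.π (I (ε b))) ^ s)]
    exact Fintype.prod_equiv ε _ _ fun b => rfl
  have h6 := pos_tate hC (jO := jO) hB (w := I (ε 0)) (v := I (ε 1))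
    (fun h => by
      have := ε.injective (hI h)
      exact absurd this (by decide)) hs h5
  refine IsPos.reindex hC ε ?_ h6
  intro b
  fin_cases b <;> rfl

omit hC in
theorem SP_reindex (hC : IsCycleSystem Ω C) {Y : RedAV p ν} {κ κ' : Type} [Fintype κ]
    [DecidableEq κ] [Fintype κ'] [DecidableEq κ'] (ε : κ ≃ κ') {f : (TM Ω Y) [⋀^κ]→ₗ[Ω] Ω}
    (hf : f ∈ SP jO C j Y κ) : f.domDomCongr ε ∈ SP jO C j Y κ' := by
  unfold SP at hf
  induction hf using Submodule.span_induction with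
  | mem f hf =>
    obtain ⟨I, hI, rfl⟩ := hf
    have h2 := Pool.Agent.W417.TA.monoO_reindex jO ε (fun k => I (ε.symm k))
    simp only [Equiv.symm_apply_apply] at h2
    rw [h2]
    refine Submodule.subset_span ⟨_, IsPos.reindex hC ε (fun k => ?_) hI, rfl⟩
    rw [ε.symm_apply_apply]
  | zero => exact Submodule.zero_mem _
  | add f g _ _ hf hg => exact Submodule.add_mem _ hf hg
  | smul c f _ hf => exact Submodule.smul_mem _ c hf

theorem SP_cup {Y : RedAV p ν} {κ κ' : Type} [Fintype κ]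
    [DecidableEq κ] [Fintype κ'] [DecidableEq κ'] {f : (TM Ω Y) [⋀^κ]→ₗ[Ω] Ω}
    {g : (TM Ω Y) [⋀^κ']→ₗ[Ω] Ω} (hf : f ∈ SP jO C j Y κ) (hg : g ∈ SP jO C j Y κ') :
    cupO f g ∈ SP jO C j Y (κ ⊕ κ') := by
  unfold SP at hf hg
  induction hf using Submodule.span_induction with
  | mem f hf =>
    obtain ⟨I, hI, rfl⟩ := hf
    induction hg using Submodule.span_induction with
    | mem g hg =>
      obtain ⟨I', hI', rfl⟩ := hg
      have h2 : cupO (monoO jO I) (monoO jO I') = ((Fintype.card (Equiv.Perm κ) : Ω) *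
          (Fintype.card (Equiv.Perm κ') : Ω)) • monoO jO (Sum.elim I I') := by
        refine AlternatingMap.ext fun v => ?_
        rw [cupO_apply]
        exact Pool.Agent.W333.TA.monoO_cup jO I I' v
      rw [h2]
      exact Submodule.smul_mem _ _ (Submodule.subset_span ⟨_, IsPos.cup hC hI hI', rfl⟩)
    | zero =>
      have h2 : cupO (monoO jO I) (0 : (TM Ω Y) [⋀^κ']→ₗ[Ω] Ω) = 0 := by
        refine AlternatingMap.ext fun v => ?_
        rw [cupO_apply]
        simp [altSum, times]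
      rw [h2]
      exact Submodule.zero_mem _
    | add g g' _ _ hg hg' =>
      have h2 : cupO (monoO jO I) (g + g') = cupO (monoO jO I) g + cupO (monoO jO I) g' := by
        refine AlternatingMap.ext fun v => ?_
        rw [AlternatingMap.add_apply, cupO_apply, cupO_apply, cupO_apply]
        simp only [altSum, times, AlternatingMap.add_apply, mul_add, Finset.sum_add_distrib]
      rw [h2]
      exact Submodule.add_mem _ hg hg'
    | smul c g _ hg =>
      have h2 : cupO (monoO jO I) (c • g) = c • cupO (monoO jO I) g := by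
        refine AlternatingMap.ext fun v => ?_
        rw [AlternatingMap.smul_apply, cupO_apply, cupO_apply]
        simp only [altSum, times, AlternatingMap.smul_apply, smul_eq_mul, Finset.mul_sum]
        exact Finset.sum_congr rfl fun σ _ => by ring
      rw [h2]
      exact Submodule.smul_mem _ c hg
  | zero =>
    have h2 : cupO (0 : (TM Ω Y) [⋀^κ]→ₗ[Ω] Ω) g = 0 := by
      refine AlternatingMap.ext fun v => ?_
      rw [cupO_apply]
      simp [altSum, times]
    rw [h2]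
    exact Submodule.zero_mem _
  | add f f' _ _ hf hf' =>
    have h2 : cupO (f + f') g = cupO f g + cupO f' g := by
      refine AlternatingMap.ext fun v => ?_
      rw [AlternatingMap.add_apply, cupO_apply, cupO_apply, cupO_apply]
      simp only [altSum, times, AlternatingMap.add_apply, add_mul, mul_add, Finset.sum_add_distrib]
    rw [h2]
    exact Submodule.add_mem _ hf hf'
  | smul c f _ hf =>
    have h2 : cupO (c • f) g = c • cupO f g := by
      refine AlternatingMap.ext fun v => ?_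
      rw [AlternatingMap.smul_apply, cupO_apply, cupO_apply]
      simp only [altSum, times, AlternatingMap.smul_apply, smul_eq_mul, Finset.mul_sum]
      exact Finset.sum_congr rfl fun σ _ => by ring
    rw [h2]
    exact Submodule.smul_mem _ c hf

theorem SP_pull {Y Z : RedAV p ν} (hY : Big Y.X j) (hZ : Big Z.X j) {κ : Type} [Fintype κ]
    [DecidableEq κ] {h : TM Ω Y →ₗ[Ω] TM Ω Z} (hh : IsFrobHom Ω Y Z h)
    {f : (TM Ω Z) [⋀^κ]→ₗ[Ω] Ω} (hf : f ∈ SP jO C j Z κ) :
    f.compLinearMap h ∈ SP jO C j Y κ := by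
  classical
  obtain ⟨e, h1, h0⟩ := Pool.Agent.W67.TA.basis p ν Ω L j jO Y hY
  refine mem_SP e h1 h0 hY fun I hI hne => ?_
  obtain ⟨_, ⟨J, hJ, rfl⟩, hg⟩ := exists_of_span hf hne
  obtain ⟨σ, hσ⟩ := exists_of_mono hg
  have hJi : Function.Injective J := by
    intro k k' hk
    by_contra hne'
    apply hg
    rw [monoO_det]
    refine Matrix.det_zero_of_column_eq hne' fun i => ?_
    simp only [Matrix.of_apply]
    rw [hk]
  have h2 := IsPos.transfer hC hY hZ (I := fun k => I (σ k)) hJi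
    (fun k => eqv_of_hom e h1 h0 hh (hσ k)) hJ
  exact IsPos.reindex hC σ (fun k => rfl) h2

omit hC in
theorem Eqv.inl {Y Y' Z : RedAV p ν} {w : Wt Y.X L} {w' : Wt Z.X L} (h : Eqv Y Z w w') :
    Eqv (prodR Y Y') Z (inlW w) w' := by
  obtain ⟨s, t, hs, ht, hst, h1⟩ := h
  refine ⟨s, t * Y'.a, hs, Nat.mul_pos ht Y'.pos, ?_, ?_⟩
  · change Y.a * Y'.a * s = _
    calc Y.a * Y'.a * s = (Y.a * s) * Y'.a := by ring
      _ = _ := by rw [hst]; ring
  · have e1 : ev (prodR Y Y').π (inlW w) = ev Y.π w ^ Y'.a := map_pow w.2 _ _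
    rw [e1, ← pow_mul, mul_comm Y'.a, pow_mul, h1, ← pow_mul]

omit hC in
theorem Eqv.inr {Y Y' Z : RedAV p ν} {w : Wt Y'.X L} {w' : Wt Z.X L} (h : Eqv Y' Z w w') :
    Eqv (prodR Y Y') Z (inrW w) w' := by
  obtain ⟨s, t, hs, ht, hst, h1⟩ := h
  refine ⟨s, t * Y.a, hs, Nat.mul_pos ht Y.pos, ?_, ?_⟩
  · change Y.a * Y'.a * s = _
    calc Y.a * Y'.a * s = (Y'.a * s) * Y.a := by ring
      _ = _ := by rw [hst]; ring
  · have e1 : ev (prodR Y Y').π (inrW w) = ev Y'.π w ^ Y.a := map_pow w.2 _ _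
    rw [e1, ← pow_mul, mul_comm Y.a, pow_mul, h1, ← pow_mul]

omit hC in
/-- A form on a direct sum with part of its arguments fixed. -/
def fixO {Y' Z : RedAV p ν} {κ κ' : Type} (f : (TM Ω Z) [⋀^κ ⊕ κ']→ₗ[Ω] Ω) (u : κ → TM Ω Z)
    (h' : TM Ω Y' →ₗ[Ω] TM Ω Z) : MultilinearMap Ω (fun _ : κ' => TM Ω Y') Ω where
  toFun y := f (Sum.elim u fun k => h' (y k))
  map_update_add' := by
    classical
    intro hd v k x y
    have h5 : ∀ z : TM Ω Y', (Sum.elim u fun k' => h' (Function.update v k z k')) =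
        Function.update (Sum.elim u fun k' => h' (v k')) (Sum.inr k) (h' z) := by
      intro z
      funext s
      rcases s with s | s
      · simp
      · by_cases h : s = k
        · subst h; simp
        · simp [h]
    rw [h5, h5, h5, map_add, AlternatingMap.map_update_add]
  map_update_smul' := by
    classical
    intro hd v k c x
    have h5 : ∀ z : TM Ω Y', (Sum.elim u fun k' => h' (Function.update v k z k')) =
        Function.update (Sum.elim u fun k' => h' (v k')) (Sum.inr k) (h' z) := by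
      intro z
      funext s
      rcases s with s | s
      · simp
      · by_cases h : s = k
        · subst h; simp
        · simp [h]
    rw [h5, h5, map_smul, AlternatingMap.map_update_smul]

theorem SP_push {Y Y' Z : RedAV p ν} (hY : Big Y.X j) (hY' : Big Y'.X j) (hZ : Big Z.X j)
    {κ κ' : Type} [Fintype κ] [DecidableEq κ] [Fintype κ'] [DecidableEq κ']
    {h : TM Ω Y →ₗ[Ω] TM Ω Z} {h' : TM Ω Y' →ₗ[Ω] TM Ω Z}
    (hh : IsFrobHom Ω Y Z h) (hh' : IsFrobHom Ω Y' Z h') (b : Basis κ' Ω (TM Ω Y'))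
    {f : (TM Ω Z) [⋀^κ ⊕ κ']→ₗ[Ω] Ω} (hf : f ∈ SP jO C j Z (κ ⊕ κ'))
    {g : (TM Ω Y) [⋀^κ]→ₗ[Ω] Ω}
    (hg : ∀ v, g v = f (Sum.elim (fun k => h (v k)) fun k => h' (b k))) :
    g ∈ SP jO C j Y κ := by
  classical
  obtain ⟨e, h1, h0⟩ := Pool.Agent.W67.TA.basis p ν Ω L j jO Y hY
  obtain ⟨e', h1', h0'⟩ := Pool.Agent.W67.TA.basis p ν Ω L j jO Y' hY'
  refine mem_SP e h1 h0 hY fun I hI hne => ?_
  rw [hg] at hne
  -- replace the basis by the eigenbasis
  let φ : MultilinearMap Ω (fun _ : κ' => TM Ω Y') Ω := fixO f (fun k => h (e (I k))) h'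
  obtain ⟨B, hB⟩ : ∃ B : κ' → Wt Y'.X L, (φ fun k => e' (B k)) ≠ 0 := by
    by_contra hcon
    push Not at hcon
    have h5 : φ = 0 := Basis.ext_multilinear (fun _ => e') hcon
    apply hne
    change φ b = 0
    rw [h5]
    rfl
  have hBi : Function.Injective B := by
    intro k k' hk
    by_contra hne'
    apply hB
    refine f.map_eq_zero_of_eq _ (i := Sum.inr k) (j := Sum.inr k') ?_
      (fun h => hne' (Sum.inr.inj h))
    simp only [Sum.elim_inr]
    rw [hk]
  have hBb : Function.Bijective B := by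
    have : Finite (Wt Y'.X L) := Pool.Agent.W67.TA.finite_wt j hY'
    refine hBi.bijective_of_nat_card_le ?_
    rw [Nat.card_congr (b.indexEquiv e')]
  obtain ⟨_, ⟨J, hJ, rfl⟩, hg2⟩ := exists_of_span hf hB
  obtain ⟨σ, hσ⟩ := exists_of_mono hg2
  have hJi : Function.Injective J := by
    intro k k' hk
    by_contra hne'
    apply hg2
    rw [monoO_det]
    refine Matrix.det_zero_of_column_eq hne' fun i => ?_
    simp only [Matrix.of_apply]
    rw [hk]
  let K : κ ⊕ κ' → Wt (prodR Y Y').X L := Sum.elim (fun k => inlW (I k)) fun k => inrW (B k)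
  have h2 : IsPos jO C j (prodR Y Y') (fun s => K (σ s)) := by
    refine IsPos.transfer hC (big_prodR hY hY') hZ hJi (fun s => ?_) hJ
    have h3 := hσ s
    rcases hs : σ s with k | k
    · rw [hs] at h3
      exact Eqv.inl (eqv_of_hom e h1 h0 hh h3)
    · rw [hs] at h3
      exact Eqv.inr (eqv_of_hom e' h1' h0' hh' h3)
  have h3 : IsPos jO C j (prodR Y Y') K := IsPos.reindex hC σ (fun k => rfl) h2
  exact IsPos.push hC hY' hBb h3

/-- The classes in `Alg` are combinations of positive monomials. -/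
theorem alg_SP {Y : RedAV p ν} {κ : Type} {f : (TM Ω Y) [⋀^κ]→ₗ[Ω] Ω} (hf : Alg Ω Y κ f) :
    ∃ T : CMAV, ∀ (L : Type) [Field L] [NumberField L] [IsCMField L] [IsGalois ℚ L] (j : L →+* ℂ)
      (jO : L →+* Ω), Big T j → Big Y.X j → ∀ [Fintype κ] [DecidableEq κ],
      f ∈ SP jO C j Y κ := by
  classical
  induction hf with
  | @unit Y κ _ f =>
    refine ⟨Y.X, fun L _ _ _ _ j jO hT hY => ?_⟩
    intro _ _
    obtain ⟨e, h1, h0⟩ := Pool.Agent.W67.TA.basis p ν Ω L j jO Y hY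
    exact mem_SP e h1 h0 hY fun I _ _ => IsPos.empty hC I
  | @divisor Y κ hκ f s hs hf =>
    refine ⟨Y.X, fun L _ _ _ _ j jO hT hY => ?_⟩
    intro _ _
    exact SP_divisor hC hY hκ hs hf
  | @weil Y n hn f hf g hg =>
    refine ⟨Y.X, fun L _ _ _ _ j jO hT hY => ?_⟩
    intro h3 h4
    obtain rfl : h3 = Fin.fintype n := Subsingleton.elim _ _
    obtain rfl : h4 = instDecidableEqFin n := Subsingleton.elim _ _
    exact pos_hodge hC hY hf.2.1 hg (hC.weil hn f hf g hg)
  | zero Y κ =>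
    refine ⟨Y.X, fun L _ _ _ _ j jO hT hY => ?_⟩
    intro _ _
    exact Submodule.zero_mem _
  | add f g _ _ hf hg =>
    obtain ⟨T, hT⟩ := hf
    obtain ⟨T', hT'⟩ := hg
    refine ⟨T.prod T', fun L _ _ _ _ j jO h1 hY => ?_⟩
    intro _ _
    exact Submodule.add_mem _ (hT L j jO (fun i ψ => h1 (Sum.inl i) ψ) hY)
      (hT' L j jO (fun i ψ => h1 (Sum.inr i) ψ) hY)
  | smul c f _ hf =>
    obtain ⟨T, hT⟩ := hf
    refine ⟨T, fun L _ _ _ _ j jO h1 hY => ?_⟩
    intro _ _
    exact Submodule.smul_mem _ c (hT L j jO h1 hY)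
  | @reindex Y κ κ' e f _ hf =>
    obtain ⟨T, hT⟩ := hf
    refine ⟨T, fun L _ _ _ _ j jO h1 hY => ?_⟩
    intro _ _
    have : Fintype κ := Fintype.ofEquiv κ' e.symm
    exact SP_reindex hC e (hT L j jO h1 hY)
  | @cup Y κ κ' i1 i2 i3 i4 f g _ _ h hh hf hg =>
    obtain ⟨T, hT⟩ := hf
    obtain ⟨T', hT'⟩ := hg
    refine ⟨T.prod T', fun L _ _ _ _ j jO h1 hY => ?_⟩
    intro h3 h4
    obtain rfl : h3 = instFintypeSum κ κ' := Subsingleton.elim _ _
    obtain rfl : h4 = instDecidableEqSum := Subsingleton.elim _ _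
    have h5 : h = cupO f g := by
      refine AlternatingMap.ext fun v => ?_
      rw [cupO_apply, hh]
      rfl
    rw [h5]
    exact SP_cup hC (hT L j jO (fun i ψ => h1 (Sum.inl i) ψ) hY)
      (hT' L j jO (fun i ψ => h1 (Sum.inr i) ψ) hY)
  | @pull Y Z κ h hh f _ hf =>
    obtain ⟨T, hT⟩ := hf
    refine ⟨T.prod Z.X, fun L _ _ _ _ j jO h1 hY => ?_⟩
    intro _ _
    have hZ : Big Z.X j := fun i ψ => h1 (Sum.inr i) ψ
    exact SP_pull hC hY hZ hh (hT L j jO (fun i ψ => h1 (Sum.inl i) ψ) hZ)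
  | @push Y Y' Z κ κ' h h' hh hh' hb b f _ g hg hf =>
    obtain ⟨T, hT⟩ := hf
    refine ⟨T.prod (Z.X.prod Y'.X), fun L _ _ _ _ j jO h1 hY => ?_⟩
    intro _ _
    have hZ : Big Z.X j := fun i ψ => h1 (Sum.inr (Sum.inl i)) ψ
    have hY' : Big Y'.X j := fun i ψ => h1 (Sum.inr (Sum.inr i)) ψ
    have : Finite κ' := Module.Finite.finite_basis b
    have : Fintype κ' := Fintype.ofFinite κ'
    exact SP_push hC hY hY' hZ hh hh' b (hT L j jO (fun i ψ => h1 (Sum.inl i) ψ) hZ) hg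

end

end Pool.Agent.TH117.PO
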