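import Pool.Agent.TH117.PO.Span
import Pool.Agent.W417.TA.Mono
import Pool.Agent.TH117.BL.Expand

/-!
# Lines: monomials with coefficients in the twisted span
-/

set_option autoImplicit false
set_option linter.unusedSectionVars false
set_option linter.unusedVariables false

namespace Pool.Agent.TH117.PO

open NumberField Pool.Agent.H204R3.CM Pool.Agent.W547.KB Pool.Agent.W547.LD Pool.Agent.W547.HR
  Pool.Agent.W495.TA Module
open scoped TensorProduct

noncomputable section

variable {p : ℕ} [Fact p.Prime] {ν : PadicAlgCl p ≃+* ℂ} {Ω : Type} [Field Ω] [CharZero Ω]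
  {L : Type} [Field L] [NumberField L] [IsCMField L] [IsGalois ℚ L]

/-- The conjugate weight. -/
def bar {X : CMAV} (w : Wt X L) : Wt X L := ⟨w.1, cc L • w.2⟩

theorem ev_bar {X : CMAV} (v : X.H1) (w : Wt X L) : ev v (bar w) = cc L (ev v w) := rfl

theorem comp_conj (j : L →+* ℂ) {E : Type} [Field E] (φ : E →+* L) :
    j.comp (cc L • φ) = ComplexEmbedding.conjugate (j.comp φ) := by
  ext x
  change j (cc L (φ x)) = _
  rw [emb_cc, ComplexEmbedding.conjugate_coe_eq]
  rfl

theorem bar_bar {X : CMAV} (w : Wt X L) : bar (bar w) = w := by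
  refine Sigma.ext rfl (heq_of_eq ?_)
  ext x
  exact cc_invol (w.2 x)

theorem bar_injective {X : CMAV} : Function.Injective (bar : Wt X L → Wt X L) := by
  intro w w' h
  rw [← bar_bar w, h, bar_bar]

theorem mono_bar {X : CMAV} {κ : Type} [Fintype κ] [DecidableEq κ] (I : κ → Wt X L)
    (v : κ → X.H1) : mono (fun k => bar (I k)) v = cc L (mono I v) := by
  rw [mono_apply, mono_apply, map_sum]
  refine Finset.sum_congr rfl fun σ _ => ?_
  rw [map_mul, map_intCast, map_prod]
  rfl

variable (jO : L →+* Ω)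

/-- The twisted embedding. -/
def semi (Y : RedAV p ν) (κ : Type) (c c' : Ω) : ((κ → Y.X.H1) → L) →ₗ[L] W jO Y κ where
  toFun F := ⟨fun v => c * jO (F v), fun v => c' * jO (cc L (F v))⟩
  map_add' F G := by ext v <;> simp [mul_add]
  map_smul' l F := by
    ext v
    · simp only [W.smul_fst, Pi.smul_apply, smul_eq_mul, map_mul, RingHom.id_apply]
      ring
    · simp only [W.smul_snd, Pi.smul_apply, smul_eq_mul, map_mul, RingHom.id_apply]
      ring

variable (C : (Y : RedAV p ν) → (κ : Type) → ((TM Ω Y) [⋀^κ]→ₗ[Ω] Ω) → Prop)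

/-- The monomial of `I` with the coefficient `c` and its conjugate with the coefficient `c'`. -/
def Ln (Y : RedAV p ν) {κ : Type} [Fintype κ] [DecidableEq κ] (I : κ → Wt Y.X L) (c c' : Ω) :
    Prop :=
  semi jO Y κ c c' (mono I) ∈ V C jO Y κ

variable {jO C}

section

variable {Y : RedAV p ν} {κ κ' : Type} [Fintype κ] [DecidableEq κ] [Fintype κ'] [DecidableEq κ']

theorem Ln.scale {I : κ → Wt Y.X L} {c c' : Ω} (h : Ln jO C Y I c c') (l : L) :
    Ln jO C Y I (jO l * c) (jO (cc L l) * c') := by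
  have h1 := Submodule.smul_mem _ l h
  have h2 : l • semi jO Y κ c c' (mono I) = semi jO Y κ (jO l * c) (jO (cc L l) * c') (mono I) := by
    ext v
    · exact (mul_assoc _ _ _).symm
    · exact (mul_assoc _ _ _).symm
  rwa [h2] at h1

theorem Ln.swap {I : κ → Wt Y.X L} {c c' : Ω} (h : Ln jO C Y I c c') :
    Ln jO C Y (fun k => bar (I k)) c' c := by
  have h1 := V_swap h
  have h2 : (⟨(semi jO Y κ c c' (mono I)).snd, (semi jO Y κ c c' (mono I)).fst⟩ : W jO Y κ) =
      semi jO Y κ c' c (mono fun k => bar (I k)) := by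
    ext v
    · change c' * jO (cc L (mono I v)) = c' * jO (mono (fun k => bar (I k)) v)
      rw [mono_bar]
    · change c * jO (mono I v) = c * jO (cc L (mono (fun k => bar (I k)) v))
      rw [mono_bar, cc_invol]
  rwa [h2] at h1

theorem mono_ne_zero (jO : L →+* Ω) (j : L →+* ℂ) (hB : Big Y.X j) {I : κ → Wt Y.X L}
    (hI : Function.Bijective I) (b : Basis κ ℚ Y.X.H1) : mono I b ≠ 0 := by
  intro h0
  rw [mono_eq_det] at h0
  obtain ⟨c, hc, hc2⟩ := Matrix.exists_mulVec_eq_zero_iff.2 h0
  apply hc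
  have : Finite (Wt Y.X L) := Pool.Agent.W67.TA.finite_wt j hB
  let _ : Fintype (Wt Y.X L) := Fintype.ofFinite _
  let e : κ ≃ Wt Y.X L := Equiv.ofBijective I hI
  have h1 : ∀ x : Y.X.H1, ∑ l, ev x (I l) * c l = 0 := by
    intro x
    have h2 : x ∈ Submodule.span ℚ (Set.range b) := by
      rw [b.span_eq]
      trivial
    induction h2 using Submodule.span_induction with
    | mem x hx =>
      obtain ⟨k, rfl⟩ := hx
      exact congrFun hc2 k
    | zero =>
      refine Finset.sum_eq_zero fun l _ => ?_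
      have h3 : ev (0 : Y.X.H1) (I l) = 0 := map_zero (I l).2
      rw [h3, zero_mul]
    | add x y _ _ hx hy =>
      have h3 : ∀ l, ev (x + y) (I l) = ev x (I l) + ev y (I l) := fun l =>
        (evLin (I l)).map_add x y
      simp only [h3, add_mul, Finset.sum_add_distrib, hx, hy, add_zero]
    | smul a x _ hx =>
      have h3 : ∀ l, ev (a • x) (I l) = a • ev x (I l) := fun l => (evLin (I l)).map_smul a x
      simp only [h3, smul_mul_assoc, ← Finset.smul_sum, hx, smul_zero]
  have h2 := Pool.Agent.W67.TA.linInd_co jO Y (fun w => jO (c (e.symm w))) (by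
    refine LinearMap.ext fun v => ?_
    induction v using TensorProduct.induction_on with
    | zero => rw [map_zero, map_zero]
    | tmul a x =>
      rw [LinearMap.sum_apply, LinearMap.zero_apply]
      have h3 : ∀ w, (jO (c (e.symm w)) • co jO w) (a ⊗ₜ[ℚ] x) =
          a * jO (ev x w * c (e.symm w)) := by
        intro w
        rw [LinearMap.smul_apply, Pool.Agent.W67.TA.co_tmul, smul_eq_mul, map_mul]
        change jO (c (e.symm w)) * (a * jO (ev x w)) = a * (jO (ev x w) * jO (c (e.symm w)))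
        ring
      simp only [h3]
      rw [← Finset.mul_sum, ← map_sum]
      have h4 : ∑ w, ev x w * c (e.symm w) = ∑ l, ev x (I l) * c l := by
        refine (Fintype.sum_equiv e _ _ fun l => ?_).symm
        rw [e.symm_apply_apply]
        rfl
      rw [h4, h1, map_zero, mul_zero]
    | add x y hx hy => rw [map_add, map_add, hx, hy])
  funext l
  have h3 := congrFun h2 (e l)
  simp only [e.symm_apply_apply, Pi.zero_apply] at h3
  exact jO.injective (by rw [h3, Pi.zero_apply, map_zero])

variable (hC : IsCycleSystem Ω C)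
include hC

theorem Ln_empty [IsEmpty κ] (I : κ → Wt Y.X L) : Ln jO C Y I 1 1 := by
  have h1 := V_unit (jO := jO) hC (Y := Y) (κ := κ)
  have h2 : (⟨fun _ => 1, fun _ => 1⟩ : W jO Y κ) = semi jO Y κ 1 1 (mono I) := by
    have h3 : ∀ v, mono I v = 1 := by
      intro v
      rw [mono_apply]
      simp
    ext v
    · change 1 = 1 * jO (mono I v)
      rw [h3, map_one, mul_one]
    · change 1 = 1 * jO (cc L (mono I v))
      rw [h3, map_one, map_one, mul_one]
  rwa [h2] at h1

theorem Ln.cup {I : κ → Wt Y.X L} {I' : κ' → Wt Y.X L} {c c' d d' : Ω}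
    (h : Ln jO C Y I c c') (h' : Ln jO C Y I' d d') :
    Ln jO C Y (Sum.elim I I') (c * d) (c' * d') := by
  have h1 := V_cup hC h h'
  set N : L := (Fintype.card (Equiv.Perm κ) : L) * (Fintype.card (Equiv.Perm κ') : L) with hN
  have hN0 : N ≠ 0 := mul_ne_zero (Nat.cast_ne_zero.2 Fintype.card_ne_zero)
    (Nat.cast_ne_zero.2 Fintype.card_ne_zero)
  have hcc : cc L N = N := by
    rw [hN, map_mul, map_natCast, map_natCast]
  have hcup : ∀ (a b : Ω) (F : (κ → Y.X.H1) → L) (G : (κ' → Y.X.H1) → L) (s : L →+* Ω),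
      cupF (fun v => a * s (F v)) (fun v => b * s (G v)) = fun v => (a * b) * s (cupFun F G v) := by
    intro a b F G s
    funext v
    unfold cupF cupFun altSum times
    rw [map_sum, Finset.mul_sum]
    refine Finset.sum_congr rfl fun σ _ => ?_
    rw [map_mul, map_mul, map_intCast]
    ring
  have h2 : (⟨cupF (semi jO Y κ c c' (mono I)).fst (semi jO Y κ' d d' (mono I')).fst,
      cupF (semi jO Y κ c c' (mono I)).snd (semi jO Y κ' d d' (mono I')).snd⟩ :
        W jO Y (κ ⊕ κ')) = N • semi jO Y (κ ⊕ κ') (c * d) (c' * d') (mono (Sum.elim I I')) := by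
    have e1 := hcup c d (mono I) (mono I') jO
    have e2 := hcup c' d' (mono I) (mono I') (jO.comp (cc L : L →+* L))
    rw [mono_cup] at e1 e2
    ext v
    · refine (congrFun e1 v).trans ?_
      change c * d * jO (N * mono (Sum.elim I I') v) = jO N * (c * d * jO (mono (Sum.elim I I') v))
      rw [map_mul]
      ring
    · refine (congrFun e2 v).trans ?_
      change c' * d' * jO (cc L (N * mono (Sum.elim I I') v)) =
        jO (cc L N) * (c' * d' * jO (cc L (mono (Sum.elim I I') v)))
      rw [map_mul, map_mul, hcc]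
      ring
  rw [h2] at h1
  have h3 := Submodule.smul_mem _ N⁻¹ h1
  rwa [smul_smul, inv_mul_cancel₀ hN0, one_smul] at h3

theorem Ln.reindex (e : κ ≃ κ') {I : κ → Wt Y.X L} {I' : κ' → Wt Y.X L} (hI : ∀ k, I' (e k) = I k)
    {c c' : Ω} (h : Ln jO C Y I c c') : Ln jO C Y I' c c' := by
  have h1 := V_reindex hC e h
  have h2 : (fun k => I (e.symm k)) = I' := by
    funext k
    rw [← hI, e.apply_symm_apply]
  have h3 : (⟨fun v => (semi jO Y κ c c' (mono I)).fst fun k => v (e k),
      fun v => (semi jO Y κ c c' (mono I)).snd fun k => v (e k)⟩ : W jO Y κ') =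
      semi jO Y κ' c c' (mono I') := by
    have e1 := mono_reindex e I
    rw [h2] at e1
    rw [← e1]
    rfl
  rwa [h3] at h1

/-- Transfer between weights with the same types. -/
theorem Ln.types (j : L →+* ℂ) {Z : RedAV p ν} {I : κ → Wt Y.X L} {J : κ → Wt Z.X L}
    (hJ : Function.Injective J) (hI : ∀ k, St j (I k) = St j (J k)) {c c' : Ω}
    (h : Ln jO C Z J c c') : Ln jO C Y I c c' :=
  mono_mem_of_pull j I J hJ hI ((V C jO Y κ).comap (semi jO Y κ c c')) fun _ hg => V_pull hC hg h

/-- Monomials of the top degree. -/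
theorem Ln.top (j : L →+* ℂ) (hB : Big Y.X j) {I : κ → Wt Y.X L} (hI : Function.Bijective I)
    {c c' : Ω} (h : Ln jO C Y I c c') : ∃ l : L, c = jO l ∧ c' = jO (cc L l) := by
  have hcard : Nat.card κ = finrank ℚ Y.X.H1 := by
    rw [Nat.card_eq_of_bijective I hI, Pool.Agent.W67.TA.card_wt j hB]
  let b0 := Module.finBasis ℚ Y.X.H1
  let e : Fin (finrank ℚ Y.X.H1) ≃ κ := (Finite.equivFinOfCardEq hcard).symm
  let b : Basis κ ℚ Y.X.H1 := b0.reindex e
  have hd := mono_ne_zero jO j hB hI b
  obtain ⟨l, h1, h2⟩ := V_top hC hcard h b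
  have h3 : c * jO (mono I b) = jO l := h1
  have h4 : c' * jO (cc L (mono I b)) = jO (cc L l) := h2
  have h5 : jO (mono I b) ≠ 0 := fun h => hd (jO.injective (by rw [h, map_zero]))
  have h6 : jO (cc L (mono I b)) ≠ 0 := fun h => hd ((cc L).injective (jO.injective (by
    rw [h, map_zero, map_zero])))
  refine ⟨l / mono I b, ?_, ?_⟩
  · rw [map_div₀, ← h3, mul_div_assoc, div_self h5, mul_one]
  · rw [map_div₀, map_div₀, ← h4, mul_div_assoc, div_self h6, mul_one]

/-- Rational Hodge classes. -/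
theorem Ln_of_trace {I : κ → Wt Y.X L} (h : ∀ α : L, C Y κ (Pool.Agent.W417.TA.trO jO α I)) :
    Ln jO C Y I 1 1 := by
  obtain ⟨n, a, b, hab⟩ := exists_dual L
  have h1 : semi jO Y κ 1 1 (mono I) = ∑ i, b i • (⟨res (Pool.Agent.W417.TA.trO jO (a i) I),
      res (Pool.Agent.W417.TA.trO jO (a i) I)⟩ : W jO Y κ) := by
    have h2 : mono I = ∑ i, b i • (fun v : κ → Y.X.H1 => ((trForm (a i) I v : ℚ) : L)) := by
      funext v
      rw [Finset.sum_apply]
      exact hab (mono I v)
    conv_lhs => rw [h2]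
    rw [map_sum]
    refine Finset.sum_congr rfl fun i _ => ?_
    rw [map_smul]
    congr 1
    ext v
    · change 1 * jO ((trForm (a i) I v : ℚ) : L) = _
      rw [map_ratCast, one_mul]
      exact (Pool.Agent.W417.TA.trO_tmul jO (a i) I v).symm
    · change 1 * jO (cc L ((trForm (a i) I v : ℚ) : L)) = _
      rw [map_ratCast, map_ratCast, one_mul]
      exact (Pool.Agent.W417.TA.trO_tmul jO (a i) I v).symm
  unfold Ln
  rw [h1]
  exact Submodule.sum_mem _ fun i _ => Submodule.smul_mem _ _ (V_of (h (a i)))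

end

section

variable (hC : IsCycleSystem Ω C)
include hC

/-- Pairs of conjugate types. -/
theorem Ln_hodge {Y : RedAV p ν} (j : L →+* ℂ) {I : Fin 2 → Wt Y.X L}
    (hI : St j (I 1) = St j (bar (I 0))) : Ln jO C Y I 1 1 := by
  classical
  refine Ln_of_trace hC fun α => hC.hodge (trForm α I) (isHodge_trForm j I ?_ α) _ fun v =>
    Pool.Agent.W417.TA.trO_tmul jO α I v
  intro σ
  rw [Fin.sum_univ_two]
  change (if σ ∈ St j (I 0) then (1 : ℤ) else -1) + (if σ ∈ St j (I 1) then (1 : ℤ) else -1) = 0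
  rw [hI]
  have h1 : σ ∈ St j (bar (I 0)) ↔ σ ∉ St j (I 0) := by
    change j.comp (σ • (cc L • (I 0).2)) ∈ (Y.X.factor (I 0).1).Φ ↔
      ¬ (j.comp (σ • (I 0).2) ∈ (Y.X.factor (I 0).1).Φ)
    have h2 : σ • (cc L • (I 0).2) = cc L • (σ • (I 0).2) := by
      rw [← mul_smul, ← mul_smul, cc_comm j]
    rw [h2, comp_conj]
    have h3 := (Y.X.factor (I 0).1).isCMType (j.comp (σ • (I 0).2))
    constructor
    · intro h4 h5
      exact (h3.1 h5) h4
    · intro h4
      by_contra h5
      exact h4 (h3.2 h5)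
  by_cases h2 : σ ∈ St j (I 0)
  · rw [if_pos h2, if_neg fun h => (h1.1 h) h2]
    norm_num
  · rw [if_neg h2, if_pos (h1.2 h2)]
    norm_num

end

end

end Pool.Agent.TH117.PO
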