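import Pool.Agent.TH117.PO.Sign
import Pool.Agent.W547.LD.Approx
import Pool.Agent.H204R3.CM.Coef

/-!
# Compatible polarizations in coordinates
-/

set_option autoImplicit false
set_option linter.unusedSectionVars false
set_option linter.unusedVariables false

namespace Pool.Agent.TH117.PO

open NumberField Pool.Agent.H204R3.CM Pool.Agent.W547.KB Pool.Agent.W547.LD Pool.Agent.W547.HR
  Pool.Agent.W495.TA Module Pool.Agent.W976.TA
open scoped TensorProduct

noncomputable section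

variable {L : Type} [Field L] [NumberField L] [IsCMField L] [IsGalois ℚ L]

theorem emb_complexConj (j : L →+* ℂ) {E : Type} [Field E] [NumberField E] [IsCMField E]
    (φ : E →+* L) (x : E) : φ (IsCMField.complexConj E x) = cc L (φ x) := by
  apply j.injective
  rw [emb_cc]
  exact IsCMField.complexEmbedding_complexConj E (j.comp φ) x

theorem riemann_eq (j : L →+* ℂ) {X : CMAV} (hB : Big X j) (α x y : X.H1) :
    ((riemannForm X α x y : ℚ) : L) = ∑ w : Wt X L, ev α w * (ev x (bar w) * ev y w) := by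
  unfold riemannForm
  rw [Rat.cast_sum, Fintype.sum_sigma]
  refine Finset.sum_congr rfl fun i _ => ?_
  rw [trace_emb j (hB i)]
  refine Finset.sum_congr rfl fun φ _ => ?_
  rw [map_mul, map_mul, emb_complexConj j, mul_assoc]
  rfl

theorem comp_mem_iff (j : L →+* ℂ) {X : CMAV} (w : Wt X L) :
    (1 : L ≃ₐ[ℚ] L) ∈ St j w ↔ j.comp w.2 ∈ (X.factor w.1).Φ := by
  change j.comp ((1 : L ≃ₐ[ℚ] L) • w.2) ∈ (X.factor w.1).Φ ↔ _
  rw [one_smul]

theorem ev_re (j : L →+* ℂ) {X : CMAV} {α : X.H1} (hα : IsPolar X α) (w : Wt X L) :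
    (j (ev α w)).re = 0 := by
  by_cases h : (1 : L ≃ₐ[ℚ] L) ∈ St j w
  · exact (hα w.1 _ ((comp_mem_iff j w).1 h)).1
  · have h1 := (hα w.1 _ ((comp_mem_iff j (bar w)).1 ((one_mem_bar j w).2 h))).1
    have h2 : (j.comp (bar w).2) (α (bar w).1) = starRingEnd ℂ (j (ev α w)) := by
      rw [← emb_cc]
      rfl
    have h3 : ((j.comp (bar w).2) (α w.1)).re = 0 := h1
    have h4 : (j.comp (bar w).2) (α w.1) = starRingEnd ℂ (j (ev α w)) := h2
    rw [h4, Complex.conj_re] at h3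
    exact h3

theorem cc_ev (j : L →+* ℂ) {X : CMAV} {α : X.H1} (hα : IsPolar X α) (w : Wt X L) :
    cc L (ev α w) = -ev α w := by
  apply j.injective
  rw [emb_cc, map_neg]
  apply Complex.ext
  · rw [Complex.conj_re, Complex.neg_re, ev_re j hα w, neg_zero]
  · rw [Complex.conj_im, Complex.neg_im]

theorem ev_bar_polar (j : L →+* ℂ) {X : CMAV} {α : X.H1} (hα : IsPolar X α) (w : Wt X L) :
    ev α (bar w) = -ev α w := by
  rw [ev_bar, cc_ev j hα]

theorem polar_sign (j : L →+* ℂ) {X : CMAV} {α : X.H1} (hα : IsPolar X α) (w : Wt X L) :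
    PosC (j (ev α (bar w)) * sgn j w) := by
  by_cases h : (1 : L ≃ₐ[ℚ] L) ∈ St j w
  · have h1 : 0 < (j (ev α w)).im := (hα w.1 _ ((comp_mem_iff j w).1 h)).2
    refine ⟨_, h1, ?_⟩
    unfold sgn
    rw [if_pos h, ev_bar_polar j hα, map_neg]
    apply Complex.ext
    · simp
    · simp [ev_re j hα w]
  · have h1 : 0 < (j (ev α (bar w))).im :=
      (hα w.1 _ ((comp_mem_iff j (bar w)).1 ((one_mem_bar j w).2 h))).2
    refine ⟨_, h1, ?_⟩
    unfold sgn
    rw [if_neg h]
    apply Complex.ext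
    · simp
    · simp [ev_re j hα (bar w)]

theorem ev_polar_ne (j : L →+* ℂ) {X : CMAV} {α : X.H1} (hα : IsPolar X α) (w : Wt X L) :
    ev α w ≠ 0 := by
  intro h
  have h1 := (polar_sign j hα w).ne
  rw [ev_bar_polar j hα, h, neg_zero, map_zero, zero_mul] at h1
  exact h1 rfl

/-- Compatible polarizations exist. -/
theorem exists_polar (X : CMAV) : ∃ α : X.H1, IsPolar X α := by
  obtain ⟨x, hx⟩ := exists_approx X (fun i φ => Complex.I) (ε := 1 / 2) (by norm_num)
  refine ⟨fun i => x i - IsCMField.complexConj (X.factor i).E (x i), fun i φ hφ => ?_⟩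
  have h1 := hx i ⟨φ, hφ⟩
  have h2 : X.per x i ⟨φ, hφ⟩ = φ (x i) := rfl
  rw [h2] at h1
  rw [map_sub, IsCMField.complexEmbedding_complexConj]
  have h3 : |(φ (x i) - Complex.I).im| < 1 / 2 := (Complex.abs_im_le_norm _).trans_lt h1
  rw [Complex.sub_im, Complex.I_im, abs_lt] at h3
  constructor
  · rw [Complex.sub_re, Complex.conj_re, sub_self]
  · rw [Complex.sub_im, Complex.conj_im]
    linarith

variable {p : ℕ} [Fact p.Prime] {ν : PadicAlgCl p ≃+* ℂ} {Ω : Type} [Field Ω] [CharZero Ω]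
  {jO : L →+* Ω}

/-- The form of the polarization over `Ω`. -/
theorem exists_theta (j : L →+* ℂ) {Y : RedAV p ν} {α : Y.X.H1} (hα : IsPolar Y.X α) :
    ∃ θ : (TM Ω Y) [⋀^Fin 2]→ₗ[Ω] Ω, ∀ x y, θ ![x, y] =
      ∑ w : Wt Y.X L, jO (ev α w) * (co jO (bar w) x * co jO w y) := by
  classical
  refine ⟨(1 / 2 : Ω) • ∑ w : Wt Y.X L, jO (ev α w) • monoO jO ![bar w, w], fun x y => ?_⟩
  rw [AlternatingMap.smul_apply, Pool.Agent.W351.TA.sum_alt, smul_eq_mul]
  have h1 : ∀ w : Wt Y.X L, (jO (ev α w) • monoO jO ![bar w, w]) ![x, y] =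
      jO (ev α w) * (co jO (bar w) x * co jO w y) +
        jO (ev α (bar w)) * (co jO (bar (bar w)) x * co jO (bar w) y) := by
    intro w
    rw [AlternatingMap.smul_apply, monoO_det, Matrix.det_fin_two, bar_bar, ev_bar_polar j hα,
      smul_eq_mul, map_neg]
    simp only [Matrix.of_apply, Matrix.cons_val_zero, Matrix.cons_val_one]
    ring
  rw [Finset.sum_congr rfl fun w _ => h1 w, Finset.sum_add_distrib]
  have h2 : ∑ w : Wt Y.X L, jO (ev α (bar w)) * (co jO (bar (bar w)) x * co jO (bar w) y) =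
      ∑ w : Wt Y.X L, jO (ev α w) * (co jO (bar w) x * co jO w y) :=
    Fintype.sum_equiv (Function.Involutive.toPerm bar bar_bar) _ _ fun w => rfl
  rw [h2]
  ring

theorem res_theta (j : L →+* ℂ) {Y : RedAV p ν} (hB : Big Y.X j) {α : Y.X.H1}
    {θ : (TM Ω Y) [⋀^Fin 2]→ₗ[Ω] Ω} (hθ : ∀ x y, θ ![x, y] =
      ∑ w : Wt Y.X L, jO (ev α w) * (co jO (bar w) x * co jO w y)) (x y : Y.X.H1) :
    res θ ![x, y] = (riemannForm Y.X α x y : Ω) := by
  have h1 : res θ ![x, y] = θ ![(1 : Ω) ⊗ₜ[ℚ] x, (1 : Ω) ⊗ₜ[ℚ] y] := by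
    unfold res
    congr 1
    funext k
    fin_cases k <;> rfl
  have h2 := congrArg jO (riemann_eq j hB α x y)
  rw [map_ratCast] at h2
  rw [h1, hθ, h2, map_sum]
  refine Finset.sum_congr rfl fun w _ => ?_
  rw [map_mul, map_mul, Pool.Agent.W417.TA.co_tmul, Pool.Agent.W417.TA.co_tmul]

end

end Pool.Agent.TH117.PO
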