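import Pool.Agent.TH117.PO.Coef

/-!
# Positive monomials
-/

set_option autoImplicit false
set_option linter.unusedSectionVars false
set_option linter.unusedVariables false

namespace Pool.Agent.TH117.PO

open NumberField Pool.Agent.H204R3.CM Pool.Agent.W547.KB Pool.Agent.W547.LD Pool.Agent.W547.HR
  Pool.Agent.W495.TA Module Pool.Agent.W976.TA
open scoped TensorProduct

noncomputable section

/-- Positive real numbers. -/
def PosC (x : ℂ) : Prop := ∃ t : ℝ, 0 < t ∧ x = t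

theorem PosC.one : PosC 1 := ⟨1, one_pos, by norm_num⟩

theorem PosC.mul {x y : ℂ} (hx : PosC x) (hy : PosC y) : PosC (x * y) := by
  obtain ⟨s, hs, rfl⟩ := hx
  obtain ⟨t, ht, rfl⟩ := hy
  exact ⟨s * t, mul_pos hs ht, by push_cast; rfl⟩

theorem PosC.inv {x : ℂ} (hx : PosC x) : PosC x⁻¹ := by
  obtain ⟨s, hs, rfl⟩ := hx
  exact ⟨s⁻¹, inv_pos.2 hs, by push_cast; rfl⟩

theorem PosC.ne {x : ℂ} (hx : PosC x) : x ≠ 0 := by
  obtain ⟨s, hs, rfl⟩ := hx
  exact_mod_cast hs.ne'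

theorem PosC.prod {J : Type} (s : Finset J) (f : J → ℂ) (h : ∀ i ∈ s, PosC (f i)) :
    PosC (∏ i ∈ s, f i) := by
  classical
  induction s using Finset.induction_on with
  | empty => exact PosC.one
  | insert a s ha ih =>
    rw [Finset.prod_insert ha]
    exact (h a (Finset.mem_insert_self a s)).mul (ih fun i hi => h i (Finset.mem_insert_of_mem hi))

/-- A number which is not zero and, if `R` holds, positive. -/
def PosR (R : Prop) (x : ℂ) : Prop := x ≠ 0 ∧ (R → PosC x)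

theorem PosC.posR {R : Prop} {x : ℂ} (hx : PosC x) : PosR R x := ⟨hx.ne, fun _ => hx⟩

theorem PosR.one {R : Prop} : PosR R 1 := PosC.one.posR

theorem PosR.mul {R : Prop} {x y : ℂ} (hx : PosR R x) (hy : PosR R y) : PosR R (x * y) :=
  ⟨mul_ne_zero hx.1 hy.1, fun h => (hx.2 h).mul (hy.2 h)⟩

theorem PosR.prod {R : Prop} {J : Type} (s : Finset J) (f : J → ℂ) (h : ∀ i ∈ s, PosR R (f i)) :
    PosR R (∏ i ∈ s, f i) :=
  ⟨Finset.prod_ne_zero_iff.2 fun i hi => (h i hi).1, fun hR =>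
    PosC.prod s f fun i hi => (h i hi).2 hR⟩

variable {L : Type} [Field L] [NumberField L] [IsCMField L] [IsGalois ℚ L]

theorem PosC.norm (j : L →+* ℂ) {l : L} (hl : l ≠ 0) : PosC (j (l * cc L l)) := by
  refine ⟨Complex.normSq (j l), Complex.normSq_pos.2 ((map_ne_zero j).2 hl), ?_⟩
  rw [map_mul, emb_cc, Complex.mul_conj]

open Classical in
/-- The sign (a square root of `-1`) of a weight: it depends on the type. -/
def sgn (j : L →+* ℂ) {X : CMAV} (w : Wt X L) : ℂ :=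
  if (1 : L ≃ₐ[ℚ] L) ∈ St j w then Complex.I else -Complex.I

theorem sgn_congr (j : L →+* ℂ) {X Y : CMAV} {w : Wt X L} {w' : Wt Y L} (h : St j w = St j w') :
    sgn j w = sgn j w' := by
  unfold sgn
  rw [h]

theorem one_mem_bar (j : L →+* ℂ) {X : CMAV} (w : Wt X L) :
    (1 : L ≃ₐ[ℚ] L) ∈ St j (bar w) ↔ (1 : L ≃ₐ[ℚ] L) ∉ St j w := by
  change j.comp ((1 : L ≃ₐ[ℚ] L) • (cc L • w.2)) ∈ (X.factor w.1).Φ ↔
    ¬ (j.comp ((1 : L ≃ₐ[ℚ] L) • w.2) ∈ (X.factor w.1).Φ)
  rw [one_smul, one_smul, comp_conj]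
  have h3 := (X.factor w.1).isCMType (j.comp w.2)
  constructor
  · intro h4 h5
    exact (h3.1 h5) h4
  · intro h4
    by_contra h5
    exact h4 (h3.2 h5)

theorem sgn_bar (j : L →+* ℂ) {X : CMAV} (w : Wt X L) : sgn j (bar w) = -sgn j w := by
  unfold sgn
  by_cases h : (1 : L ≃ₐ[ℚ] L) ∈ St j w
  · rw [if_pos h, if_neg fun h2 => ((one_mem_bar j w).1 h2) h]
  · rw [if_neg h, if_pos ((one_mem_bar j w).2 h), neg_neg]

theorem sgn_sq (j : L →+* ℂ) {X : CMAV} (w : Wt X L) : sgn j w * sgn j w = -1 := by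
  unfold sgn
  split_ifs <;> simp

theorem sgn_mul_bar (j : L →+* ℂ) {X : CMAV} (w : Wt X L) : sgn j w * sgn j (bar w) = 1 := by
  rw [sgn_bar, mul_neg, sgn_sq, neg_neg]

theorem sgn_ne (j : L →+* ℂ) {X : CMAV} (w : Wt X L) : sgn j w ≠ 0 := by
  intro h
  have := sgn_sq j w
  rw [h, mul_zero] at this
  norm_num at this

/-- The product of all signs. -/
theorem prod_sgn (j : L →+* ℂ) {X : CMAV} {κ : Type} [Fintype κ] {B : κ → Wt X L}
    (hB : Function.Bijective B) : ∏ k, sgn j (B k) = 1 := by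
  classical
  let e : κ ≃ Wt X L := Equiv.ofBijective B hB
  let τ : κ ≃ κ := (e.trans (Function.Involutive.toPerm bar bar_bar)).trans e.symm
  have hτ : ∀ k, B (τ k) = bar (B k) := fun k => e.apply_symm_apply (bar (B k))
  have hττ : ∀ k, τ (τ k) = k := by
    intro k
    apply hB.1
    rw [hτ, hτ, bar_bar]
  unfold sgn
  rw [Finset.prod_ite, Finset.prod_const, Finset.prod_const]
  have h1 : (Finset.univ.filter fun k => (1 : L ≃ₐ[ℚ] L) ∈ St j (B k)).card =
      (Finset.univ.filter fun k => ¬ (1 : L ≃ₐ[ℚ] L) ∈ St j (B k)).card := by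
    refine Finset.card_bij (fun k _ => τ k) ?_ ?_ ?_
    · intro k hk
      refine Finset.mem_filter.2 ⟨Finset.mem_univ _, ?_⟩
      rw [hτ, one_mem_bar, not_not]
      exact (Finset.mem_filter.1 hk).2
    · intro k _ k' _ h
      exact τ.injective h
    · intro k hk
      refine ⟨τ k, Finset.mem_filter.2 ⟨Finset.mem_univ _, ?_⟩, hττ k⟩
      rw [hτ, one_mem_bar]
      exact (Finset.mem_filter.1 hk).2
  rw [h1, ← mul_pow]
  simp

variable {p : ℕ} [Fact p.Prime] {ν : PadicAlgCl p ≃+* ℂ} {Ω : Type} [Field Ω] [CharZero Ω]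
  (jO : L →+* Ω) (C : (Y : RedAV p ν) → (κ : Type) → ((TM Ω Y) [⋀^κ]→ₗ[Ω] Ω) → Prop)

/-- Positive monomials (if the Rosati involution is positive). -/
def IsPos (j : L →+* ℂ) (Y : RedAV p ν) {κ : Type} [Fintype κ] [DecidableEq κ]
    (I : κ → Wt Y.X L) : Prop :=
  ∃ (c c' : Ω) (μ : L), Ln jO C Y I c c' ∧ c * c' = jO μ ∧
    PosR (IsRosatiPositive Ω C) (j μ * ∏ k, sgn j (I k))

variable {jO C} {j : L →+* ℂ}

variable (hC : IsCycleSystem Ω C)
include hC

theorem IsPos.empty {Y : RedAV p ν} {κ : Type} [Fintype κ] [DecidableEq κ] [IsEmpty κ]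
    (I : κ → Wt Y.X L) : IsPos jO C j Y I := by
  refine ⟨1, 1, 1, Ln_empty hC I, by rw [map_one, mul_one], ?_⟩
  rw [map_one, one_mul, Finset.univ_eq_empty, Finset.prod_empty]
  exact PosR.one

theorem IsPos.cup {Y : RedAV p ν} {κ κ' : Type} [Fintype κ] [DecidableEq κ] [Fintype κ']
    [DecidableEq κ'] {I : κ → Wt Y.X L} {I' : κ' → Wt Y.X L} (h : IsPos jO C j Y I)
    (h' : IsPos jO C j Y I') : IsPos jO C j Y (Sum.elim I I') := by
  obtain ⟨c, c', μ, h1, h2, h3⟩ := h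
  obtain ⟨d, d', μ', h4, h5, h6⟩ := h'
  refine ⟨c * d, c' * d', μ * μ', Ln.cup hC h1 h4, ?_, ?_⟩
  · rw [map_mul, ← h2, ← h5]
    ring
  · rw [Fintype.prod_sum_type]
    have h7 := h3.mul h6
    have h8 : j μ * (∏ k, sgn j (I k)) * (j μ' * ∏ k, sgn j (I' k)) =
        j (μ * μ') * ((∏ k, sgn j (Sum.elim I I' (Sum.inl k))) *
          ∏ k, sgn j (Sum.elim I I' (Sum.inr k))) := by
      rw [map_mul]
      simp only [Sum.elim_inl, Sum.elim_inr]
      ring
    rwa [h8] at h7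

theorem IsPos.reindex {Y : RedAV p ν} {κ κ' : Type} [Fintype κ] [DecidableEq κ] [Fintype κ']
    [DecidableEq κ'] (e : κ ≃ κ') {I : κ → Wt Y.X L} {I' : κ' → Wt Y.X L}
    (hI : ∀ k, I' (e k) = I k) (h : IsPos jO C j Y I) : IsPos jO C j Y I' := by
  obtain ⟨c, c', μ, h1, h2, h3⟩ := h
  refine ⟨c, c', μ, Ln.reindex hC e hI h1, h2, ?_⟩
  have h4 : ∏ k, sgn j (I' k) = ∏ k, sgn j (I k) := by
    refine (Fintype.prod_equiv e _ _ fun k => ?_).symm
    rw [hI]
  rwa [h4]

theorem IsPos.types {Y Z : RedAV p ν} {κ : Type} [Fintype κ] [DecidableEq κ] {I : κ → Wt Y.X L}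
    {J : κ → Wt Z.X L} (hJ : Function.Injective J) (hI : ∀ k, St j (I k) = St j (J k))
    (h : IsPos jO C j Z J) : IsPos jO C j Y I := by
  obtain ⟨c, c', μ, h1, h2, h3⟩ := h
  refine ⟨c, c', μ, Ln.types hC j hJ hI h1, h2, ?_⟩
  rwa [Finset.prod_congr rfl fun k _ => sgn_congr j (hI k)]

theorem IsPos.hodge {Y : RedAV p ν} {I : Fin 2 → Wt Y.X L} (hI : St j (I 1) = St j (bar (I 0))) :
    IsPos jO C j Y I := by
  refine ⟨1, 1, 1, Ln_hodge hC j hI, by rw [map_one, mul_one], ?_⟩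
  rw [map_one, one_mul, Fin.prod_univ_two, sgn_congr j hI, sgn_mul_bar]
  exact PosR.one

theorem IsPos.pairs {Y : RedAV p ν} {J : Type} [Fintype J] [DecidableEq J]
    (K : J × Fin 2 → Wt Y.X L) (h : ∀ i, IsPos jO C j Y (fun b => K (i, b))) :
    IsPos jO C j Y K := by
  choose c c' μ h1 h2 h3 using h
  refine ⟨∏ i, c i, ∏ i, c' i, ∏ i, μ i, Ln_pairsF hC K c c' h1, ?_, ?_⟩
  · rw [map_prod, ← Finset.prod_mul_distrib]
    exact Finset.prod_congr rfl fun i _ => h2 i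
  · rw [map_prod, Fintype.prod_prod_type, ← Finset.prod_mul_distrib]
    exact PosR.prod _ _ fun i _ => h3 i

theorem IsPos.push {Y Y' : RedAV p ν} (hB : Big Y'.X j) {κ κ' : Type} [Fintype κ]
    [DecidableEq κ] [Fintype κ'] [DecidableEq κ'] {I : κ → Wt Y.X L} {B : κ' → Wt Y'.X L}
    (hI : Function.Bijective B)
    (h : IsPos jO C j (prodR Y Y') (Sum.elim (fun k => inlW (I k)) fun k => inrW (B k))) :
    IsPos jO C j Y I := by
  obtain ⟨c, c', μ, h1, h2, h3⟩ := h
  obtain ⟨δ, hδ, h4⟩ := Ln.push hC j hB hI h1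
  refine ⟨_, _, μ * (δ * cc L δ), h4, ?_, ?_⟩
  · rw [map_mul, map_mul, ← h2]
    ring
  · rw [Fintype.prod_sum_type] at h3
    have h5 : ∏ k, sgn j (Sum.elim (fun k => inlW (I k)) (fun k => inrW (B k)) (Sum.inr k) :
        Wt (prodR Y Y').X L) = ∏ k, sgn j (B k) := rfl
    rw [h5, prod_sgn j hI, mul_one] at h3
    have h6 := h3.mul (PosC.norm j hδ).posR
    have h7 : (j μ * ∏ k, sgn j (Sum.elim (fun k => inlW (I k)) (fun k => inrW (B k))
        (Sum.inl k) : Wt (prodR Y Y').X L)) * j (δ * cc L δ) =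
        j (μ * (δ * cc L δ)) * ∏ k, sgn j (I k) := by
      rw [map_mul j μ]
      have h8 : ∏ k, sgn j (Sum.elim (fun k => inlW (I k)) (fun k => inrW (B k))
          (Sum.inl k) : Wt (prodR Y Y').X L) = ∏ k, sgn j (I k) := rfl
      rw [h8]
      ring
    rwa [h7] at h6

/-- The coefficients of a class on a positive monomial. -/
theorem IsPos.line {Y : RedAV p ν} (hB : Big Y.X j) {κ : Type} [Fintype κ] [DecidableEq κ]
    {I : κ → Wt Y.X L} (hI : Function.Injective I) (h : IsPos jO C j Y I) {d d' : Ω}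
    (hd : Ln jO C Y I d d') (hd0 : d ≠ 0) :
    ∃ μ : L, d * d' = jO μ ∧ PosR (IsRosatiPositive Ω C) (j μ * ∏ k, sgn j (I k)) := by
  obtain ⟨c, c', μ, h1, h2, h3⟩ := h
  obtain ⟨l, h4, h5⟩ := two_lines hC j hB hI hd h1
  obtain ⟨m, h6, h7⟩ := two_lines hC j hB hI h1 h1
  have hμ0 : μ ≠ 0 := by
    intro h
    have := h3.1
    rw [h, map_zero, zero_mul] at this
    exact this rfl
  have hcc0 : c * c' ≠ 0 := by
    rw [h2]
    exact (map_ne_zero jO).2 hμ0
  have hc' : c' ≠ 0 := right_ne_zero_of_mul hcc0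
  have hl0 : l ≠ 0 := by
    intro h
    rw [h, map_zero] at h4
    exact mul_ne_zero hd0 hc' h4
  have hμr : cc L μ = μ := by
    have e1 : m = μ := jO.injective (by rw [← h6, h2])
    have e2 : cc L m = μ := jO.injective (by rw [← h7, mul_comm, h2])
    rw [e1] at e2
    exact e2
  refine ⟨l * cc L l * μ⁻¹, ?_, ?_, fun hR => ?_⟩
  · rw [map_mul, map_mul, map_inv₀, ← h4, ← h5, ← h2]
    have hc : c ≠ 0 := left_ne_zero_of_mul hcc0
    field_simp
  · refine mul_ne_zero ((map_ne_zero j).2 ?_)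
      (Finset.prod_ne_zero_iff.2 fun k _ => sgn_ne j (I k))
    exact mul_ne_zero (mul_ne_zero hl0 ((map_ne_zero (cc L)).2 hl0)) (inv_ne_zero hμ0)
  have h3 := h3.2 hR
  set S : ℂ := ∏ k, sgn j (I k) with hS
  -- the sign is real
  have hSS : S * S = 1 := by
    have hS2 : S * S = (-1) ^ Fintype.card κ := by
      rw [hS, ← Finset.prod_mul_distrib]
      simp only [sgn_sq]
      rw [Finset.prod_const, Finset.card_univ]
    have hconj : starRingEnd ℂ S = (-1) ^ Fintype.card κ * S := by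
      have h8 : ∀ w : Wt Y.X L, starRingEnd ℂ (sgn j w) = -sgn j w := by
        intro w
        unfold sgn
        split_ifs <;> simp
      rw [hS, map_prod, Finset.prod_congr rfl fun k _ => h8 (I k)]
      rw [← Finset.card_univ, ← Finset.prod_const, ← Finset.prod_mul_distrib]
      exact Finset.prod_congr rfl fun k _ => (neg_one_mul _).symm
    obtain ⟨t, ht, h9⟩ := h3
    have h10 : starRingEnd ℂ (j μ) = j μ := by rw [← emb_cc, hμr]
    have h11 := congrArg (starRingEnd ℂ) h9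
    rw [map_mul, h10, Complex.conj_ofReal, ← h9, hconj] at h11
    have hjμ : j μ ≠ 0 := (map_ne_zero j).2 hμ0
    have hS0 : S ≠ 0 := Finset.prod_ne_zero_iff.2 fun k _ => sgn_ne j (I k)
    have h12 : ((-1 : ℂ)) ^ Fintype.card κ = 1 := by
      have h13 : j μ * S * ((-1) ^ Fintype.card κ - 1) = 0 := by
        linear_combination h11
      have h14 := (mul_eq_zero.1 h13).resolve_left (mul_ne_zero hjμ hS0)
      linear_combination h14
    rw [hS2, h12]
  have h8 := (PosC.norm j hl0).mul h3.inv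
  have h9 : j (l * cc L l) * (j μ * S)⁻¹ = j (l * cc L l * μ⁻¹) * S := by
    have hS0 : S ≠ 0 := fun h => by rw [h, mul_zero] at hSS; exact zero_ne_one hSS
    have hjμ : j μ ≠ 0 := (map_ne_zero j).2 hμ0
    rw [map_mul j (l * cc L l), map_inv₀, mul_inv]
    have h10 : S⁻¹ = S := by
      field_simp
      rw [pow_two]
      exact hSS.symm
    rw [h10]
    ring
  rwa [h9] at h8

end

end Pool.Agent.TH117.PO
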