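import Pool.Agent.TH117.PO.Defs
import Pool.Agent.W547.LD.Pull
import Pool.Agent.W495.TA.Stms
import Pool.Agent.W976.TA.Push

/-!
# The twisted span of the rational classes over a CM field
-/

set_option autoImplicit false
set_option linter.unusedSectionVars false
set_option linter.unusedVariables false

namespace Pool.Agent.TH117.PO

open NumberField Pool.Agent.H204R3.CM Pool.Agent.W547.KB Pool.Agent.W547.LD Pool.Agent.W547.HR
  Pool.Agent.W495.TA Module
open scoped TensorProduct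

noncomputable section

variable {p : ℕ} [Fact p.Prime] {ν : PadicAlgCl p ≃+* ℂ} {Ω : Type} [Field Ω] [CharZero Ω]
  {L : Type} [Field L] [NumberField L] [IsCMField L]

theorem cc_invol [IsGalois ℚ L] (x : L) : cc L (cc L x) = x := by
  rw [cc_apply, cc_apply]
  exact IsCMField.complexConj_apply_apply L x

/-- Functions of rational vectors. -/
abbrev Fn (Ω : Type) (Y : RedAV p ν) (κ : Type) : Type := (κ → Y.X.H1) → Ω

/-- Pairs of functions, with the twisted action of `L`. -/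
@[ext] structure W (jO : L →+* Ω) (Y : RedAV p ν) (κ : Type) where
  fst : Fn Ω Y κ
  snd : Fn Ω Y κ

namespace W

variable {jO : L →+* Ω} {Y : RedAV p ν} {κ : Type}

instance : Zero (W jO Y κ) := ⟨⟨0, 0⟩⟩
instance : Add (W jO Y κ) := ⟨fun F G => ⟨F.fst + G.fst, F.snd + G.snd⟩⟩
instance : Neg (W jO Y κ) := ⟨fun F => ⟨-F.fst, -F.snd⟩⟩
instance : SMul L (W jO Y κ) := ⟨fun l F => ⟨fun v => jO l * F.fst v, fun v => jO (cc L l) * F.snd v⟩⟩

@[simp] theorem zero_fst : (0 : W jO Y κ).fst = 0 := rfl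
@[simp] theorem zero_snd : (0 : W jO Y κ).snd = 0 := rfl
@[simp] theorem add_fst (F G : W jO Y κ) : (F + G).fst = F.fst + G.fst := rfl
@[simp] theorem add_snd (F G : W jO Y κ) : (F + G).snd = F.snd + G.snd := rfl
@[simp] theorem neg_fst (F : W jO Y κ) : (-F).fst = -F.fst := rfl
@[simp] theorem neg_snd (F : W jO Y κ) : (-F).snd = -F.snd := rfl
theorem smul_fst (l : L) (F : W jO Y κ) : (l • F).fst = fun v => jO l * F.fst v := rfl
theorem smul_snd (l : L) (F : W jO Y κ) : (l • F).snd = fun v => jO (cc L l) * F.snd v := rfl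

instance : AddCommGroup (W jO Y κ) where
  add_assoc F G H := by ext v <;> simp [add_assoc]
  zero_add F := by ext v <;> simp
  add_zero F := by ext v <;> simp
  add_comm F G := by ext v <;> simp [add_comm]
  neg_add_cancel F := by ext v <;> simp
  nsmul := nsmulRec
  zsmul := zsmulRec

instance : Module L (W jO Y κ) where
  one_smul F := by ext v <;> simp [smul_fst, smul_snd]
  mul_smul a b F := by ext v <;> simp [smul_fst, smul_snd, mul_assoc]
  smul_zero a := by ext v <;> simp [smul_fst, smul_snd]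
  smul_add a F G := by ext v <;> simp [smul_fst, smul_snd, mul_add]
  add_smul a b F := by ext v <;> simp [smul_fst, smul_snd, add_mul]
  zero_smul F := by ext v <;> simp [smul_fst, smul_snd]

end W

variable (C : (Y : RedAV p ν) → (κ : Type) → ((TM Ω Y) [⋀^κ]→ₗ[Ω] Ω) → Prop) (jO : L →+* Ω)

/-- The twisted span. -/
def V (Y : RedAV p ν) (κ : Type) : Submodule L (W jO Y κ) :=
  Submodule.span L {F | ∃ z, C Y κ z ∧ F = ⟨res z, res z⟩}

variable {C jO}

theorem V_of {Y : RedAV p ν} {κ : Type} {z : (TM Ω Y) [⋀^κ]→ₗ[Ω] Ω} (hz : C Y κ z) :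
    (⟨res z, res z⟩ : W jO Y κ) ∈ V C jO Y κ :=
  Submodule.subset_span ⟨z, hz, rfl⟩

/-- A pair of linear maps. -/
def pairMap {Y Z : RedAV p ν} {κ κ' : Type} (Φ Φ' : Fn Ω Y κ →ₗ[Ω] Fn Ω Z κ') :
    W jO Y κ →ₗ[L] W jO Z κ' where
  toFun F := ⟨Φ F.fst, Φ' F.snd⟩
  map_add' F G := by ext v <;> simp
  map_smul' l F := by
    have h1 : ∀ (c : Ω) (G : Fn Ω Y κ), (fun v => c * G v) = c • G := fun c G => rfl
    ext v
    · simp only [W.smul_fst, h1, map_smul, RingHom.id_apply]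
      rfl
    · simp only [W.smul_snd, h1, map_smul, RingHom.id_apply]
      rfl

theorem V_map {Y Z : RedAV p ν} {κ κ' : Type} (Φ Φ' : Fn Ω Y κ →ₗ[Ω] Fn Ω Z κ')
    (h : ∀ z, C Y κ z → (⟨Φ (res z), Φ' (res z)⟩ : W jO Z κ') ∈ V C jO Z κ') {F : W jO Y κ}
    (hF : F ∈ V C jO Y κ) : (⟨Φ F.fst, Φ' F.snd⟩ : W jO Z κ') ∈ V C jO Z κ' := by
  have h1 : V C jO Y κ ≤ (V C jO Z κ').comap (pairMap Φ Φ') := by
    refine Submodule.span_le.2 ?_
    rintro _ ⟨z, hz, rfl⟩
    exact h z hz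
  exact h1 hF

/-! ### Operations on forms over `Ω` -/

theorem ext_res {Y : RedAV p ν} {κ : Type} [Finite κ] {f g : (TM Ω Y) [⋀^κ]→ₗ[Ω] Ω}
    (h : ∀ v, res f v = res g v) : f = g := by
  classical
  let b := Module.Free.chooseBasis ℚ Y.X.H1
  refine Basis.ext_alternating (b.baseChange Ω) fun v _ => ?_
  have h1 : (fun i => (b.baseChange Ω) (v i)) = fun i => (1 : Ω) ⊗ₜ[ℚ] b (v i) := by
    funext i
    rw [Basis.baseChange_apply]
  rw [h1]
  exact h fun i => b (v i)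

/-- The alternated product of two forms. -/
def cupO {Y : RedAV p ν} {κ κ' : Type} [Fintype κ] [DecidableEq κ] [Fintype κ'] [DecidableEq κ']
    (f : (TM Ω Y) [⋀^κ]→ₗ[Ω] Ω) (g : (TM Ω Y) [⋀^κ']→ₗ[Ω] Ω) : (TM Ω Y) [⋀^κ ⊕ κ']→ₗ[Ω] Ω :=
  MultilinearMap.alternatization ((LinearMap.mul' Ω Ω).compMultilinearMap
    (f.toMultilinearMap.domCoprod g.toMultilinearMap))

theorem cupO_apply {Y : RedAV p ν} {κ κ' : Type} [Fintype κ] [DecidableEq κ] [Fintype κ']
    [DecidableEq κ'] (f : (TM Ω Y) [⋀^κ]→ₗ[Ω] Ω) (g : (TM Ω Y) [⋀^κ']→ₗ[Ω] Ω)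
    (v : κ ⊕ κ' → TM Ω Y) : cupO f g v = altSum (times f g) v := by
  unfold cupO altSum times
  rw [MultilinearMap.alternatization_apply]
  refine Finset.sum_congr rfl fun σ _ => ?_
  rw [Units.smul_def, zsmul_eq_mul]
  rfl

/-- The push-forward of a form. -/
def pushO {Y Z : RedAV p ν} {κ κ' : Type} (h : Y.X.H1 →ₗ[ℚ] Z.X.H1) (b : κ' → Z.X.H1)
    (f : (TM Ω Z) [⋀^κ ⊕ κ']→ₗ[Ω] Ω) : (TM Ω Y) [⋀^κ]→ₗ[Ω] Ω where
  toFun v := f (Sum.elim (fun k => h.baseChange Ω (v k)) (fun k => 1 ⊗ₜ[ℚ] b k))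
  map_update_add' := by
    classical
    intro hd v k x y
    have h1 : ∀ z : TM Ω Y, Sum.elim (fun k' => h.baseChange Ω (Function.update v k z k'))
        (fun k => (1 : Ω) ⊗ₜ[ℚ] b k) =
        Function.update (Sum.elim (fun k' => h.baseChange Ω (v k')) (fun k => (1 : Ω) ⊗ₜ[ℚ] b k))
          (Sum.inl k) (h.baseChange Ω z) := by
      intro z
      funext s
      rcases s with s | s
      · by_cases h : s = k
        · subst h; simp
        · simp [h]
      · simp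
    rw [h1, h1, h1, map_add, AlternatingMap.map_update_add]
  map_update_smul' := by
    classical
    intro hd v k c x
    have h1 : ∀ z : TM Ω Y, Sum.elim (fun k' => h.baseChange Ω (Function.update v k z k'))
        (fun k => (1 : Ω) ⊗ₜ[ℚ] b k) =
        Function.update (Sum.elim (fun k' => h.baseChange Ω (v k')) (fun k => (1 : Ω) ⊗ₜ[ℚ] b k))
          (Sum.inl k) (h.baseChange Ω z) := by
      intro z
      funext s
      rcases s with s | s
      · by_cases h : s = k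
        · subst h; simp
        · simp [h]
      · simp
    rw [h1, h1, map_smul, AlternatingMap.map_update_smul]
  map_eq_zero_of_eq' v i k hv hik := by
    refine f.map_eq_zero_of_eq _ (i := Sum.inl i) (j := Sum.inl k) ?_ (by simpa using hik)
    simp [hv]

theorem res_pushO {Y Z : RedAV p ν} {κ κ' : Type} (h : Y.X.H1 →ₗ[ℚ] Z.X.H1) (b : κ' → Z.X.H1)
    (f : (TM Ω Z) [⋀^κ ⊕ κ']→ₗ[Ω] Ω) (v : κ → Y.X.H1) :
    res (pushO h b f) v = res f (Sum.elim (fun k => h (v k)) b) := by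
  change f _ = f _
  congr 1
  funext s
  rcases s with s | s
  · simp
  · rfl

theorem res_pull {Y Z : RedAV p ν} {κ : Type} (h : Y.X.H1 →ₗ[ℚ] Z.X.H1)
    (f : (TM Ω Z) [⋀^κ]→ₗ[Ω] Ω) (v : κ → Y.X.H1) :
    res (f.compLinearMap (h.baseChange Ω)) v = res f (fun k => h (v k)) := by
  change f _ = f _
  congr 1

/-! ### Closure properties of the span -/

section closure

variable (hC : IsCycleSystem Ω C)
include hC

theorem V_unit {Y : RedAV p ν} {κ : Type} [IsEmpty κ] :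
    (⟨fun _ => 1, fun _ => 1⟩ : W jO Y κ) ∈ V C jO Y κ :=
  V_of (z := AlternatingMap.constOfIsEmpty Ω _ _ 1) (hC.unit _ fun v => rfl)

theorem V_reindex {Y : RedAV p ν} {κ κ' : Type} (e : κ ≃ κ') {F : W jO Y κ}
    (hF : F ∈ V C jO Y κ) :
    (⟨fun v => F.fst fun k => v (e k), fun v => F.snd fun k => v (e k)⟩ : W jO Y κ') ∈
      V C jO Y κ' := by
  let Φ : Fn Ω Y κ →ₗ[Ω] Fn Ω Y κ' :=
    { toFun := fun F v => F fun k => v (e k), map_add' := fun _ _ => rfl,
      map_smul' := fun _ _ => rfl }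
  exact V_map Φ Φ (fun z hz => V_of (z := z.domDomCongr e) (hC.reindex e z hz)) hF

theorem V_pull {Y Z : RedAV p ν} {κ : Type} {h : Y.X.H1 →ₗ[ℚ] Z.X.H1} (hh : IsHom Y.X Z.X h)
    {F : W jO Z κ} (hF : F ∈ V C jO Z κ) :
    (⟨fun v => F.fst fun k => h (v k), fun v => F.snd fun k => h (v k)⟩ : W jO Y κ) ∈
      V C jO Y κ := by
  let Φ : Fn Ω Z κ →ₗ[Ω] Fn Ω Y κ :=
    { toFun := fun F v => F fun k => h (v k), map_add' := fun _ _ => rfl,
      map_smul' := fun _ _ => rfl }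
  refine V_map Φ Φ (fun z hz => ?_) hF
  have h1 := V_of (jO := jO) (hC.pull h hh z hz)
  have h2 : res (z.compLinearMap (h.baseChange Ω)) = Φ (res z) := funext fun v => res_pull h z v
  rwa [h2] at h1

theorem V_push {Y Y' Z : RedAV p ν} {κ κ' : Type} {h : Y.X.H1 →ₗ[ℚ] Z.X.H1}
    {h' : Y'.X.H1 →ₗ[ℚ] Z.X.H1} (hh : IsHom Y.X Z.X h) (hh' : IsHom Y'.X Z.X h')
    (hb : Function.Bijective (fun v : Y.X.H1 × Y'.X.H1 => h v.1 + h' v.2))
    (b : Basis κ' ℚ Y'.X.H1) {F : W jO Z (κ ⊕ κ')} (hF : F ∈ V C jO Z (κ ⊕ κ')) :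
    (⟨fun v => F.fst (Sum.elim (fun k => h (v k)) (fun k => h' (b k))),
      fun v => F.snd (Sum.elim (fun k => h (v k)) (fun k => h' (b k)))⟩ : W jO Y κ) ∈
      V C jO Y κ := by
  let Φ : Fn Ω Z (κ ⊕ κ') →ₗ[Ω] Fn Ω Y κ :=
    { toFun := fun F v => F (Sum.elim (fun k => h (v k)) (fun k => h' (b k))),
      map_add' := fun _ _ => rfl, map_smul' := fun _ _ => rfl }
  refine V_map Φ Φ (fun z hz => ?_) hF
  have h1 := V_of (jO := jO) (hC.push h h' hh hh' hb b z (pushO h (fun k => h' (b k)) z) hz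
    fun v => res_pushO h _ z v)
  have h2 : res (pushO h (fun k => h' (b k)) z) = Φ (res z) := funext fun v => res_pushO h _ z v
  rwa [h2] at h1

/-- The cup product on functions. -/
def cupF {H : Type} {κ κ' : Type} [Fintype κ] [DecidableEq κ] [Fintype κ'] [DecidableEq κ']
    (F : (κ → H) → Ω) (G : (κ' → H) → Ω) : (κ ⊕ κ' → H) → Ω := fun v => altSum (times F G) v

omit hC in
theorem res_cupO {Y : RedAV p ν} {κ κ' : Type} [Fintype κ] [DecidableEq κ] [Fintype κ']
    [DecidableEq κ'] (f : (TM Ω Y) [⋀^κ]→ₗ[Ω] Ω) (g : (TM Ω Y) [⋀^κ']→ₗ[Ω] Ω) :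
    res (cupO f g) = cupF (res f) (res g) := by
  funext v
  exact cupO_apply f g _

theorem V_cup {Y : RedAV p ν} {κ κ' : Type} [Fintype κ] [DecidableEq κ] [Fintype κ']
    [DecidableEq κ'] {F : W jO Y κ} {G : W jO Y κ'} (hF : F ∈ V C jO Y κ)
    (hG : G ∈ V C jO Y κ') :
    (⟨cupF F.fst G.fst, cupF F.snd G.snd⟩ : W jO Y (κ ⊕ κ')) ∈ V C jO Y (κ ⊕ κ') := by
  have hR : ∀ w : (TM Ω Y) [⋀^κ']→ₗ[Ω] Ω, C Y κ' w →
      (⟨cupF F.fst (res w), cupF F.snd (res w)⟩ : W jO Y (κ ⊕ κ')) ∈ V C jO Y (κ ⊕ κ') := by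
    intro w hw
    let Φ : Fn Ω Y κ →ₗ[Ω] Fn Ω Y (κ ⊕ κ') :=
      { toFun := fun F => cupF F (res w)
        map_add' := fun F G => by
          funext v
          simp only [cupF, altSum, times, Pi.add_apply, add_mul, mul_add, Finset.sum_add_distrib]
        map_smul' := fun c F => by
          funext v
          simp only [cupF, altSum, times, Pi.smul_apply, smul_eq_mul, Finset.mul_sum,
            RingHom.id_apply]
          exact Finset.sum_congr rfl fun σ _ => by ring }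
    refine V_map Φ Φ (fun z hz => ?_) hF
    have h1 := V_of (jO := jO) (hC.cup z w hz hw (cupO z w) fun v => cupO_apply z w v)
    rwa [res_cupO] at h1
  let Ψ : Fn Ω Y κ → (Fn Ω Y κ' →ₗ[Ω] Fn Ω Y (κ ⊕ κ')) := fun F =>
    { toFun := fun G => cupF F G
      map_add' := fun G G' => by
        funext v
        simp only [cupF, altSum, times, Pi.add_apply, mul_add, Finset.sum_add_distrib]
      map_smul' := fun c G => by
        funext v
        simp only [cupF, altSum, times, Pi.smul_apply, smul_eq_mul, Finset.mul_sum,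
          RingHom.id_apply]
        exact Finset.sum_congr rfl fun σ _ => by ring }
  exact V_map (Ψ F.fst) (Ψ F.snd) hR hG

omit hC in
/-- Complex conjugation. -/
theorem V_swap [IsGalois ℚ L] {Y : RedAV p ν} {κ : Type} {F : W jO Y κ} (hF : F ∈ V C jO Y κ) :
    (⟨F.snd, F.fst⟩ : W jO Y κ) ∈ V C jO Y κ := by
  unfold V at hF
  induction hF using Submodule.span_induction with
  | mem F hF =>
    obtain ⟨z, hz, rfl⟩ := hF
    exact V_of hz
  | zero => exact Submodule.zero_mem _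
  | add F G _ _ hF hG => exact Submodule.add_mem _ hF hG
  | smul c F _ hF =>
    have h1 := Submodule.smul_mem _ (cc L c) hF
    have h2 : cc L (cc L c) = c := cc_invol c
    have h3 : (⟨(c • F).snd, (c • F).fst⟩ : W jO Y κ) = cc L c • (⟨F.snd, F.fst⟩ : W jO Y κ) := by
      ext v
      · rfl
      · change jO c * F.fst v = jO (cc L (cc L c)) * F.fst v
        rw [h2]
    rw [h3]
    exact h1

/-- Top degree. -/
theorem V_top {Y : RedAV p ν} {κ : Type} (hκ : Nat.card κ = finrank ℚ Y.X.H1) {F : W jO Y κ}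
    (hF : F ∈ V C jO Y κ) (v : κ → Y.X.H1) : ∃ l : L, F.fst v = jO l ∧ F.snd v = jO (cc L l) := by
  unfold V at hF
  induction hF using Submodule.span_induction with
  | mem F hF =>
    obtain ⟨z, hz, rfl⟩ := hF
    obtain ⟨a, ha⟩ := hC.top z hκ hz v
    refine ⟨(a : L), ?_, ?_⟩
    · rw [map_ratCast]
      exact ha
    · rw [map_ratCast, map_ratCast]
      exact ha
  | zero => exact ⟨0, by simp, by simp⟩
  | add F G _ _ hF hG =>
    obtain ⟨l, h1, h2⟩ := hF
    obtain ⟨m, h3, h4⟩ := hG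
    refine ⟨l + m, ?_, ?_⟩
    · rw [map_add, ← h1, ← h3]
      rfl
    · rw [map_add, map_add, ← h2, ← h4]
      rfl
  | smul c F _ hF =>
    obtain ⟨l, h1, h2⟩ := hF
    refine ⟨c * l, ?_, ?_⟩
    · rw [map_mul, ← h1]
      rfl
    · rw [map_mul, map_mul, ← h2]
      rfl

end closure

end

end Pool.Agent.TH117.PO
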