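import Pool.Agent.TH117.PO.Deg2b

/-!
# Tate classes of degree two, and transfer of positivity between abelian varieties
-/

set_option autoImplicit false
set_option linter.unusedSectionVars false
set_option linter.unusedVariables false

namespace Pool.Agent.TH117.PO

open NumberField Pool.Agent.H204R3.CM Pool.Agent.W547.KB Pool.Agent.W547.LD Pool.Agent.W547.HR
  Pool.Agent.W495.TA Module Pool.Agent.W976.TA
open scoped TensorProduct

noncomputable section

variable {L : Type} [Field L] [NumberField L] [IsCMField L] [IsGalois ℚ L]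
  {p : ℕ} [Fact p.Prime] {ν : PadicAlgCl p ≃+* ℂ} {Ω : Type} [Field Ω] [CharZero Ω]
  {jO : L →+* Ω} {C : (Y : RedAV p ν) → (κ : Type) → ((TM Ω Y) [⋀^κ]→ₗ[Ω] Ω) → Prop}
  {j : L →+* ℂ}

theorem pair_injective {X : CMAV} {w v : Wt X L} (h : w ≠ v) : Function.Injective ![w, v] := by
  intro k k' hk
  fin_cases k <;> fin_cases k'
  · rfl
  · exact absurd hk h
  · exact absurd hk.symm h
  · rfl

variable (hC : IsCycleSystem Ω C)
include hC

/-- Tate classes of degree two are positive. -/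
theorem pos_tate {Y : RedAV p ν} (hB : Big Y.X j) {w v : Wt Y.X L} (hne : w ≠ v) {s : ℕ}
    (hs : 0 < s) (hT : (ev Y.π w * ev Y.π v) ^ s = ((p : L) ^ Y.a) ^ s) :
    IsPos jO C j Y ![w, v] := by
  classical
  obtain ⟨e, h1, h0⟩ := Pool.Agent.W67.TA.basis p ν Ω L j jO Y hB
  -- classes with a given coefficient
  have key : ∀ w v : Wt Y.X L, w ≠ v → (ev Y.π w * ev Y.π v) ^ s = ((p : L) ^ Y.a) ^ s →
      ∃ z, C Y (Fin 2) z ∧ z ![e w, e v] ≠ 0 := by
    intro w v hne hT
    have hclass : IsTateClass Ω Y s 1 (monoO jO ![w, v]) := by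
      intro x
      rw [Pool.Agent.W333.TA.monoO_F_pow, Fin.prod_univ_two]
      have h2 : jO ((![w, v] 0).2 (Y.π (![w, v] 0).1) * (![w, v] 1).2 (Y.π (![w, v] 1).1)) ^ s =
          ((p : Ω) ^ Y.a) ^ (1 * s) := by
        have h3 := congrArg jO hT
        rw [map_pow, map_pow, map_pow, map_natCast] at h3
        rw [one_mul]
        exact h3
      rw [h2]
    have h2 := hC.divisor _ hs hclass
    have h3 : monoO jO ![w, v] ![e w, e v] = 1 := by
      rw [monoO_det, Matrix.det_fin_two]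
      simp only [Matrix.of_apply, Matrix.cons_val_zero, Matrix.cons_val_one]
      rw [h1, h1, h0 w v hne, mul_zero, sub_zero, one_mul]
    by_contra hcon
    push Not at hcon
    let ℓ : ((TM Ω Y) [⋀^Fin 2]→ₗ[Ω] Ω) →ₗ[Ω] Ω :=
      { toFun := fun f => f ![e w, e v], map_add' := fun _ _ => rfl, map_smul' := fun _ _ => rfl }
    have h4 : Submodule.span Ω {g | C Y (Fin 2) g} ≤ LinearMap.ker ℓ := by
      refine Submodule.span_le.2 fun g hg => ?_
      exact hcon g hg
    have h5 : ℓ (monoO jO ![w, v]) = 0 := h4 h2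
    have h6 : (1 : Ω) = 0 := by
      rw [← h3]
      exact h5
    exact one_ne_zero h6
  obtain ⟨z, hz, hz1⟩ := key w v hne hT
  obtain ⟨z', hz', hz2⟩ := key (bar w) (bar v) (fun h => hne (bar_injective h)) (by
    rw [ev_bar, ev_bar, ← map_mul, ← map_pow, hT, map_pow, map_pow, map_natCast])
  have hvec : (fun k => e (![w, v] k)) = ![e w, e v] := by
    funext k
    fin_cases k <;> rfl
  have hvec' : (fun k => e (bar (![w, v] k))) = ![e (bar w), e (bar v)] := by
    funext k
    fin_cases k <;> rfl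
  have l1 := Ln_coef hC j hB e h1 h0 hz (pair_injective hne)
  have l2 := Ln_coef hC j hB e h1 h0 hz' (pair_injective hne)
  rw [hvec, hvec'] at l1 l2
  obtain ⟨l, h2, h3⟩ := two_lines hC j hB (pair_injective hne) l1 l2
  have h4 : jO l ≠ 0 := by
    rw [← h2]
    exact mul_ne_zero hz1 hz2
  have h5 : jO (cc L l) ≠ 0 := by
    refine (map_ne_zero jO).2 ((map_ne_zero (cc L)).2 ?_)
    exact (map_ne_zero jO).1 h4
  rw [← h3] at h5
  exact pos_pair e h1 h0 hC hB hz hne hz1 (left_ne_zero_of_mul h5)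

omit hC in
theorem weil_eq (j : L →+* ℂ) {Y : RedAV p ν} (w : Wt Y.X L) :
    ev Y.π w * cc L (ev Y.π w) = (p : L) ^ Y.a := by
  apply j.injective
  have h1 := (Y.frob w.1).weil (j.comp w.2)
  rw [map_mul, emb_cc, Complex.mul_conj, Complex.normSq_eq_norm_sq, map_pow, map_natCast]
  have h2 : ‖j (ev Y.π w)‖ ^ 2 = (p : ℝ) ^ Y.a := h1
  rw [h2]
  push_cast
  rfl

/-- Weights with the same Frobenius eigenvalues (up to powers). -/
def Eqv (Y Z : RedAV p ν) (w : Wt Y.X L) (w' : Wt Z.X L) : Prop :=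
  ∃ s t : ℕ, 0 < s ∧ 0 < t ∧ Y.a * s = Z.a * t ∧ ev Y.π w ^ s = ev Z.π w' ^ t

/-- The linking classes are positive. -/
theorem pos_link {Y Z : RedAV p ν} (hY : Big Y.X j) (hZ : Big Z.X j) {w : Wt Y.X L}
    {w' : Wt Z.X L} (h : Eqv Y Z w w') :
    IsPos jO C j (prodR Y Z) ![inlW w, inrW (bar w')] := by
  obtain ⟨s, t, hs, ht, hst, h1⟩ := h
  refine pos_tate hC (big_prodR hY hZ) (fun h => ?_) (s := s * Y.a) (Nat.mul_pos hs Y.pos) ?_
  · exact Sum.inl_ne_inr (Sigma.mk.inj_iff.1 h).1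
  · have e1 : ev (prodR Y Z).π (inlW w) = ev Y.π w ^ Z.a := map_pow w.2 _ _
    have e2 : ev (prodR Y Z).π (inrW (bar w')) = cc L (ev Z.π w') ^ Y.a :=
      map_pow (bar w').2 _ _
    have e3 : (prodR Y Z).a = Y.a * Z.a := rfl
    rw [e1, e2, e3]
    have h2 : (ev Y.π w ^ Z.a) ^ (s * Y.a) = (ev Z.π w' ^ Y.a) ^ (s * Y.a) := by
      have h3 : (ev Y.π w ^ Z.a) ^ (s * Y.a) = (ev Y.π w ^ s) ^ (Z.a * Y.a) := by
        rw [← pow_mul, ← pow_mul]
        congr 1
        ring
      rw [h3, h1, ← pow_mul, ← pow_mul]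
      congr 1
      calc t * (Z.a * Y.a) = (Z.a * t) * Y.a := by ring
        _ = (Y.a * s) * Y.a := by rw [hst]
        _ = Y.a * (s * Y.a) := by ring
    rw [mul_pow, h2, ← mul_pow, ← mul_pow, weil_eq j, ← pow_mul, ← pow_mul, mul_comm Z.a]
    ring_nf

/-- Transfer of positivity. -/
theorem IsPos.transfer {Y Z : RedAV p ν} (hY : Big Y.X j) (hZ : Big Z.X j) {κ : Type} [Fintype κ]
    [DecidableEq κ] {I : κ → Wt Y.X L} {J : κ → Wt Z.X L} (hJ : Function.Injective J)
    (hIJ : ∀ k, Eqv Y Z (I k) (J k)) (h : IsPos jO C j Z J) : IsPos jO C j Y I := by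
  classical
  have : Finite (Wt Z.X L) := Pool.Agent.W67.TA.finite_wt j hZ
  let _ : Fintype (Wt Z.X L) := Fintype.ofFinite _
  let P := prodR Y (prodR Z Z)
  have hJ' : Function.Injective fun k => bar (J k) := fun k k' hk => hJ (bar_injective hk)
  let R := {w : Wt Z.X L // w ∉ Set.range fun k => bar (J k)}
  -- the links
  let K1 : κ × Fin 2 → Wt P.X L := fun x =>
    ![inlW (I x.1), inrW (inlW (bar (J x.1)))] x.2
  have h1 : IsPos jO C j P K1 := by
    refine IsPos.pairs hC K1 fun k => ?_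
    refine IsPos.types hC (Z := prodR Y Z) (J := ![inlW (I k), inrW (bar (J k))])
      (pair_injective fun h => Sum.inl_ne_inr (Sigma.mk.inj_iff.1 h).1) (fun b => ?_)
      (pos_link hC hY hZ (hIJ k))
    fin_cases b <;> rfl
  let K2 : κ → Wt P.X L := fun k => inrW (inrW (bar (bar (J k))))
  have h2 : IsPos jO C j P K2 :=
    IsPos.types hC hJ (fun k => by
      change St j (bar (bar (J k))) = _
      rw [bar_bar]) h
  let K3 : R × Fin 2 → Wt P.X L := fun x => inrW (restK (fun k => bar (J k)) x)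
  have h3 : IsPos jO C j P K3 :=
    IsPos.pairs hC K3 fun k => IsPos.hodge hC rfl
  have h4 := IsPos.cup hC h1 (IsPos.cup hC h2 h3)
  let f : (κ × Fin 2) ⊕ (κ ⊕ (R × Fin 2)) ≃ κ ⊕ ((κ ⊕ κ) ⊕ (R × Fin 2)) :=
    { toFun := fun x => match x with
        | Sum.inl (k, b) => if b = 0 then Sum.inl k else Sum.inr (Sum.inl (Sum.inl k))
        | Sum.inr (Sum.inl k) => Sum.inr (Sum.inl (Sum.inr k))
        | Sum.inr (Sum.inr y) => Sum.inr (Sum.inr y)
      invFun := fun x => match x with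
        | Sum.inl k => Sum.inl (k, 0)
        | Sum.inr (Sum.inl (Sum.inl k)) => Sum.inl (k, 1)
        | Sum.inr (Sum.inl (Sum.inr k)) => Sum.inr (Sum.inl k)
        | Sum.inr (Sum.inr y) => Sum.inr (Sum.inr y)
      left_inv := by
        rintro (⟨k, b⟩ | k | y)
        · fin_cases b <;> rfl
        · rfl
        · rfl
      right_inv := by
        rintro (k | (k | k) | y) <;> rfl }
  have h5 : IsPos jO C j P (Sum.elim (fun k => inlW (I k)) fun x =>
      inrW (fullK (fun k => bar (J k)) x)) := by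
    refine IsPos.reindex hC f ?_ h4
    rintro (⟨k, b⟩ | k | y)
    · fin_cases b <;> rfl
    · rfl
    · rfl
  exact IsPos.push hC (big_prodR hZ hZ) (full_bijective hJ') h5

end

end Pool.Agent.TH117.PO
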