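import Pool.Agent.TH117.PO.Line
import Pool.Agent.W547.KB.Converse
import Pool.Agent.W547.HR.Coord

/-!
# Products of lines, two lines with the same monomial, and push-forward of lines
-/

set_option autoImplicit false
set_option linter.unusedSectionVars false
set_option linter.unusedVariables false

namespace Pool.Agent.TH117.PO

open NumberField Pool.Agent.H204R3.CM Pool.Agent.W547.KB Pool.Agent.W547.LD Pool.Agent.W547.HR
  Pool.Agent.W495.TA Module Pool.Agent.W976.TA
open scoped TensorProduct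

noncomputable section

variable {p : ℕ} [Fact p.Prime] {ν : PadicAlgCl p ≃+* ℂ} {Ω : Type} [Field Ω] [CharZero Ω]
  {L : Type} [Field L] [NumberField L] [IsCMField L] [IsGalois ℚ L] {jO : L →+* Ω}
  {C : (Y : RedAV p ν) → (κ : Type) → ((TM Ω Y) [⋀^κ]→ₗ[Ω] Ω) → Prop}

theorem big_prodR {Y Z : RedAV p ν} {j : L →+* ℂ} (hY : Big Y.X j) (hZ : Big Z.X j) :
    Big (prodR Y Z).X j := by
  rintro (i | i) ψ
  · exact hY i ψ
  · exact hZ i ψ

theorem isHom_hQ (Y E : RedAV p ν) : IsHom Y.X (prodR Y E).X (hQ Y E) := by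
  refine ⟨inT Y.X E.X, fun w => ?_⟩
  change pairT Y.X E.X (Y.X.per w) 0 = (Y.X.prod E.X).per (Y.X.pair E.X w 0)
  rw [per_pair, map_zero]

theorem isHom_hQ' (Y E : RedAV p ν) : IsHom E.X (prodR Y E).X (hQ' Y E) := by
  refine ⟨inT' Y.X E.X, fun w => ?_⟩
  change pairT Y.X E.X 0 (E.X.per w) = (Y.X.prod E.X).per (Y.X.pair E.X 0 w)
  rw [per_pair, map_zero]

theorem bijQ (Y E : RedAV p ν) :
    Function.Bijective (fun v : Y.X.H1 × E.X.H1 => hQ Y E v.1 + hQ' Y E v.2) := by
  rw [Function.bijective_iff_has_inverse]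
  refine ⟨fun z => (pQ Y E z, pQ' Y E z), ?_, ?_⟩
  · rintro ⟨v, v'⟩
    have e1 : pQ Y E (hQ Y E v) = v := rfl
    have e2 : pQ Y E (hQ' Y E v') = 0 := rfl
    have e3 : pQ' Y E (hQ Y E v) = 0 := rfl
    have e4 : pQ' Y E (hQ' Y E v') = v' := rfl
    dsimp only
    rw [map_add, map_add, e1, e2, e3, e4, add_zero, zero_add]
  · intro z
    exact LinearMap.congr_fun (hQ_pQ Y E) z

/-- The pairs outside of the range of `I`. -/
def restK {Y : RedAV p ν} {κ : Type} (I : κ → Wt Y.X L) :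
    {w : Wt Y.X L // w ∉ Set.range I} × Fin 2 → Wt (prodR Y Y).X L :=
  fun x => if x.2 = 0 then inlW x.1.1 else inrW (bar x.1.1)

/-- The weights `I`, the conjugate weights on the second factor, and the pairs outside of the range. -/
def fullK {Y : RedAV p ν} {κ : Type} (I : κ → Wt Y.X L) :
    (κ ⊕ κ) ⊕ ({w : Wt Y.X L // w ∉ Set.range I} × Fin 2) → Wt (prodR Y Y).X L :=
  Sum.elim (Sum.elim (fun k => inlW (I k)) fun k => inrW (bar (I k))) (restK I)

theorem full_bijective {Y : RedAV p ν} {κ : Type} {I : κ → Wt Y.X L}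
    (hI : Function.Injective I) : Function.Bijective (fullK I) := by
  classical
  constructor
  · refine Function.Injective.sumElim (Function.Injective.sumElim ?_ ?_ ?_) ?_ ?_
    · intro k k' hk
      refine hI ?_
      have h5 := Sigma.mk.inj_iff.1 hk
      refine Sigma.ext (Sum.inl.inj h5.1) h5.2
    · intro k k' hk
      refine hI (bar_injective ?_)
      have h5 := Sigma.mk.inj_iff.1 hk
      refine Sigma.ext (Sum.inr.inj h5.1) h5.2
    · intro k k' hk
      have h5 := Sigma.mk.inj_iff.1 hk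
      exact Sum.inl_ne_inr h5.1
    · rintro ⟨⟨w, hw⟩, b⟩ ⟨⟨w', hw'⟩, b'⟩ hk
      by_cases hb : b = 0 <;> by_cases hb' : b' = 0
      · subst hb
        subst hb'
        have h5 := Sigma.mk.inj_iff.1 hk
        have h6 : w = w' := Sigma.ext (Sum.inl.inj h5.1) h5.2
        subst h6
        rfl
      · have h6 : restK I ⟨⟨w, hw⟩, b⟩ = inlW w := if_pos hb
        have h7 : restK I ⟨⟨w', hw'⟩, b'⟩ = inrW (bar w') := if_neg hb'
        rw [h6, h7] at hk
        exact absurd (Sigma.mk.inj_iff.1 hk).1 Sum.inl_ne_inr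
      · have h6 : restK I ⟨⟨w, hw⟩, b⟩ = inrW (bar w) := if_neg hb
        have h7 : restK I ⟨⟨w', hw'⟩, b'⟩ = inlW w' := if_pos hb'
        rw [h6, h7] at hk
        exact absurd (Sigma.mk.inj_iff.1 hk).1 Sum.inr_ne_inl
      · have h6 : restK I ⟨⟨w, hw⟩, b⟩ = inrW (bar w) := if_neg hb
        have h7 : restK I ⟨⟨w', hw'⟩, b'⟩ = inrW (bar w') := if_neg hb'
        rw [h6, h7] at hk
        have h5 := Sigma.mk.inj_iff.1 hk
        have h8 : w = w' := bar_injective (Sigma.ext (Sum.inr.inj h5.1) h5.2)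
        subst h8
        have h9 : b = b' := by omega
        subst h9
        rfl
    · rintro (k | k) ⟨⟨w, hw⟩, b⟩ hk
      · by_cases hb : b = 0
        · have h6 : restK I ⟨⟨w, hw⟩, b⟩ = inlW w := if_pos hb
          rw [h6] at hk
          have h5 := Sigma.mk.inj_iff.1 hk
          exact hw ⟨k, Sigma.ext (Sum.inl.inj h5.1) h5.2⟩
        · have h6 : restK I ⟨⟨w, hw⟩, b⟩ = inrW (bar w) := if_neg hb
          rw [h6] at hk
          exact absurd (Sigma.mk.inj_iff.1 hk).1 Sum.inl_ne_inr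
      · by_cases hb : b = 0
        · have h6 : restK I ⟨⟨w, hw⟩, b⟩ = inlW w := if_pos hb
          rw [h6] at hk
          exact absurd (Sigma.mk.inj_iff.1 hk).1 Sum.inr_ne_inl
        · have h6 : restK I ⟨⟨w, hw⟩, b⟩ = inrW (bar w) := if_neg hb
          rw [h6] at hk
          have h5 := Sigma.mk.inj_iff.1 hk
          exact hw ⟨k, bar_injective (Sigma.ext (Sum.inr.inj h5.1) h5.2)⟩
  · rintro ⟨i | i, φ⟩
    · by_cases hw : (⟨i, φ⟩ : Wt Y.X L) ∈ Set.range I
      · obtain ⟨k, hk⟩ := hw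
        refine ⟨Sum.inl (Sum.inl k), ?_⟩
        change inlW (I k) = _
        rw [hk]
        rfl
      · refine ⟨Sum.inr (⟨⟨i, φ⟩, hw⟩, 0), ?_⟩
        change restK I ⟨⟨⟨i, φ⟩, hw⟩, 0⟩ = inlW ⟨i, φ⟩
        exact if_pos rfl
    · by_cases hw : bar (⟨i, φ⟩ : Wt Y.X L) ∈ Set.range I
      · obtain ⟨k, hk⟩ := hw
        refine ⟨Sum.inl (Sum.inr k), ?_⟩
        change inrW (bar (I k)) = _
        rw [hk, bar_bar]
        rfl
      · refine ⟨Sum.inr (⟨bar ⟨i, φ⟩, hw⟩, 1), ?_⟩
        have hne : ¬ (1 : Fin 2) = 0 := by decide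
        have h6 : restK I ⟨⟨bar ⟨i, φ⟩, hw⟩, 1⟩ = inrW (bar (bar (⟨i, φ⟩ : Wt Y.X L))) := if_neg hne
        change restK I ⟨⟨bar ⟨i, φ⟩, hw⟩, 1⟩ = _
        rw [h6, bar_bar]
        rfl

variable (hC : IsCycleSystem Ω C)
include hC

/-- Products of lines of degree two. -/
theorem Ln_pairs {Y : RedAV p ν} (n : ℕ) (K : Fin n × Fin 2 → Wt Y.X L) (c c' : Fin n → Ω)
    (h : ∀ i, Ln jO C Y (fun b => K (i, b)) (c i) (c' i)) :
    Ln jO C Y K (∏ i, c i) (∏ i, c' i) := by
  induction n with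
  | zero =>
    simp only [Finset.univ_eq_empty, Finset.prod_empty]
    exact Ln_empty hC K
  | succ n ih =>
    rw [Fin.prod_univ_succ, Fin.prod_univ_succ]
    have h1 := ih (fun x => K (x.1.succ, x.2)) (fun i => c i.succ) (fun i => c' i.succ)
      (fun i => h i.succ)
    refine Ln.reindex hC (gE n) ?_ (Ln.cup hC (h 0) h1)
    rintro (k | k)
    · rfl
    · rfl

/-- Products of lines of degree two, indexed by a finite type. -/
theorem Ln_pairsF {Y : RedAV p ν} {J : Type} [Fintype J] [DecidableEq J]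
    (K : J × Fin 2 → Wt Y.X L) (c c' : J → Ω)
    (h : ∀ i, Ln jO C Y (fun b => K (i, b)) (c i) (c' i)) :
    Ln jO C Y K (∏ i, c i) (∏ i, c' i) := by
  let e := Fintype.equivFin J
  have h1 := Ln_pairs hC (Fintype.card J) (fun x => K (e.symm x.1, x.2)) (fun i => c (e.symm i))
    (fun i => c' (e.symm i)) (fun i => h _)
  have h2 : ∀ c : J → Ω, ∏ i, c (e.symm i) = ∏ i, c i := fun c =>
    Fintype.prod_equiv e.symm _ _ fun i => rfl
  rw [h2, h2] at h1
  exact Ln.reindex hC (Equiv.prodCongr e.symm (Equiv.refl _)) (fun k => rfl) h1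

/-- Two lines with the same monomial. -/
theorem two_lines (j : L →+* ℂ) {Y : RedAV p ν} (hB : Big Y.X j) {κ : Type} [Fintype κ]
    [DecidableEq κ] {I : κ → Wt Y.X L} (hI : Function.Injective I) {c c' d d' : Ω}
    (h : Ln jO C Y I c c') (h' : Ln jO C Y I d d') :
    ∃ l : L, c * d' = jO l ∧ c' * d = jO (cc L l) := by
  classical
  have : Finite (Wt Y.X L) := Pool.Agent.W67.TA.finite_wt j hB
  let _ : Fintype (Wt Y.X L) := Fintype.ofFinite _
  let P := prodR Y Y
  have hP : Big P.X j := big_prodR hB hB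
  have h1 : Ln jO C P (fun k => inlW (I k)) c c' :=
    Ln.types hC j (Y := P) (I := fun k => inlW (I k)) hI (fun k => rfl) h
  have h2 : Ln jO C P (fun k => inrW (bar (I k))) d' d :=
    Ln.types hC j (Y := P) (I := fun k => inrW (bar (I k))) (J := fun k => bar (I k))
      (fun k k' hk => hI (bar_injective hk)) (fun k => rfl) (Ln.swap h')
  have h3 : Ln jO C P (restK I) 1 1 := by
    have h4 := Ln_pairsF (jO := jO) hC (restK I) (fun _ => 1) (fun _ => 1) fun i =>
      Ln_hodge hC j rfl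
    rw [Finset.prod_const_one] at h4
    exact h4
  have h4 := Ln.cup hC (Ln.cup hC h1 h2) h3
  rw [mul_one, mul_one] at h4
  exact Ln.top hC j hP (full_bijective hI) h4

/-- Push-forward of lines. -/
theorem Ln.push (j : L →+* ℂ) {Y Y' : RedAV p ν} (hB : Big Y'.X j) {κ κ' : Type} [Fintype κ]
    [DecidableEq κ] [Fintype κ'] [DecidableEq κ'] {I : κ → Wt Y.X L} {B : κ' → Wt Y'.X L}
    (hI : Function.Bijective B) {c c' : Ω}
    (h : Ln jO C (prodR Y Y') (Sum.elim (fun k => inlW (I k)) fun k => inrW (B k)) c c') :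
    ∃ δ : L, δ ≠ 0 ∧ Ln jO C Y I (c * jO δ) (c' * jO (cc L δ)) := by
  have hcard : Nat.card κ' = finrank ℚ Y'.X.H1 := by
    rw [Nat.card_eq_of_bijective B hI, Pool.Agent.W67.TA.card_wt j hB]
  let b0 := Module.finBasis ℚ Y'.X.H1
  let e : Fin (finrank ℚ Y'.X.H1) ≃ κ' := (Finite.equivFinOfCardEq hcard).symm
  let b : Basis κ' ℚ Y'.X.H1 := b0.reindex e
  have hd := mono_ne_zero jO j hB hI b
  refine ⟨mono B b, hd, ?_⟩
  have h1 := V_push hC (isHom_hQ Y Y') (isHom_hQ' Y Y') (bijQ Y Y') b h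
  have h2 : ∀ v : κ → Y.X.H1, mono (Sum.elim (fun k => inlW (I k)) fun k => inrW (B k))
      (Sum.elim (fun k => hQ Y Y' (v k)) fun k => hQ' Y Y' (b k)) = mono I v * mono B b := by
    intro v
    rw [mono_eq_det, mono_eq_det, mono_eq_det]
    have h3 : (Matrix.of fun k l => ev (Sum.elim (fun k => hQ Y Y' (v k))
        (fun k => hQ' Y Y' (b k)) k) (Sum.elim (fun k => inlW (I k)) (fun k => inrW (B k)) l)) =
        Matrix.fromBlocks (Matrix.of fun k l => ev (v k) (I l)) 0 0
          (Matrix.of fun k l => ev (b k) (B l)) := by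
      ext k l
      rcases k with k | k <;> rcases l with l | l
      · rfl
      · exact map_zero (B l).2
      · exact map_zero (I l).2
      · rfl
    rw [h3, Matrix.det_fromBlocks_zero₂₁]
  have h3 : (⟨fun v => (semi jO (prodR Y Y') (κ ⊕ κ') c c'
        (mono (Sum.elim (fun k => inlW (I k)) fun k => inrW (B k)))).fst
          (Sum.elim (fun k => hQ Y Y' (v k)) fun k => hQ' Y Y' (b k)),
      fun v => (semi jO (prodR Y Y') (κ ⊕ κ') c c'
        (mono (Sum.elim (fun k => inlW (I k)) fun k => inrW (B k)))).snd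
          (Sum.elim (fun k => hQ Y Y' (v k)) fun k => hQ' Y Y' (b k))⟩ : W jO Y κ) =
      semi jO Y κ (c * jO (mono B b)) (c' * jO (cc L (mono B b))) (mono I) := by
    ext v
    · change c * jO (mono _ _) = c * jO (mono B b) * jO (mono I v)
      rw [h2, map_mul]
      ring
    · change c' * jO (cc L (mono _ _)) = c' * jO (cc L (mono B b)) * jO (cc L (mono I v))
      rw [h2, map_mul, map_mul]
      ring
  rwa [h3] at h1

end

end Pool.Agent.TH117.PO
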